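import Pool.Agent.X243.Tate.Cnt3
import Pool.Agent.TH115.SD.Gener

/-!
The number of pairs `(a, b)` such that no constant multiple of `b` is a square modulo `a`.
-/

set_option autoImplicit false
set_option linter.all false

open Polynomial
open scoped Classical

namespace Pool.Agent.X243.Tate

open Pool.Agent.Y160.T3 Pool.Agent.TH115.GD

/-- `a` is squarefree of degree `N`, and no constant multiple of `b` is a square modulo `a`. -/
def JJ {R : Type} [CommRing R] (N : ℕ) (a b : R[X]) : Prop :=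
  a.natDegree = N ∧ Squarefree a ∧ ∀ (u : R) (z : R[X]), u ≠ 0 → ¬ a ∣ z ^ 2 - C u * b

section const

variable {F : Type} [Field F] [Finite F]

/-- A constant is a square modulo an irreducible polynomial of even degree. -/
theorem const_even (h2 : (2 : F) ≠ 0) {π : F[X]} (hπ : Irreducible π) (hev : Even π.natDegree)
    (u : F) : ∃ t : F[X], π ∣ t ^ 2 - C u := by
  haveI : Fact (Irreducible π) := ⟨hπ⟩
  haveI : Module.Finite F (AdjoinRoot π) := (AdjoinRoot.powerBasis hπ.ne_zero).finite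
  haveI : Finite (AdjoinRoot π) := Module.finite_of_finite F
  letI := Fintype.ofFinite (AdjoinRoot π)
  letI := Fintype.ofFinite F
  have key : IsSquare (AdjoinRoot.of π u) := by
    by_cases hu : u = 0
    · rw [hu, map_zero]; exact ⟨0, by ring⟩
    have hchar : ringChar (AdjoinRoot π) ≠ 2 := by
      intro hc
      apply h2
      apply (AdjoinRoot.of π).injective
      rw [map_zero, map_ofNat]
      have := ringChar.Nat.cast_ringChar (R := AdjoinRoot π)
      rw [hc] at this
      exact_mod_cast this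
    have hu' : AdjoinRoot.of π u ≠ 0 := by
      rw [Ne, map_eq_zero]; exact hu
    rw [FiniteField.isSquare_iff hchar hu']
    obtain ⟨q, hq⟩ : ∃ q, q = Fintype.card F := ⟨_, rfl⟩
    obtain ⟨m, hm⟩ := hev
    have hcard : Fintype.card (AdjoinRoot π) = q ^ (m + m) := by
      rw [Module.card_eq_pow_finrank (K := F), (AdjoinRoot.powerBasis hπ.ne_zero).finrank,
        AdjoinRoot.powerBasis_dim hπ.ne_zero, hm, hq]
    have hqodd : Odd q := by
      rw [hq]
      have hc : ringChar F ≠ 2 := by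
        intro hc
        apply h2
        have := ringChar.Nat.cast_ringChar (R := F)
        rw [hc] at this
        exact_mod_cast this
      have h3 := FiniteField.odd_card_of_char_ne_two hc
      exact Nat.odd_iff.2 h3
    have h1 : q - 1 ∣ q ^ m - 1 := by
      simpa using Nat.sub_dvd_pow_sub_pow q 1 m
    obtain ⟨c, hc⟩ := h1
    have h3 : Even (q ^ m + 1) := (hqodd.pow).add_odd odd_one
    obtain ⟨d, hd⟩ := h3
    have hpow1 : 1 ≤ q ^ m := Nat.one_le_pow _ _ (hqodd.pos)
    have h4 : Fintype.card (AdjoinRoot π) / 2 = (q - 1) * (c * d) := by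
      rw [hcard]
      have h5 : q ^ (m + m) = 2 * ((q - 1) * (c * d)) + 1 := by
        have h6 : q ^ m - 1 + 1 = q ^ m := Nat.sub_add_cancel hpow1
        have h7 : q ^ (m + m) = (q ^ m - 1) * (q ^ m + 1) + 1 := by
          obtain ⟨w, hw⟩ : ∃ w, w = q ^ m - 1 := ⟨_, rfl⟩
          rw [← hw] at h6 ⊢
          rw [pow_add, ← h6]
          ring
        rw [h7, hd, hc]
        ring
      rw [h5]
      omega
    rw [h4, pow_mul, ← map_pow, hq, FiniteField.pow_card_sub_one_eq_one u hu, map_one, one_pow]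
  have h5 : IsSquare (AdjoinRoot.mk π (C u)) := key
  exact sqMod_iff.2 h5

end const

section count

variable {F : Type} [Field F] [Fintype F]

/-- The number of the polynomials which are not squares modulo `π`. -/
theorem nonsq_count (h2 : (2 : F) ≠ 0) {N : ℕ} {π : F[X]} (hπ : Irreducible π)
    (hd : π.natDegree ≤ N + 1) :
    Fintype.card F ^ (N + 1) ≤ 4 * ({b : Fin (N + 1) → F | ¬ SqMod π (bF b)}).ncard := by
  haveI : Fact (Irreducible π) := ⟨hπ⟩
  haveI : Module.Finite F (AdjoinRoot π) := (AdjoinRoot.powerBasis hπ.ne_zero).finite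
  haveI : Finite (AdjoinRoot π) := Module.finite_of_finite F
  letI := Fintype.ofFinite (AdjoinRoot π)
  obtain ⟨q, hq⟩ : ∃ q, q = Fintype.card F := ⟨_, rfl⟩
  let φ : (Fin (N + 1) → F) → AdjoinRoot π := fun b => AdjoinRoot.mk π (bF b)
  have hadd : ∀ b c, φ (b + c) = φ b + φ c := by
    intro b c
    show AdjoinRoot.mk π (bF (b + c)) = _
    have e : bF (b + c) = bF b + bF c := by
      rw [bF, bF, bF, ← Finset.sum_add_distrib]
      refine Finset.sum_congr rfl fun j _ => ?_
      rw [Pi.add_apply, C_add, add_mul]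
    rw [e, map_add]
  have hneg : ∀ b, φ (-b) = -φ b := by
    intro b
    have h0 : φ 0 = 0 := by
      have := hadd 0 0
      rw [add_zero] at this
      exact left_eq_add.1 this
    have := hadd (-b) b
    rw [neg_add_cancel, h0] at this
    exact eq_neg_of_add_eq_zero_left this.symm
  have hsurj : ∀ x : AdjoinRoot π, ∃ b, φ b = x := by
    intro x
    obtain ⟨f, rfl⟩ := AdjoinRoot.mk_surjective x
    refine ⟨fun j => (f % π).coeff j, ?_⟩
    show AdjoinRoot.mk π (bF _) = _
    have hdeg : (f % π).degree < ((N + 1 : ℕ) : WithBot ℕ) := by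
      refine lt_of_lt_of_le (EuclideanDomain.mod_lt f hπ.ne_zero) ?_
      rw [degree_eq_natDegree hπ.ne_zero]
      exact_mod_cast hd
    rw [bF_of hdeg, AdjoinRoot.mk_eq_mk]
    refine ⟨-(f / π), ?_⟩
    have := EuclideanDomain.div_add_mod f π
    linear_combination this
  choose ψ hψ using hsurj
  have hchar : ringChar (AdjoinRoot π) ≠ 2 := by
    intro hc
    apply h2
    apply (AdjoinRoot.of π).injective
    rw [map_zero, map_ofNat]
    have := ringChar.Nat.cast_ringChar (R := AdjoinRoot π)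
    rw [hc] at this
    exact_mod_cast this
  obtain ⟨ν, hν⟩ := FiniteField.exists_nonsquare hchar
  have hν0 : ν ≠ 0 := fun h => hν (h ▸ ⟨0, by ring⟩)
  set S0 : Set (Fin (N + 1) → F) := {b | φ b = 0} with hS0
  set S1 : Set (Fin (N + 1) → F) := {b | φ b ≠ 0 ∧ IsSquare (φ b)} with hS1
  set S2 : Set (Fin (N + 1) → F) := {b | ¬ SqMod π (bF b)} with hS2
  have hcover : (Set.univ : Set (Fin (N + 1) → F)) ⊆ S0 ∪ S1 ∪ S2 := by
    intro b _
    by_cases h0 : φ b = 0
    · exact Or.inl (Or.inl h0)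
    · by_cases hs : IsSquare (φ b)
      · exact Or.inl (Or.inr ⟨h0, hs⟩)
      · exact Or.inr (fun h => hs (sqMod_iff.1 h))
  -- the kernel
  have h0 : S0.ncard * q ≤ q ^ (N + 1) := by
    let Ψ : S0 × F → (Fin (N + 1) → F) := fun x => x.1.1 + fun j => if j = 0 then x.2 else 0
    have hc : ∀ c : F, φ (fun j => if j = 0 then c else 0) = AdjoinRoot.of π c := by
      intro c
      show AdjoinRoot.mk π (bF _) = AdjoinRoot.mk π (C c)
      congr 1
      rw [bF, Finset.sum_eq_single 0]
      · simp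
      · intro j _ hj
        rw [if_neg hj, C_0, zero_mul]
      · intro h
        exact absurd (Finset.mem_univ _) h
    have hΨ : Function.Injective Ψ := by
      rintro ⟨⟨b, hb⟩, c⟩ ⟨⟨b', hb'⟩, c'⟩ h
      have h3 : φ (Ψ (⟨b, hb⟩, c)) = φ (Ψ (⟨b', hb'⟩, c')) := by rw [h]
      have e1 : φ (Ψ (⟨b, hb⟩, c)) = AdjoinRoot.of π c := by
        show φ (b + _) = _
        rw [hadd, hc, show φ b = 0 from hb, zero_add]
      have e2 : φ (Ψ (⟨b', hb'⟩, c')) = AdjoinRoot.of π c' := by
        show φ (b' + _) = _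
        rw [hadd, hc, show φ b' = 0 from hb', zero_add]
      rw [e1, e2] at h3
      have hcc : c = c' := (AdjoinRoot.of π).injective h3
      subst hcc
      have hbb : b = b' := add_right_cancel (show b + _ = b' + _ from h)
      subst hbb
      rfl
    have := Fintype.card_le_of_injective Ψ hΨ
    rw [Fintype.card_prod, Fintype.card_fun, Fintype.card_fin, ← Nat.card_eq_fintype_card (α := S0),
      Nat.card_coe_set_eq, ← hq] at this
    exact this
  have h1 : S1.ncard ≤ S2.ncard := by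
    refine Set.ncard_le_ncard_of_injOn (fun b => b + -ψ (φ b) + ψ (ν * φ b)) ?_ ?_ (Set.toFinite _)
    · rintro b ⟨hb0, hb⟩
      have e : φ (b + -ψ (φ b) + ψ (ν * φ b)) = ν * φ b := by
        rw [hadd, hadd, hneg, hψ, hψ, add_neg_cancel, zero_add]
      intro hs
      have hs' : IsSquare (φ (b + -ψ (φ b) + ψ (ν * φ b))) := sqMod_iff.1 hs
      rw [e] at hs'
      apply hν
      obtain ⟨y, hy⟩ := hb
      obtain ⟨x, hx⟩ := hs'
      have hy0 : y ≠ 0 := by
        rintro rfl
        rw [mul_zero] at hy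
        exact hb0 hy
      refine ⟨x / y, ?_⟩
      rw [hy] at hx
      field_simp
      rw [pow_two, pow_two]
      exact hx
    · intro b hb c hc h
      have e : ∀ b, φ (b + -ψ (φ b) + ψ (ν * φ b)) = ν * φ b := by
        intro b
        rw [hadd, hadd, hneg, hψ, hψ, add_neg_cancel, zero_add]
      have h3 : ν * φ b = ν * φ c := by
        rw [← e b, ← e c]
        exact congrArg φ h
      have h4 : φ b = φ c := mul_left_cancel₀ hν0 h3
      have h5 : b + -ψ (φ b) + ψ (ν * φ b) = c + -ψ (φ c) + ψ (ν * φ c) := h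
      rw [h4] at h5
      exact add_right_cancel (add_right_cancel h5)
  have htot : q ^ (N + 1) ≤ S0.ncard + S1.ncard + S2.ncard := by
    have h3 := Set.ncard_le_ncard hcover (Set.toFinite _)
    rw [Set.ncard_univ, Nat.card_fun, Nat.card_eq_fintype_card, Nat.card_eq_fintype_card,
      Fintype.card_fin, ← hq] at h3
    have h4 := Set.ncard_union_le (S0 ∪ S1) S2
    have h5 := Set.ncard_union_le S0 S1
    omega
  have hq2 : 2 ≤ q := by
    rw [hq]
    exact Fintype.one_lt_card
  rw [← hq]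
  have h6 : S0.ncard * 2 ≤ q ^ (N + 1) := le_trans (Nat.mul_le_mul_left _ hq2) h0
  omega

theorem ncard_sigma {α β : Type} [Fintype α] [Fintype β] (S : Set α) (T : α → Set β) {m : ℕ}
    (h : ∀ a ∈ S, m ≤ (T a).ncard) : S.ncard * m ≤ ({x : α × β | x.1 ∈ S ∧ x.2 ∈ T x.1}).ncard := by
  have hT : ∀ a : S, ∃ e : Fin m → β, Function.Injective e ∧ ∀ i, e i ∈ T a.1 := by
    intro a
    have h1 : Fintype.card (Fin m) ≤ Fintype.card (T a.1) := by
      rw [Fintype.card_fin, ← Nat.card_eq_fintype_card, Nat.card_coe_set_eq]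
      exact h a.1 a.2
    obtain ⟨e⟩ := Function.Embedding.nonempty_of_card_le h1
    exact ⟨fun x => e x, Subtype.val_injective.comp e.injective, fun x => (e x).2⟩
  choose e he1 he2 using hT
  have h1 := ncard_ge (fun x : S × Fin m => ((x.1.1, e x.1 x.2) : α × β)) (by
    rintro ⟨a, i⟩ ⟨b, j⟩ h
    obtain ⟨h3, h4⟩ := Prod.ext_iff.1 h
    have hab : a = b := Subtype.ext h3
    subst hab
    have : i = j := he1 a h4
    subst this
    rfl) {x : α × β | x.1 ∈ S ∧ x.2 ∈ T x.1} (fun x => ⟨x.1.2, he2 x.1 x.2⟩)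
  refine le_trans (le_of_eq ?_) h1
  rw [Fintype.card_prod, Fintype.card_fin, ← Nat.card_eq_fintype_card (α := S), Nat.card_coe_set_eq]

theorem sqf_of_factor {N : ℕ} (hN : 3 ≤ N) {a π : F[X]} (ha : a.natDegree = N) (hπ : Irreducible π)
    (hd : π.natDegree + 1 = N) (hdv : π ∣ a) : Squarefree a := by
  obtain ⟨l, hl⟩ := hdv
  have ha0 : a ≠ 0 := by
    rintro rfl
    rw [natDegree_zero] at ha
    omega
  have hl0 : l ≠ 0 := by
    rintro rfl
    rw [mul_zero] at hl
    exact ha0 hl
  have hl1 : l.natDegree = 1 := by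
    rw [hl, natDegree_mul hπ.ne_zero hl0] at ha
    omega
  have hli : Irreducible l := irreducible_of_degree_eq_one (by
    rw [degree_eq_natDegree hl0, hl1]; rfl)
  rw [hl]
  refine squarefree_mul_iff.2 ⟨?_, hπ.squarefree, hli.squarefree⟩
  refine (hπ.coprime_iff_not_dvd.2 ?_).isRelPrime
  intro h
  have := natDegree_le_of_dvd h hl0
  omega

/-- The count. -/
theorem JJ_count (h2 : (2 : F) ≠ 0) {N : ℕ} (hN : 3 ≤ N) (hodd : Odd N)
    (hq : 2 * N + 2 ≤ Fintype.card F) :
    Fintype.card F ^ (2 * N + 2) ≤ (16 * N) *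
      ({x : (Fin (N + 1) → F) × (Fin (N + 1) → F) | JJ N (bF x.1) (bF x.2)}).ncard := by
  obtain ⟨M, hM⟩ : ∃ M, N = M + 1 := ⟨N - 1, by omega⟩
  obtain ⟨q, hqd⟩ : ∃ q, q = Fintype.card F := ⟨_, rfl⟩
  have h1 : q ^ (N + 1) ≤ 4 * N * (T2 F N).ncard := by
    subst hM
    rw [hqd]
    exact T2_card (F := F) (M := M) (by omega) (by omega)
  have hfac : ∀ a : Fin (N + 1) → F, ∃ π : F[X], a ∈ T2 F N →
      Irreducible π ∧ π.natDegree + 1 = N ∧ π ∣ bF a := by
    intro a
    by_cases h : a ∈ T2 F N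
    · obtain ⟨-, π, h3⟩ := h
      exact ⟨π, fun _ => h3⟩
    · exact ⟨0, fun h' => absurd h' h⟩
  choose π hπ using hfac
  obtain ⟨m, hm⟩ : ∃ m, m = (q ^ (N + 1) + 3) / 4 := ⟨_, rfl⟩
  have h3 := ncard_sigma (T2 F N) (fun a => {b : Fin (N + 1) → F | ¬ SqMod (π a) (bF b)}) (m := m)
    (by
      intro a ha
      obtain ⟨h4, h5, h6⟩ := hπ a ha
      have h7 := nonsq_count h2 (N := N) h4 (by omega)
      rw [← hqd] at h7
      rw [hm]
      omega)
  have h4 : ({x : (Fin (N + 1) → F) × (Fin (N + 1) → F) | x.1 ∈ T2 F N ∧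
      x.2 ∈ {b : Fin (N + 1) → F | ¬ SqMod (π x.1) (bF b)}}).ncard ≤
      ({x : (Fin (N + 1) → F) × (Fin (N + 1) → F) | JJ N (bF x.1) (bF x.2)}).ncard := by
    refine Set.ncard_le_ncard ?_ (Set.toFinite _)
    rintro ⟨a, b⟩ ⟨ha, hb⟩
    obtain ⟨h5, h6, h7⟩ := hπ a ha
    refine ⟨ha.1, sqf_of_factor hN ha.1 h5 h6 h7, ?_⟩
    rintro u z hu hdv
    apply hb
    have hev : Even (π a).natDegree := by
      obtain ⟨j, hj⟩ := hodd
      exact ⟨j, by omega⟩
    obtain ⟨t, ht⟩ := const_even h2 h5 hev u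
    obtain ⟨s, hs⟩ := const_even h2 h5 hev u⁻¹
    refine ⟨s * z, ?_⟩
    have h8 : π a ∣ z ^ 2 - C u * bF b := h7.trans hdv
    have h9 : (C u⁻¹ * C u : F[X]) = 1 := by rw [← C_mul, inv_mul_cancel₀ hu, C_1]
    have h10 : (s * z) ^ 2 - bF b = z ^ 2 * (s ^ 2 - C u⁻¹) +
        C u⁻¹ * (z ^ 2 - C u * bF b) := by
      linear_combination (bF b) * h9
    show π a ∣ (s * z) ^ 2 - bF b
    rw [h10]
    exact dvd_add (hs.mul_left _) (h8.mul_left _)
  have h5 : q ^ (N + 1) ≤ 4 * m := by
    rw [hm]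
    omega
  rw [← hqd]
  calc q ^ (2 * N + 2) = q ^ (N + 1) * q ^ (N + 1) := by ring
    _ ≤ (4 * N * (T2 F N).ncard) * (4 * m) := Nat.mul_le_mul h1 h5
    _ = (16 * N) * ((T2 F N).ncard * m) := by ring
    _ ≤ _ := Nat.mul_le_mul_left _ (h3.trans h4)

end count

end Pool.Agent.X243.Tate
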