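import Pool.Agent.X243.Tate.Cnt

/-!
The number of triples `(u, s, w)` such that `u ^ 2 + w ^ 2 s` lies in a given set of polynomials.
-/

set_option autoImplicit false
set_option linter.all false

open Polynomial
open scoped Classical

namespace Pool.Agent.X243.Tate

open Pool.Agent.Y160.T3

section sqrt

variable {F : Type} [Field F]

theorem sqrt_mod (h2 : (2 : F) ≠ 0) {n : ℕ} {r : Fin n → F} (hr : Function.Injective r) {d : F[X]}
    (hd : ∀ i, IsSquare (d.eval (r i)) ∧ d.eval (r i) ≠ 0) :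
    ∃ U : F[X], U.natDegree ≤ 2 * n ∧ (∏ i, (X - C (r i))) ^ 2 ∣ d - U ^ 2 := by
  choose e he using fun i => (hd i).1
  have he0 : ∀ i, e i ≠ 0 := by
    intro i h
    apply (hd i).2
    rw [he i, h, mul_zero]
  obtain ⟨W, hW⟩ : ∃ W : F[X], W = ∏ i, (X - C (r i)) := ⟨_, rfl⟩
  have hWm : W.Monic := hW ▸ monic_prod_of_monic _ _ fun i _ => monic_X_sub_C _
  have hWd : W.natDegree = n := by
    rw [hW, natDegree_prod_of_monic _ _ fun i _ => monic_X_sub_C _]
    simp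
  obtain ⟨U₁, hU₁⟩ : ∃ U₁ : F[X], ∀ i, U₁.eval (r i) = e i :=
    ⟨Lagrange.interpolate Finset.univ r e, fun i =>
      Lagrange.eval_interpolate_at_node _ hr.injOn (Finset.mem_univ i)⟩
  have hcopr : Pairwise fun i j => IsCoprime (X - C (r i)) (X - C (r j)) :=
    pairwise_coprime_X_sub_C hr
  have hdv : W ∣ d - U₁ ^ 2 := by
    rw [hW]
    refine Finset.prod_dvd_of_coprime (fun i _ j _ hij => hcopr hij) fun i _ => ?_
    rw [dvd_iff_isRoot, IsRoot, eval_sub, eval_pow, hU₁, he]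
    ring
  have hco : IsCoprime W (2 * U₁) := by
    rw [hW]
    refine IsCoprime.prod_left fun i _ => ?_
    rw [(irreducible_X_sub_C (r i)).coprime_iff_not_dvd, dvd_iff_isRoot, IsRoot, eval_mul, hU₁]
    intro h
    have e2 : eval (r i) (2 : F[X]) = 2 := by simp
    rw [e2] at h
    exact mul_ne_zero h2 (he0 i) h
  obtain ⟨V, hV⟩ := hdv
  obtain ⟨a, b, hab⟩ := hco
  have key : W ^ 2 ∣ d - (U₁ + W * (b * V)) ^ 2 := by
    refine ⟨a * V - (b * V) ^ 2, ?_⟩
    linear_combination hV - W * V * hab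
  have hmod : (U₁ + W * (b * V)) %ₘ (W ^ 2) + W ^ 2 * ((U₁ + W * (b * V)) /ₘ (W ^ 2)) =
    U₁ + W * (b * V) := modByMonic_add_div _ _
  refine ⟨(U₁ + W * (b * V)) %ₘ (W ^ 2), ?_, ?_⟩
  · refine (natDegree_modByMonic_le _ (hWm.pow 2)).trans ?_
    rw [natDegree_pow, hWd]
  · rw [← hW]
    obtain ⟨c, hc⟩ := key
    refine ⟨c + ((U₁ + W * (b * V)) /ₘ (W ^ 2)) * ((U₁ + W * (b * V)) %ₘ (W ^ 2) +
      (U₁ + W * (b * V))), ?_⟩
    linear_combination hc - (((U₁ + W * (b * V)) %ₘ (W ^ 2)) + (U₁ + W * (b * V))) * hmod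

end sqrt

section count

variable {F : Type} [Field F] [Fintype F]

/-- The points at which the polynomial is a nonzero square. -/
def goodR (y : F[X]) : Set F := {r | IsSquare (y.eval r) ∧ y.eval r ≠ 0}

theorem goodR_card {N : ℕ} {y : F[X]} (hy : y ≠ 0) (hN : y.natDegree ≤ N) {ν : F} (hν : ¬ IsSquare ν)
    (h2 : (2 : F) ≠ 0) :
    Fintype.card F ≤ (goodR y).ncard + (goodR (C ν * y)).ncard + N := by
  have h1 : (Set.univ : Set F) ⊆ goodR y ∪ goodR (C ν * y) ∪ (y.roots.toFinset : Set F) := by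
    intro r _
    by_cases h0 : y.eval r = 0
    · right
      simp [hy, h0]
    · left
      have hν0 : ν ≠ 0 := fun h => hν (h ▸ ⟨0, by ring⟩)
      by_cases hs : IsSquare (y.eval r)
      · exact Or.inl ⟨hs, h0⟩
      · right
        have e : (C ν * y).eval r = ν * y.eval r := by rw [eval_mul, eval_C]
        refine ⟨?_, by rw [e]; exact mul_ne_zero hν0 h0⟩
        rw [e]
        have hF : ringChar F ≠ 2 := by
          intro hc
          apply h2
          have := ringChar.Nat.cast_ringChar (R := F)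
          rw [hc] at this
          exact_mod_cast this
        have k1 := (quadraticChar_neg_one_iff_not_isSquare (F := F)).2 hν
        have k2 := (quadraticChar_neg_one_iff_not_isSquare (F := F)).2 hs
        rw [← quadraticChar_one_iff_isSquare (mul_ne_zero hν0 h0), map_mul, k1, k2]
        norm_num
  have h3 := Set.ncard_le_ncard h1 (Set.toFinite _)
  rw [Set.ncard_univ, Nat.card_eq_fintype_card] at h3
  refine h3.trans ((Set.ncard_union_le _ _).trans ?_)
  refine Nat.add_le_add (Set.ncard_union_le _ _) ?_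
  rw [Set.ncard_coe_finset]
  exact (Multiset.toFinset_card_le _).trans ((card_roots' y).trans hN)

theorem exists_blocks {S : Set F} {n g : ℕ} (h : n * g ≤ S.ncard) :
    ∃ e : Fin n × Fin g → F, Function.Injective e ∧ ∀ x, e x ∈ S := by
  have h1 : Fintype.card (Fin n × Fin g) ≤ Fintype.card S := by
    rw [Fintype.card_prod, Fintype.card_fin, Fintype.card_fin, ← Nat.card_eq_fintype_card,
      Nat.card_coe_set_eq]
    exact h
  obtain ⟨e⟩ := Function.Embedding.nonempty_of_card_le h1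
  exact ⟨fun x => e x, Subtype.val_injective.comp e.injective, fun x => (e x).2⟩

/-- The polynomials of the set for which many values are squares. -/
def Tp (T : Set F[X]) (N : ℕ) : Set F[X] :=
  {y | y ∈ T ∧ Fintype.card F ≤ 2 * (goodR y).ncard + N}

/-- `p`, `q`, `w`, and `(w ^ 2 - p - q) ^ 2 - 4 p q`. -/
noncomputable def tP {R : Type} [CommRing R] {n : ℕ}
    (z : (Fin (2 * n + 1) ⊕ Fin (2 * n + 1)) ⊕ Fin (n + 1) → R) : R[X] :=
  bF (fun j => z (Sum.inl (Sum.inl j)))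

noncomputable def tQ {R : Type} [CommRing R] {n : ℕ}
    (z : (Fin (2 * n + 1) ⊕ Fin (2 * n + 1)) ⊕ Fin (n + 1) → R) : R[X] :=
  bF (fun j => z (Sum.inl (Sum.inr j)))

noncomputable def tW {R : Type} [CommRing R] {n : ℕ}
    (z : (Fin (2 * n + 1) ⊕ Fin (2 * n + 1)) ⊕ Fin (n + 1) → R) : R[X] :=
  bF (fun j => z (Sum.inr j))

noncomputable def tD {R : Type} [CommRing R] {n : ℕ}
    (z : (Fin (2 * n + 1) ⊕ Fin (2 * n + 1)) ⊕ Fin (n + 1) → R) : R[X] :=
  (tW z ^ 2 - tP z - tQ z) ^ 2 - 4 * (tP z * tQ z)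

/-- The vector of coefficients. -/
noncomputable def mk3 {R : Type} [CommRing R] {n : ℕ} (P Q W : R[X]) :
    (Fin (2 * n + 1) ⊕ Fin (2 * n + 1)) ⊕ Fin (n + 1) → R :=
  Sum.elim (Sum.elim (fun j => P.coeff j) (fun j => Q.coeff j)) (fun j => W.coeff j)

theorem tP_mk {n : ℕ} {P Q W : F[X]} (hP : P.natDegree ≤ 2 * n) : tP (mk3 (n := n) P Q W) = P :=
  bF_coeffs hP

theorem tQ_mk {n : ℕ} {P Q W : F[X]} (hQ : Q.natDegree ≤ 2 * n) : tQ (mk3 (n := n) P Q W) = Q :=
  bF_coeffs hQ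

theorem tW_mk {n : ℕ} {P Q W : F[X]} (hW : W.natDegree ≤ n) : tW (mk3 (n := n) P Q W) = W :=
  bF_coeffs hW

/-- One set of data. -/
theorem data (h2 : (2 : F) ≠ 0) {n : ℕ} {d : F[X]} (hd : d.natDegree ≤ 4 * n) {r : Fin n → F}
    (hr : Function.Injective r) (hg : ∀ i, r i ∈ goodR d) :
    ∃ U : F[X], ∀ (c c' : F), c ≠ 0 → ∃ z : (Fin (2 * n + 1) ⊕ Fin (2 * n + 1)) ⊕ Fin (n + 1) → F,
      tD z = d ∧ tW z = C c * ∏ i, (X - C (r i)) ∧
        tP z - tQ z = U + C c' * (∏ i, (X - C (r i))) ^ 2 := by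
  obtain ⟨U, hU, hdv⟩ := sqrt_mod h2 hr hg
  obtain ⟨W, hW⟩ : ∃ W : F[X], W = ∏ i, (X - C (r i)) := ⟨_, rfl⟩
  have hWm : W.Monic := hW ▸ monic_prod_of_monic _ _ fun i _ => monic_X_sub_C _
  have hWd : W.natDegree = n := by
    rw [hW, natDegree_prod_of_monic _ _ fun i _ => monic_X_sub_C _]
    simp
  rw [← hW] at hdv ⊢
  refine ⟨U, fun c c' hc => ?_⟩
  have h4 : (4 : F) ≠ 0 := by
    rw [show (4 : F) = 2 * 2 by norm_num]
    exact mul_ne_zero h2 h2
  obtain ⟨V, hV⟩ := hdv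
  set U' := U + C c' * W ^ 2 with hU'
  have hU'd : U'.natDegree ≤ 2 * n := by
    refine (natDegree_add_le _ _).trans (max_le hU ((natDegree_C_mul_le _ _).trans ?_))
    rw [natDegree_pow, hWd]
  obtain ⟨S, hS⟩ : ∃ S : F[X], S = C ((c ^ 2)⁻¹) * (V - 2 * C c' * U - C c' ^ 2 * W ^ 2) := ⟨_, rfl⟩
  have hC : (C c : F[X]) ^ 2 * C ((c ^ 2)⁻¹) = 1 := by
    rw [← C_pow, ← C_mul, mul_inv_cancel₀ (pow_ne_zero 2 hc), C_1]
  have hdS : d - U' ^ 2 = (C c * W) ^ 2 * S := by
    rw [hS, hU']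
    linear_combination hV - W ^ 2 * (V - 2 * C c' * U - C c' ^ 2 * W ^ 2) * hC
  have hSd : S.natDegree ≤ 2 * n := by
    by_cases hS0 : S = 0
    · rw [hS0, natDegree_zero]; exact Nat.zero_le _
    · have h5 : ((C c * W) ^ 2 * S).natDegree = 2 * n + S.natDegree := by
        rw [natDegree_mul (pow_ne_zero 2 (mul_ne_zero (C_ne_zero.2 hc) hWm.ne_zero)) hS0,
          natDegree_pow, natDegree_C_mul hc, hWd]
      have h6 : (d - U' ^ 2).natDegree ≤ 4 * n := by
        refine (natDegree_sub_le _ _).trans (max_le hd (natDegree_pow_le.trans ?_))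
        omega
      rw [hdS, h5] at h6
      omega
  set W' := C c * W with hW'
  have hW'd : W'.natDegree ≤ n := (natDegree_C_mul_le _ _).trans hWd.le
  set Q := C ((4 : F)⁻¹) * (W' ^ 2 - 2 * U' - S) with hQ
  have hQd : Q.natDegree ≤ 2 * n := by
    refine (natDegree_C_mul_le _ _).trans ((natDegree_sub_le _ _).trans (max_le
      ((natDegree_sub_le _ _).trans (max_le ?_ ?_)) hSd))
    · exact natDegree_pow_le.trans (by omega)
    · have e2 : (2 : F[X]) = C 2 := rfl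
      rw [e2]
      exact (natDegree_C_mul_le _ _).trans hU'd
  have h4Q : 4 * Q = W' ^ 2 - 2 * U' - S := by
    have e4 : (4 : F[X]) = C 4 := rfl
    rw [hQ, e4, ← mul_assoc, ← C_mul, mul_inv_cancel₀ h4, C_1, one_mul]
  have hPd : (U' + Q).natDegree ≤ 2 * n := (natDegree_add_le _ _).trans (max_le hU'd hQd)
  refine ⟨mk3 (U' + Q) Q W', ?_, ?_, ?_⟩
  · rw [tD, tP_mk hPd, tQ_mk hQd, tW_mk hW'd]
    linear_combination -W' ^ 2 * h4Q - hdS
  · rw [tW_mk hW'd]
  · rw [tP_mk hPd, tQ_mk hQd]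
    ring

theorem bF_inj' {N : ℕ} {y y' : Fin (N + 1) → F} (h : bF y = bF y') : y = y' := bF_inj h

/-- The count. -/
theorem cnt_main (h2 : (2 : F) ≠ 0) {n g : ℕ} (T : Set (Fin (4 * n + 1) → F))
    (hT : ∀ y ∈ T, n * g ≤ (goodR (bF y)).ncard) :
    T.ncard * ((Fintype.card F - 1) * g ^ n * Fintype.card F) ≤
      ({z : (Fin (2 * n + 1) ⊕ Fin (2 * n + 1)) ⊕ Fin (n + 1) → F |
        (fun j : Fin (4 * n + 1) => (tD z).coeff j) ∈ T}).ncard := by
  have hex : ∀ y : T, ∃ e : Fin n × Fin g → F, Function.Injective e ∧ ∀ x, e x ∈ goodR (bF y.1) :=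
    fun y => exists_blocks (hT y.1 y.2)
  choose e he1 he2 using hex
  have hdeg : ∀ y : T, (bF y.1).natDegree ≤ 4 * n := by
    intro y
    refine natDegree_le_of_degree_le ?_
    rcases eq_or_ne (bF y.1) 0 with h | h
    · rw [h, degree_zero]; exact bot_le
    · rw [degree_eq_natDegree h]
      have h1 := bF_deg y.1
      rw [degree_eq_natDegree h] at h1
      have h2 : (bF y.1).natDegree < 4 * n + 1 := by exact_mod_cast h1
      exact_mod_cast (by omega : (bF y.1).natDegree ≤ 4 * n)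
  have hinj : ∀ (y : T) (s : Fin n → Fin g), Function.Injective fun i => e y (i, s i) := by
    intro y s i j h
    exact (Prod.ext_iff.1 (he1 y h)).1
  have hdat : ∀ (y : T) (s : Fin n → Fin g), ∃ U : F[X], ∀ (c : Fˣ) (c' : F),
      ∃ z : (Fin (2 * n + 1) ⊕ Fin (2 * n + 1)) ⊕ Fin (n + 1) → F,
      tD z = bF y.1 ∧ tW z = C (c : F) * ∏ i, (X - C (e y (i, s i))) ∧
        tP z - tQ z = U + C c' * (∏ i, (X - C (e y (i, s i)))) ^ 2 := by
    intro y s
    obtain ⟨U, hU⟩ := data h2 (hdeg y) (hinj y s) (fun i => he2 y _)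
    exact ⟨U, fun c c' => hU c c' c.ne_zero⟩
  choose U z hz1 hz2 hz3 using hdat
  let Φ : T × Fˣ × (Fin n → Fin g) × F → ((Fin (2 * n + 1) ⊕ Fin (2 * n + 1)) ⊕ Fin (n + 1) → F) :=
    fun x => z x.1 x.2.2.1 x.2.1 x.2.2.2
  have hΦ : Function.Injective Φ := by
    rintro ⟨y, c, s, c'⟩ ⟨y', d, t, d'⟩ h
    have h' : z y s c c' = z y' t d d' := h
    have k1 := hz1 y s c c'
    have k2 := hz2 y s c c'
    have k3 := hz3 y s c c'
    rw [h'] at k1 k2 k3
    rw [hz1] at k1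
    have hy : y = y' := Subtype.ext (bF_inj k1).symm
    subst hy
    rw [hz2] at k2
    have hm1 : (∏ i, (X - C (e y (i, s i)))).Monic := monic_prod_of_monic _ _ fun i _ => monic_X_sub_C _
    have hm2 : (∏ i, (X - C (e y (i, t i)))).Monic := monic_prod_of_monic _ _ fun i _ => monic_X_sub_C _
    obtain ⟨hc, hp⟩ := smul_inj hm2 hm1 k2
    subst hc
    have hst : s = t := by
      funext i
      have h5 : (∏ j, (X - C (e y (j, t j)))).IsRoot (e y (i, s i)) := by
        rw [hp, IsRoot, eval_prod]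
        exact Finset.prod_eq_zero (Finset.mem_univ i) (by simp)
      rw [IsRoot, eval_prod, Finset.prod_eq_zero_iff] at h5
      obtain ⟨j, -, hj⟩ := h5
      rw [eval_sub, eval_X, eval_C, sub_eq_zero] at hj
      have h6 := he1 y hj
      obtain ⟨h7, h8⟩ := Prod.ext_iff.1 h6
      have h7' : i = j := h7
      subst h7'
      exact h8
    subst hst
    rw [hz3] at k3
    have h9 := add_left_cancel k3
    have h10 := mul_right_cancel₀ (pow_ne_zero 2 hm1.ne_zero) h9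
    have h11 : c' = d' := (C_injective h10).symm
    subst h11
    rfl
  have hcard := ncard_ge Φ hΦ {z : (Fin (2 * n + 1) ⊕ Fin (2 * n + 1)) ⊕ Fin (n + 1) → F |
        (fun j : Fin (4 * n + 1) => (tD z).coeff j) ∈ T} (by
    rintro ⟨y, c, s, c'⟩
    have k1 := hz1 y s c c'
    show (fun j : Fin (4 * n + 1) => (tD (z y s c c')).coeff j) ∈ T
    have e1 : (fun j : Fin (4 * n + 1) => (tD (z y s c c')).coeff j) = y.1 := by
      apply bF_inj
      rw [bF_coeffs (by rw [k1]; exact hdeg y), k1]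
    rw [e1]
    exact y.2)
  refine le_trans (le_of_eq ?_) hcard
  rw [Fintype.card_prod, Fintype.card_prod, Fintype.card_prod, Fintype.card_units, Fintype.card_fun,
    Fintype.card_fin, Fintype.card_fin, ← Nat.card_eq_fintype_card (α := T), Nat.card_coe_set_eq]
  ring

theorem bF_smul {r : ℕ} (c : F) (y : Fin r → F) : bF (fun j => c * y j) = C c * bF y := by
  rw [bF, bF, Finset.mul_sum]
  refine Finset.sum_congr rfl fun j _ => ?_
  rw [C_mul, mul_assoc]

theorem half_T (h2 : (2 : F) ≠ 0) {N : ℕ} {T : Set (Fin (N + 1) → F)} (hT0 : ∀ y ∈ T, bF y ≠ 0)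
    (hTs : ∀ y ∈ T, ∀ c : F, c ≠ 0 → (fun j => c * y j) ∈ T) :
    T.ncard ≤ 2 * ({y | y ∈ T ∧ Fintype.card F ≤ 2 * (goodR (bF y)).ncard + N} : Set _).ncard := by
  have hF : ringChar F ≠ 2 := by
    intro hc
    apply h2
    have := ringChar.Nat.cast_ringChar (R := F)
    rw [hc] at this
    exact_mod_cast this
  obtain ⟨ν, hν⟩ := FiniteField.exists_nonsquare hF
  have hν0 : ν ≠ 0 := fun h => hν (h ▸ ⟨0, by ring⟩)
  set T' : Set (Fin (N + 1) → F) :=
    {y | y ∈ T ∧ Fintype.card F ≤ 2 * (goodR (bF y)).ncard + N} with hT'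
  let ψ : (Fin (N + 1) → F) → (Fin (N + 1) → F) := fun y j => ν * y j
  have hψ : Function.Injective ψ := by
    intro y y' h
    funext j
    exact mul_left_cancel₀ hν0 (congrFun h j)
  have hsub : T ⊆ T' ∪ ψ ⁻¹' T' := by
    intro y hy
    by_contra hcon
    rw [Set.mem_union, not_or] at hcon
    obtain ⟨h1, h3⟩ := hcon
    have k1 : ¬ Fintype.card F ≤ 2 * (goodR (bF y)).ncard + N := fun h => h1 ⟨hy, h⟩
    have k2 : ¬ Fintype.card F ≤ 2 * (goodR (C ν * bF y)).ncard + N := by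
      intro h
      apply h3
      refine ⟨hTs y hy ν hν0, ?_⟩
      show Fintype.card F ≤ 2 * (goodR (bF (fun j => ν * y j))).ncard + N
      rw [bF_smul]
      exact h
    have hdeg : (bF y).natDegree ≤ N := by
      have h5 := bF_deg y
      rw [degree_eq_natDegree (hT0 y hy)] at h5
      have h6 : (bF y).natDegree < N + 1 := by exact_mod_cast h5
      omega
    have k3 := goodR_card (hT0 y hy) hdeg hν h2
    omega
  have h4 := Set.ncard_le_ncard hsub (Set.toFinite _)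
  have h5 : (ψ ⁻¹' T').ncard ≤ T'.ncard :=
    Set.ncard_le_ncard_of_injOn ψ (fun y hy => hy) hψ.injOn (Set.toFinite _)
  have h6 := Set.ncard_union_le T' (ψ ⁻¹' T')
  omega

theorem prop3 (h2 : (2 : F) ≠ 0) {n : ℕ} (hn : 0 < n) (hq : 8 * n ≤ Fintype.card F) {D : ℕ}
    {T : Set (Fin (4 * n + 1) → F)} (hT0 : ∀ y ∈ T, bF y ≠ 0)
    (hTs : ∀ y ∈ T, ∀ c : F, c ≠ 0 → (fun j => c * y j) ∈ T)
    (hT : Fintype.card F ^ (4 * n + 1) ≤ D * T.ncard) :
    Fintype.card F ^ (5 * n + 3) ≤ (D * (4 * (8 * n) ^ n)) *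
      ({z : (Fin (2 * n + 1) ⊕ Fin (2 * n + 1)) ⊕ Fin (n + 1) → F |
        (fun j : Fin (4 * n + 1) => (tD z).coeff j) ∈ T}).ncard := by
  obtain ⟨q, hqdef⟩ : ∃ q, q = Fintype.card F := ⟨_, rfl⟩
  obtain ⟨g, hg⟩ : ∃ g, g = q / (4 * n) := ⟨_, rfl⟩
  have hn4 : 0 < 4 * n := by omega
  have hg1 : 4 * n * g ≤ q := by
    rw [hg, mul_comm]
    exact Nat.div_mul_le_self _ _
  have hg2 : q < 4 * n * (g + 1) := by
    rw [hg]
    have := Nat.lt_div_mul_add hn4 (a := q)
    calc q < q / (4 * n) * (4 * n) + 4 * n := this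
      _ = 4 * n * (q / (4 * n) + 1) := by ring
  rw [← hqdef] at hq hT ⊢
  have hg3 : 1 ≤ g := by
    by_contra h
    have : g = 0 := by omega
    rw [this] at hg2
    omega
  have hg4 : q ≤ 8 * n * g := by nlinarith
  set T' : Set (Fin (4 * n + 1) → F) :=
    {y | y ∈ T ∧ Fintype.card F ≤ 2 * (goodR (bF y)).ncard + 4 * n} with hT'
  have h1 : T.ncard ≤ 2 * T'.ncard := half_T h2 hT0 hTs
  have h3 := cnt_main h2 (n := n) (g := g) T' (by
    rintro y ⟨-, hy⟩
    rw [← hqdef] at hy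
    have : 4 * n * g = 4 * (n * g) := by ring
    omega)
  rw [← hqdef] at h3
  have h4 : ({z : (Fin (2 * n + 1) ⊕ Fin (2 * n + 1)) ⊕ Fin (n + 1) → F |
        (fun j : Fin (4 * n + 1) => (tD z).coeff j) ∈ T'}).ncard ≤
      ({z : (Fin (2 * n + 1) ⊕ Fin (2 * n + 1)) ⊕ Fin (n + 1) → F |
        (fun j : Fin (4 * n + 1) => (tD z).coeff j) ∈ T}).ncard :=
    Set.ncard_le_ncard (fun z hz => hz.1) (Set.toFinite _)
  have h5 : q ≤ 2 * (q - 1) := by omega
  have h6 : q ^ n ≤ (8 * n) ^ n * g ^ n := by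
    rw [← mul_pow]
    exact Nat.pow_le_pow_left hg4 n
  calc q ^ (5 * n + 3) = q ^ (4 * n + 1) * q * q ^ n * q := by ring
    _ ≤ (D * (2 * T'.ncard)) * (2 * (q - 1)) * ((8 * n) ^ n * g ^ n) * q := by
        refine Nat.mul_le_mul_right q (Nat.mul_le_mul (Nat.mul_le_mul (hT.trans
          (Nat.mul_le_mul_left D h1)) h5) h6)
    _ = (D * (4 * (8 * n) ^ n)) * (T'.ncard * ((q - 1) * g ^ n * q)) := by ring
    _ ≤ _ := Nat.mul_le_mul_left _ (h3.trans h4)

end count

end Pool.Agent.X243.Tate
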