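import Pool.Agent.TH115.ID.Gener
import Pool.Agent.TH115.SD.Fam2

/-!
Products and norms from quadratic extensions.
-/

set_option autoImplicit false
set_option linter.all false

open Polynomial
open scoped Classical

namespace Pool.Agent.X243.Tate

open Pool.Agent.TH115.GD

section nn2

variable {k : Type} [Field k]

/-- A small solution of a linear congruence. -/
theorem thue {p s : k[X]} (hp : p ≠ 0) (e : ℕ) (he : p.natDegree < 2 * (e + 1)) :
    ∃ G H : k[X], (G ≠ 0 ∨ H ≠ 0) ∧ G.natDegree ≤ e ∧ H.natDegree ≤ e ∧ p ∣ G - s * H := by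
  let V := degreeLT k (e + 1)
  let f : V × V →ₗ[k] (degreeLT k p.natDegree) :=
    LinearMap.codRestrict (degreeLT k p.natDegree)
      (((modByMonicHom (C p.leadingCoeff⁻¹ * p)) ∘ₗ
        ((V.subtype ∘ₗ LinearMap.fst k V V) -
          (LinearMap.mulLeft k s) ∘ₗ (V.subtype ∘ₗ LinearMap.snd k V V))))
      (by
        intro x
        rw [mem_degreeLT]
        have hm : (C p.leadingCoeff⁻¹ * p).Monic := by
          rw [mul_comm]
          exact monic_mul_leadingCoeff_inv hp
        have h1 : (C p.leadingCoeff⁻¹ * p).degree = p.natDegree := by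
          rw [degree_C_mul (inv_ne_zero (leadingCoeff_ne_zero.2 hp)), degree_eq_natDegree hp]
        rw [← h1]
        exact degree_modByMonic_lt _ hm)
  have hker : LinearMap.ker f ≠ ⊥ := by
    apply LinearMap.ker_ne_bot_of_finrank_lt
    rw [Module.finrank_prod]
    have h1 : Module.finrank k (degreeLT k p.natDegree) = p.natDegree := by
      rw [(degreeLTEquiv k p.natDegree).finrank_eq, Module.finrank_fin_fun]
    have h3 : Module.finrank k V = e + 1 := by
      rw [(degreeLTEquiv k (e + 1)).finrank_eq, Module.finrank_fin_fun]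
    rw [h1, h3]
    omega
  obtain ⟨x, hx, hx0⟩ := (Submodule.ne_bot_iff _).1 hker
  obtain ⟨⟨G, hG⟩, ⟨H, hH⟩⟩ := x
  have hm : (C p.leadingCoeff⁻¹ * p).Monic := by
    rw [mul_comm]
    exact monic_mul_leadingCoeff_inv hp
  have hdeg : ∀ {Q : k[X]}, Q ∈ V → Q.natDegree ≤ e := by
    intro Q hQ
    have h4 : Q.degree < (e + 1 : ℕ) := mem_degreeLT.1 hQ
    by_cases hQ0 : Q = 0
    · rw [hQ0, natDegree_zero]; exact Nat.zero_le _
    · rw [degree_eq_natDegree hQ0] at h4
      have : Q.natDegree < e + 1 := by exact_mod_cast h4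
      omega
  refine ⟨G, H, ?_, hdeg hG, hdeg hH, ?_⟩
  · by_contra hcon
    push Not at hcon
    apply hx0
    ext
    · exact congrArg (fun Q : k[X] => Q.coeff _) hcon.1
    · exact congrArg (fun Q : k[X] => Q.coeff _) hcon.2
  · have h5 : (G - s * H) %ₘ (C p.leadingCoeff⁻¹ * p) = 0 := by
      have := congrArg Subtype.val (LinearMap.mem_ker.1 hx)
      exact this
    rw [modByMonic_eq_zero_iff_dvd hm] at h5
    exact (dvd_mul_left p _).trans h5

/-- If a nonsquare constant is a square modulo an irreducible polynomial, then the polynomial is a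
constant times a norm. -/
theorem norm_of_sq {p s : k[X]} {D : k} (hp : Irreducible p) (hev : Even p.natDegree)
    (hD : ¬ IsSquare D) (hs : p ∣ s ^ 2 - C D) :
    ∃ (c : k) (G H : k[X]), p = C c * (G ^ 2 - C D * H ^ 2) := by
  obtain ⟨m, hm⟩ := hev
  obtain ⟨G, H, hne, hG, hH, hdv⟩ := thue (s := s) hp.ne_zero m (by omega)
  have hdv2 : p ∣ G ^ 2 - C D * H ^ 2 := by
    obtain ⟨a, ha⟩ := hdv
    obtain ⟨b, hb⟩ := hs
    refine ⟨a * (G + s * H) + b * H ^ 2, ?_⟩
    linear_combination (G + s * H) * ha + H ^ 2 * hb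
  have h0 : G ^ 2 - C D * H ^ 2 ≠ 0 := by
    intro h
    by_cases hH0 : H = 0
    · rw [hH0, zero_pow two_ne_zero, mul_zero, sub_zero] at h
      rcases hne with h1 | h1
      · exact h1 (pow_eq_zero_iff two_ne_zero |>.1 h)
      · exact h1 hH0
    · apply hD
      have h1 : G.leadingCoeff ^ 2 = D * H.leadingCoeff ^ 2 := by
        rw [sub_eq_zero] at h
        have := congrArg leadingCoeff h
        rwa [leadingCoeff_pow, leadingCoeff_mul, leadingCoeff_C, leadingCoeff_pow] at this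
      refine ⟨G.leadingCoeff / H.leadingCoeff, ?_⟩
      have h3 : H.leadingCoeff ≠ 0 := leadingCoeff_ne_zero.2 hH0
      field_simp
      linear_combination -h1
  obtain ⟨q, hq⟩ := hdv2
  have hq0 : q ≠ 0 := by
    rintro rfl
    rw [mul_zero] at hq
    exact h0 hq
  have hdeg : (G ^ 2 - C D * H ^ 2).natDegree ≤ p.natDegree := by
    refine (natDegree_sub_le _ _).trans (max_le (natDegree_pow_le.trans (by omega))
      ((natDegree_C_mul_le _ _).trans (natDegree_pow_le.trans (by omega))))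
  have hq1 : q.natDegree = 0 := by
    rw [hq, natDegree_mul hp.ne_zero hq0] at hdeg
    omega
  obtain ⟨c, hc⟩ := natDegree_eq_zero.1 hq1
  have hc0 : c ≠ 0 := by
    rintro rfl
    rw [C_0] at hc
    exact hq0 hc.symm
  refine ⟨c⁻¹, G, H, ?_⟩
  rw [hq, ← hc, mul_comm p, ← mul_assoc, ← C_mul, inv_mul_cancel₀ hc0, C_1, one_mul]

/-- **Products.** -/
theorem notNorm_mul {p q : k[X]} (hp : Irreducible p) (hN : NotNorm p) (hco : IsCoprime p q)
    (hq : q ≠ 0) : NotNorm (p * q) := by
  intro u D U V e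
  have hpq : ¬ p ∣ q := hp.coprime_iff_not_dvd.1 hco
  have hpp : ∀ {x : k[X]}, p * q = p ^ 2 * x → False := by
    intro x hx
    apply hpq
    refine ⟨x, mul_left_cancel₀ hp.ne_zero ?_⟩
    rw [hx]; ring
  have hu : u ≠ 0 := by
    rintro rfl
    rw [C_0, zero_mul] at e
    exact mul_ne_zero hp.ne_zero hq e
  have hCu : IsUnit (C u : k[X]) := isUnit_C.2 (isUnit_iff_ne_zero.2 hu)
  have hdv : p ∣ U ^ 2 - C D * V ^ 2 := (hCu.dvd_mul_left).1 (e ▸ dvd_mul_right p q)
  have hboth : ¬ (p ∣ U ∧ p ∣ V) := by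
    rintro ⟨⟨a, rfl⟩, ⟨b, rfl⟩⟩
    exact hpp (x := C u * (a ^ 2 - C D * b ^ 2)) (by rw [e]; ring)
  have hV : ¬ p ∣ V := by
    intro h
    apply hboth
    refine ⟨?_, h⟩
    have h3 : p ∣ (U ^ 2 - C D * V ^ 2) + C D * V ^ 2 :=
      dvd_add hdv ((dvd_pow h two_ne_zero).mul_left _)
    rw [sub_add_cancel] at h3
    exact hp.prime.dvd_of_dvd_pow h3
  refine ⟨fun h => hV (h ▸ dvd_zero p), ?_⟩
  by_contra hD
  obtain ⟨a, b, hab⟩ := hp.coprime_iff_not_dvd.2 hV
  have hs : p ∣ (U * b) ^ 2 - C D := by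
    have e3 : (U * b) ^ 2 - C D = b ^ 2 * (U ^ 2 - C D * V ^ 2) -
        C D * ((1 + b * V) * (a * p)) := by
      linear_combination C D * (1 + b * V) * hab
    rw [e3]
    exact dvd_sub (hdv.mul_left _) ((dvd_mul_left p a).mul_left _ |>.mul_left _)
  rcases Nat.even_or_odd p.natDegree with hev | hodd
  · obtain ⟨c, G, H, hGH⟩ := norm_of_sq hp hev hD hs
    exact hD (hN c D G H hGH).2
  · exact hD (const_sq hp hodd ⟨_, hs⟩)

end nn2

end Pool.Agent.X243.Tate
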