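import Pool.Agent.TH115.GD.Rk2
import Pool.Agent.TH958.T2.Ind

/-!
Two independent points on `y ^ 2 = x (x - (p ^ 2 - q ^ 2)) (x - (p ^ 2 - r ^ 2))`, `p = α q + β r`.
-/

set_option autoImplicit false
set_option linter.all false

open Polynomial IsDedekindDomain WeierstrassCurve WeierstrassCurve.Affine
open scoped Classical

namespace Pool.Agent.X243.Tate

open Pool.Agent.TH115.GD Pool.Agent.W309.RK Pool.Agent.TH958.T2

section gen

variable {k : Type} [Field k] (K : Type) [Field K] [Algebra k[X] K] [IsFractionRing k[X] K]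

/-- A point with given parities. -/
theorem pt_par (h2 : (2 : k) ≠ 0) {a b : k[X]} (ha : a ≠ 0) (hb : b ≠ 0) (hab : a ≠ b)
    {x y : k[X]} (hxy : y ^ 2 = x * (x - a) * (x - b)) {c0 c1 : k} (hc0 : c0 ≠ 0) (hc1 : c1 ≠ 0)
    {p q : k[X]} (hp : p ≠ 0) (hq : q ≠ 0)
    (hx : (if x = 0 then a * b else x) = C c0 * p) 
    (hxa : (if x = a then a * (a - b) else x - a) = C c1 * q) :
    ∃ P : Pt (crv (algebraMap k[X] K a) (algebraMap k[X] K b)) K,
      (∀ (π : k[X]) (hπ : Irreducible π), ((ordK π hπ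
        (del ((crv (algebraMap k[X] K a) (algebraMap k[X] K b)).baseChange
          K).toAffine 0 P) : ℤ) : ZMod 2) = ((ordK π hπ (algebraMap k[X] K p) : ℤ) : ZMod 2)) ∧
      ∀ (π : k[X]) (hπ : Irreducible π), ((ordK π hπ
        (del ((crv (algebraMap k[X] K a) (algebraMap k[X] K b)).baseChange
          K).toAffine (algebraMap k[X] K a) P) : ℤ) : ZMod 2) =
        ((ordK π hπ (algebraMap k[X] K q) : ℤ) : ZMod 2) := by
  have inj := IsFractionRing.injective k[X] K
  have h2K : (2 : K) ≠ 0 := by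
    have h3 : algebraMap k[X] K (C 2) ≠ 0 := by simpa using h2
    rwa [C_ofNat, map_ofNat] at h3
  have haK : algebraMap k[X] K a ≠ 0 := by simpa using ha
  have hbK : algebraMap k[X] K b ≠ 0 := by simpa using hb
  have habK : algebraMap k[X] K a ≠ algebraMap k[X] K b := fun e => hab (inj e)
  have hE := isE (algebraMap k[X] K a) (algebraMap k[X] K b) K h2K haK hbK habK
  have hn : ((crv (algebraMap k[X] K a) (algebraMap k[X] K b)).baseChange
      K).toAffine.Nonsingular (algebraMap k[X] K x) (algebraMap k[X] K y) := by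
    rw [hE.nonsingular]
    have := congrArg (algebraMap k[X] K) hxy
    rw [map_pow, map_mul, map_mul, map_sub, map_sub] at this
    exact this
  have i0 : algebraMap k[X] K x = 0 ↔ x = 0 := by
    rw [← map_zero (algebraMap k[X] K)]
    exact inj.eq_iff
  have i1 : algebraMap k[X] K x = algebraMap k[X] K a ↔ x = a := inj.eq_iff
  refine ⟨Point.some _ _ hn, ?_, ?_⟩
  · intro π hπ
    have e : del ((crv (algebraMap k[X] K a) (algebraMap k[X] K b)).baseChange
        K).toAffine 0 (Point.some _ _ hn) = algebraMap k[X] K (C c0 * p * 1 ^ 2) := by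
      show (if algebraMap k[X] K x = 0 then dd _ 0 else algebraMap k[X] K x - 0) = _
      rw [one_pow, mul_one, ← hx]
      by_cases h : x = 0
      · rw [if_pos (i0.2 h), if_pos h]
        show 3 * (0 : K) ^ 2 + 2 * _ * 0 + _ = _
        have e4 : ((crv (algebraMap k[X] K a) (algebraMap k[X] K b)).baseChange
          K).toAffine.a₄ = algebraMap k[X] K a * algebraMap k[X] K b := rfl
        rw [e4, map_mul]
        ring
      · rw [if_neg (fun h' => h (i0.1 h')), if_neg h, sub_zero]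
    rw [e]
    exact ord_par π hπ hc0 hp one_ne_zero
  · intro π hπ
    have e : del ((crv (algebraMap k[X] K a) (algebraMap k[X] K b)).baseChange
        K).toAffine (algebraMap k[X] K a) (Point.some _ _ hn) =
        algebraMap k[X] K (C c1 * q * 1 ^ 2) := by
      show (if algebraMap k[X] K x = algebraMap k[X] K a then dd _ _ else
        algebraMap k[X] K x - algebraMap k[X] K a) = _
      rw [one_pow, mul_one, ← hxa]
      by_cases h : x = a
      · rw [if_pos (i1.2 h), if_pos h]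
        show 3 * (algebraMap k[X] K a) ^ 2 + 2 * _ * algebraMap k[X] K a + _ = _
        have e4 : ((crv (algebraMap k[X] K a) (algebraMap k[X] K b)).baseChange
          K).toAffine.a₄ = algebraMap k[X] K a * algebraMap k[X] K b := rfl
        have e2 : ((crv (algebraMap k[X] K a) (algebraMap k[X] K b)).baseChange
          K).toAffine.a₂ = -(algebraMap k[X] K a + algebraMap k[X] K b) := rfl
        rw [e4, e2, map_mul, map_sub]
        ring
      · rw [if_neg (fun h' => h (i1.1 h')), if_neg h, map_sub]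
    rw [e]
    exact ord_par π hπ hc1 hq one_ne_zero

/-- The points of order at most two. -/
theorem tors_two' (h2 : (2 : k) ≠ 0) (a b : k[X]) :
    Set.Finite {P : Pt (crv (algebraMap k[X] K a) (algebraMap k[X] K b)) K |
      P + P = 0} ∧
    Set.ncard {P : Pt (crv (algebraMap k[X] K a) (algebraMap k[X] K b)) K |
      P + P = 0} ≤ 4 := by
  have h2K : (2 : K) ≠ 0 := by
    have h3 : algebraMap k[X] K (C 2) ≠ 0 := by simpa using h2
    rwa [C_ofNat, map_ofNat] at h3
  exact (root0 (algebraMap k[X] K a) (algebraMap k[X] K b)).card_two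
    (e₂ := algebraMap k[X] K a) (e₃ := algebraMap k[X] K b) h2K (by
    show -(algebraMap k[X] K a + algebraMap k[X] K b) = _
    ring) (by
    show algebraMap k[X] K a * algebraMap k[X] K b = _
    ring)

end gen

section parity

variable {k : Type} [Field k] {K : Type} [Field K] [Algebra k[X] K] [IsFractionRing k[X] K]

/-- The parity of the order of a polynomial. -/
noncomputable def pr (K : Type) [Field K] [Algebra k[X] K] [IsFractionRing k[X] K] (π : k[X])
    (hπ : Irreducible π) (g : k[X]) : ZMod 2 :=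
  ((ordK π hπ (algebraMap k[X] K g) : ℤ) : ZMod 2)

theorem pr_mul {π : k[X]} (hπ : Irreducible π) {f g : k[X]} (hf : f ≠ 0) (hg : g ≠ 0) :
    pr K π hπ (f * g) = pr K π hπ f + pr K π hπ g := by
  unfold pr
  rw [map_mul, ordK_mul _ _ _ _ (by simpa using hf) (by simpa using hg)]
  push_cast
  rfl

theorem pr_self {π : k[X]} (hπ : Irreducible π) : pr K π hπ π = 1 := by
  unfold pr
  rw [ordK_alg, ordAt_self]
  decide

theorem pr_cop {π : k[X]} (hπ : Irreducible π) {g : k[X]} (h : IsCoprime π g) :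
    pr K π hπ g = 0 := by
  unfold pr
  rw [ordK_alg, ordAt_of_not_dvd _ _ (fun hd => hπ.not_isUnit (h.isUnit_of_dvd' dvd_rfl hd)),
    Int.cast_zero]

end parity

section rank2

theorem indep2 {k K : Type} [Field k] [Field K] [Algebra k[X] K] [IsFractionRing k[X] K]
    (h2 : (2 : k) ≠ 0) {α β μ : k} (hα : α ≠ 0) (hβ : β ≠ 0) (hμ : μ ≠ 0)
    (hsq : ((α + β) ^ 2 - 1) * ((α - β) ^ 2 - 1) = μ ^ 2) {p q r : k[X]}
    (hp : p = C α * q + C β * r) (hco : IsCoprime q r)
    (hgood : ∀ f ∈ ({p + q, p - q, p + r, p - r, q + r, q - r} : Set k[X]), Irreducible f) :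
    ∃ P : Fin 2 → Pt (crv (algebraMap k[X] K (p ^ 2 - q ^ 2))
      (algebraMap k[X] K (p ^ 2 - r ^ 2))) K, LinearIndependent ℤ P := by
  have G1 := hgood (p + q) (by simp)
  have G2 := hgood (p - q) (by simp)
  have G3 := hgood (p + r) (by simp)
  have G4 := hgood (p - r) (by simp)
  have G5 := hgood (q + r) (by simp)
  have G6 := hgood (q - r) (by simp)
  have hsμ : (α + β) ^ 2 - 1 ≠ 0 := by
    intro h
    rw [h, zero_mul] at hsq
    exact pow_ne_zero 2 hμ hsq.symm
  have hdμ : (α - β) ^ 2 - 1 ≠ 0 := by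
    intro h
    rw [h, mul_zero] at hsq
    exact pow_ne_zero 2 hμ hsq.symm
  have hs1 : α + β + 1 ≠ 0 := by
    intro h
    apply hsμ
    linear_combination (α + β - 1) * h
  have hs2 : α + β - 1 ≠ 0 := by
    intro h
    apply hsμ
    linear_combination (α + β + 1) * h
  have hd1 : α - β + 1 ≠ 0 := by
    intro h
    apply hdμ
    linear_combination (α - β - 1) * h
  have hd2 : α - β - 1 ≠ 0 := by
    intro h
    apply hdμ
    linear_combination (α - β + 1) * h
  -- the six forms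
  have f1 : p + q = C (α + 1) * q + C β * r := by rw [hp, C_add, C_1]; ring
  have f2 : p - q = C (α - 1) * q + C β * r := by rw [hp, C_sub, C_1]; ring
  have f3 : p + r = C α * q + C (β + 1) * r := by rw [hp, C_add, C_1]; ring
  have f4 : p - r = C α * q + C (β - 1) * r := by rw [hp, C_sub, C_1]; ring
  have f5 : q + r = C (1 : k) * q + C (1 : k) * r := by rw [C_1]; ring
  have f6 : q - r = C (1 : k) * q + C (-1 : k) * r := by rw [C_neg, C_1]; ring
  have c12 : IsCoprime (p + q) (p - q) := coprime_forms hco (by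
    intro h; apply mul_ne_zero h2 hβ; linear_combination h) f1 f2
  have c14 : IsCoprime (p + q) (p - r) := coprime_forms hco (by
    intro h; apply hd1; linear_combination -h) f1 f4
  have c23 : IsCoprime (p - q) (p + r) := coprime_forms hco (by
    intro h; apply hd2; linear_combination h) f2 f3
  have c24 : IsCoprime (p - q) (p - r) := coprime_forms hco (by
    intro h; apply hs2; linear_combination -h) f2 f4
  have c34 : IsCoprime (p + r) (p - r) := coprime_forms hco (by
    intro h; apply mul_ne_zero h2 hα; linear_combination -h) f3 f4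
  have c15 : IsCoprime (p + q) (q + r) := coprime_forms hco (by
    intro h; apply hd1; linear_combination h) f1 f5
  have c16 : IsCoprime (p + q) (q - r) := coprime_forms hco (by
    intro h; apply hs1; linear_combination -h) f1 f6
  have c25 : IsCoprime (p - q) (q + r) := coprime_forms hco (by
    intro h; apply hd2; linear_combination h) f2 f5
  have c26 : IsCoprime (p - q) (q - r) := coprime_forms hco (by
    intro h; apply hs2; linear_combination -h) f2 f6
  have c56 : IsCoprime (q + r) (q - r) := coprime_forms hco (by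
    intro h; apply h2; linear_combination -h) f5 f6
  have ea : p ^ 2 - q ^ 2 = (p + q) * (p - q) := by ring
  have eb : p ^ 2 - r ^ 2 = (p + r) * (p - r) := by ring
  have ec : (p ^ 2 - q ^ 2) - (p ^ 2 - r ^ 2) = C (-1) * ((q + r) * (q - r)) := by
    rw [C_neg, C_1]; ring
  have hm1 : (-1 : k) ≠ 0 := neg_ne_zero.2 one_ne_zero
  have n1 := G1.ne_zero
  have n2 := G2.ne_zero
  have n3 := G3.ne_zero
  have n4 := G4.ne_zero
  have n5 := G5.ne_zero
  have n6 := G6.ne_zero
  have ha : p ^ 2 - q ^ 2 ≠ 0 := by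
    rw [ea]; exact mul_ne_zero n1 n2
  have hb : p ^ 2 - r ^ 2 ≠ 0 := by
    rw [eb]; exact mul_ne_zero n3 n4
  have hab : p ^ 2 - q ^ 2 ≠ p ^ 2 - r ^ 2 := by
    rw [← sub_ne_zero, ec]
    exact mul_ne_zero (C_ne_zero.2 hm1) (mul_ne_zero n5 n6)
  set a := p ^ 2 - q ^ 2 with haa
  set b := p ^ 2 - r ^ 2 with hbb
  -- the points
  obtain ⟨T0, hT0, hT0'⟩ := pt_par K h2 ha hb hab (x := 0) (y := 0) (by ring)
    (c0 := 1) (c1 := -1) one_ne_zero hm1 (p := (p + q) * (p - q) * ((p + r) * (p - r)))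
    (q := (p + q) * (p - q)) (mul_ne_zero (mul_ne_zero n1 n2) (mul_ne_zero n3 n4))
    (mul_ne_zero n1 n2) (by rw [if_pos rfl, C_1, one_mul, ea, eb])
    (by rw [if_neg (Ne.symm ha), ea, C_neg, C_1]; ring)
  obtain ⟨Ta, hTa, hTa'⟩ := pt_par K h2 ha hb hab (x := a) (y := 0) (by ring)
    (c0 := 1) (c1 := -1) one_ne_zero hm1 (p := (p + q) * (p - q))
    (q := (p + q) * (p - q) * ((q + r) * (q - r)))
    (mul_ne_zero n1 n2) (mul_ne_zero (mul_ne_zero n1 n2) (mul_ne_zero n5 n6))
    (by rw [if_neg ha, C_1, one_mul, ea]) (by rw [if_pos rfl, ec, ea]; ring)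
  have nR0 : (p + q) * (p + r) ≠ 0 := mul_ne_zero n1 n3
  have nR1 : (p + q) * (p + r) ≠ a := by
    intro h
    apply mul_ne_zero n1 n5
    rw [haa] at h
    linear_combination h
  obtain ⟨R, hR, hR'⟩ := pt_par K h2 ha hb hab (x := (p + q) * (p + r))
    (y := (p + q) * (p + r) * (q + r)) (by rw [haa, hbb]; ring)
    (c0 := 1) (c1 := 1) one_ne_zero one_ne_zero (p := (p + q) * (p + r))
    (q := (p + q) * (q + r)) nR0 (mul_ne_zero n1 n5)
    (by rw [if_neg nR0, C_1, one_mul]) (by rw [if_neg nR1, C_1, one_mul, haa]; ring)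
  set κ := (α + β - 1) / (α + β + 1) with hκ
  set κ1 := (β - α + 1) / (α + β + 1) with hκ1
  set κ2 := (β - α - 1) / (α + β + 1) with hκ2
  set ρ := μ / (α + β + 1) ^ 2 with hρ
  have hκ0 : κ ≠ 0 := div_ne_zero hs2 hs1
  have hκ10 : κ1 ≠ 0 := div_ne_zero (by
    intro h; apply hd2; linear_combination -h) hs1
  have e1 : C κ * C α - C α + 1 = (C κ1 : k[X]) := by
    rw [← C_mul, ← C_sub, ← C_1, ← C_add]
    congr 1
    rw [hκ, hκ1]; field_simp; ring
  have e2 : C κ * C β + C κ - C β = (-C κ1 : k[X]) := by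
    rw [← C_mul, ← C_add, ← C_sub, ← C_neg]
    congr 1
    rw [hκ, hκ1]; field_simp; ring
  have e3 : C κ * C α + C κ - C α = (C κ2 : k[X]) := by
    rw [← C_mul, ← C_add, ← C_sub]
    congr 1
    rw [hκ, hκ2]; field_simp; ring
  have e4 : C κ * C β - C β + 1 = (-C κ2 : k[X]) := by
    rw [← C_mul, ← C_sub, ← C_1, ← C_add, ← C_neg]
    congr 1
    rw [hκ, hκ2]; field_simp; ring
  have e5 : (C ρ : k[X]) ^ 2 = C κ * C κ1 * C κ2 := by
    rw [← C_mul, ← C_mul, ← C_pow]
    congr 1
    rw [hρ, hκ, hκ1, hκ2]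
    field_simp
    linear_combination -hsq
  have g1 : C κ * ((p + q) * (p + r)) - a = C κ1 * ((p + q) * (q - r)) := by
    rw [haa, hp]
    linear_combination (C α * q + C β * r + q) * (q * e1 + r * e2)
  have g2 : C κ * ((p + q) * (p + r)) - b = C κ2 * ((p + r) * (q - r)) := by
    rw [hbb, hp]
    linear_combination (C α * q + C β * r + r) * (q * e3 + r * e4)
  have nS0 : C κ * ((p + q) * (p + r)) ≠ 0 := mul_ne_zero (C_ne_zero.2 hκ0) nR0
  have nS1 : C κ * ((p + q) * (p + r)) ≠ a := by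
    rw [← sub_ne_zero, g1]
    exact mul_ne_zero (C_ne_zero.2 hκ10) (mul_ne_zero n1 n6)
  obtain ⟨S, hS, hS'⟩ := pt_par K h2 ha hb hab (x := C κ * ((p + q) * (p + r)))
    (y := C ρ * ((p + q) * (p + r) * (q - r))) (by
      rw [g1, g2]
      linear_combination ((p + q) * (p + r) * (q - r)) ^ 2 * e5)
    (c0 := κ) (c1 := κ1) hκ0 hκ10 (p := (p + q) * (p + r))
    (q := (p + q) * (q - r)) nR0 (mul_ne_zero n1 n6)
    (by rw [if_neg nS0]) (by rw [if_neg nS1, g1])
  -- the parities
  let φo : Fin 4 → (Pt (crv (algebraMap k[X] K a) (algebraMap k[X] K b)) K →+ ZMod 2) :=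
    ![parHom (root0 (algebraMap k[X] K a) (algebraMap k[X] K b)) (ordK (p - r) G4)
        (ordK_mul _ G4),
      parHom (root0 (algebraMap k[X] K a) (algebraMap k[X] K b)) (ordK (p - q) G2)
        (ordK_mul _ G2),
      parHom (rootA (algebraMap k[X] K a) (algebraMap k[X] K b)) (ordK (q + r) G5)
        (ordK_mul _ G5),
      parHom (rootA (algebraMap k[X] K a) (algebraMap k[X] K b)) (ordK (q - r) G6)
        (ordK_mul _ G6)]
  let φ : Pt (crv (algebraMap k[X] K a) (algebraMap k[X] K b)) K →+ (Fin 4 → ZMod 2) :=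
    AddMonoidHom.pi φo
  have v0 : ∀ P, φ P 0 = ((ordK (p - r) G4 (del _ 0 P) : ℤ) : ZMod 2) := fun P => rfl
  have v1 : ∀ P, φ P 1 = ((ordK (p - q) G2 (del _ 0 P) : ℤ) : ZMod 2) := fun P => rfl
  have v2 : ∀ P, φ P 2 = ((ordK (q + r) G5 (del _ (algebraMap k[X] K a) P) : ℤ) : ZMod 2) :=
    fun P => rfl
  have v3 : ∀ P, φ P 3 = ((ordK (q - r) G6 (del _ (algebraMap k[X] K a) P) : ℤ) : ZMod 2) :=
    fun P => rfl
  have z11 : (1 : ZMod 2) + 1 = 0 := by decide
  have w0 : φ T0 0 = 1 := by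
    rw [v0, hT0]
    show pr K (p - r) G4 _ = 1
    rw [pr_mul G4 (mul_ne_zero n1 n2) (mul_ne_zero n3 n4), pr_mul G4 n1 n2, pr_mul G4 n3 n4,
      pr_cop G4 c14.symm, pr_cop G4 c24.symm, pr_cop G4 c34.symm, pr_self]
    decide
  have w1 : φ T0 1 = 1 := by
    rw [v1, hT0]
    show pr K (p - q) G2 _ = 1
    rw [pr_mul G2 (mul_ne_zero n1 n2) (mul_ne_zero n3 n4), pr_mul G2 n1 n2, pr_mul G2 n3 n4,
      pr_cop G2 c12.symm, pr_self, pr_cop G2 c23, pr_cop G2 c24]
    decide
  have w2 : φ T0 2 = 0 := by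
    rw [v2, hT0']
    show pr K (q + r) G5 _ = 0
    rw [pr_mul G5 n1 n2, pr_cop G5 c15.symm, pr_cop G5 c25.symm]
    decide
  have w3 : φ T0 3 = 0 := by
    rw [v3, hT0']
    show pr K (q - r) G6 _ = 0
    rw [pr_mul G6 n1 n2, pr_cop G6 c16.symm, pr_cop G6 c26.symm]
    decide
  have x0 : φ Ta 0 = 0 := by
    rw [v0, hTa]
    show pr K (p - r) G4 _ = 0
    rw [pr_mul G4 n1 n2, pr_cop G4 c14.symm, pr_cop G4 c24.symm]
    decide
  have x1 : φ Ta 1 = 1 := by
    rw [v1, hTa]
    show pr K (p - q) G2 _ = 1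
    rw [pr_mul G2 n1 n2, pr_cop G2 c12.symm, pr_self]
    decide
  have x2 : φ Ta 2 = 1 := by
    rw [v2, hTa']
    show pr K (q + r) G5 _ = 1
    rw [pr_mul G5 (mul_ne_zero n1 n2) (mul_ne_zero n5 n6), pr_mul G5 n1 n2, pr_mul G5 n5 n6,
      pr_cop G5 c15.symm, pr_cop G5 c25.symm, pr_cop G5 c56, pr_self]
    decide
  have x3 : φ Ta 3 = 1 := by
    rw [v3, hTa']
    show pr K (q - r) G6 _ = 1
    rw [pr_mul G6 (mul_ne_zero n1 n2) (mul_ne_zero n5 n6), pr_mul G6 n1 n2, pr_mul G6 n5 n6,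
      pr_cop G6 c16.symm, pr_cop G6 c26.symm, pr_cop G6 c56.symm, pr_self]
    decide
  have y0 : φ R 0 = 0 := by
    rw [v0, hR]
    show pr K (p - r) G4 _ = 0
    rw [pr_mul G4 n1 n3, pr_cop G4 c14.symm, pr_cop G4 c34.symm]
    decide
  have y1 : φ R 1 = 0 := by
    rw [v1, hR]
    show pr K (p - q) G2 _ = 0
    rw [pr_mul G2 n1 n3, pr_cop G2 c12.symm, pr_cop G2 c23]
    decide
  have y2 : φ R 2 = 1 := by
    rw [v2, hR']
    show pr K (q + r) G5 _ = 1
    rw [pr_mul G5 n1 n5, pr_cop G5 c15.symm, pr_self]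
    decide
  have y3 : φ R 3 = 0 := by
    rw [v3, hR']
    show pr K (q - r) G6 _ = 0
    rw [pr_mul G6 n1 n5, pr_cop G6 c16.symm, pr_cop G6 c56.symm]
    decide
  have s0 : φ S 0 = 0 := by
    rw [v0, hS]
    show pr K (p - r) G4 _ = 0
    rw [pr_mul G4 n1 n3, pr_cop G4 c14.symm, pr_cop G4 c34.symm]
    decide
  have s1 : φ S 1 = 0 := by
    rw [v1, hS]
    show pr K (p - q) G2 _ = 0
    rw [pr_mul G2 n1 n3, pr_cop G2 c12.symm, pr_cop G2 c23]
    decide
  have s2 : φ S 2 = 0 := by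
    rw [v2, hS']
    show pr K (q + r) G5 _ = 0
    rw [pr_mul G5 n1 n6, pr_cop G5 c15.symm, pr_cop G5 c56]
    decide
  have s3 : φ S 3 = 1 := by
    rw [v3, hS']
    show pr K (q - r) G6 _ = 1
    rw [pr_mul G6 n1 n6, pr_cop G6 c16.symm, pr_self]
    decide
  have hsurj : Function.Surjective φ := by
    refine surjective_of_single φ ![T0 + (Ta + (R + S)), Ta + (R + S), R, S] ?_
    intro i j
    fin_cases i <;> fin_cases j
    · show φ (T0 + (Ta + (R + S))) 0 = 1
      rw [map_add, map_add, map_add]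
      show φ T0 0 + (φ Ta 0 + (φ R 0 + φ S 0)) = 1
      rw [w0, x0, y0, s0]; decide
    · show φ (T0 + (Ta + (R + S))) 1 = 0
      rw [map_add, map_add, map_add]
      show φ T0 1 + (φ Ta 1 + (φ R 1 + φ S 1)) = 0
      rw [w1, x1, y1, s1]; decide
    · show φ (T0 + (Ta + (R + S))) 2 = 0
      rw [map_add, map_add, map_add]
      show φ T0 2 + (φ Ta 2 + (φ R 2 + φ S 2)) = 0
      rw [w2, x2, y2, s2]; decide
    · show φ (T0 + (Ta + (R + S))) 3 = 0
      rw [map_add, map_add, map_add]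
      show φ T0 3 + (φ Ta 3 + (φ R 3 + φ S 3)) = 0
      rw [w3, x3, y3, s3]; decide
    · show φ (Ta + (R + S)) 0 = 0
      rw [map_add, map_add]
      show (φ Ta 0 + (φ R 0 + φ S 0)) = 0
      rw [x0, y0, s0]; decide
    · show φ (Ta + (R + S)) 1 = 1
      rw [map_add, map_add]
      show (φ Ta 1 + (φ R 1 + φ S 1)) = 1
      rw [x1, y1, s1]; decide
    · show φ (Ta + (R + S)) 2 = 0
      rw [map_add, map_add]
      show (φ Ta 2 + (φ R 2 + φ S 2)) = 0
      rw [x2, y2, s2]; decide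
    · show φ (Ta + (R + S)) 3 = 0
      rw [map_add, map_add]
      show (φ Ta 3 + (φ R 3 + φ S 3)) = 0
      rw [x3, y3, s3]; decide
    · exact y0
    · exact y1
    · exact y2
    · exact y3
    · exact s0
    · exact s1
    · exact s2
    · exact s3
  obtain ⟨hf1, hf2⟩ := tors_two' K h2 a b
  have hfin := exists_independent φ hsurj hf1 hf2
  have hcc : Fintype.card (Fin 4) - 2 = 2 := by rw [Fintype.card_fin]
  rw [hcc] at hfin
  exact hfin

end rank2

end Pool.Agent.X243.Tate
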