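import Pool.Agent.TH115.ID.Gener
import Pool.Agent.TH115.SD.Fam2
import Pool.Agent.X243.Tate.Ind2

/-!
Elliptic surfaces `y ^ 2 = x (x ^ 2 + (w ^ 2 - p - q) x + p q)`: a section of order two and a section of
infinite order.
-/

set_option autoImplicit false
set_option linter.all false

open Polynomial IsDedekindDomain WeierstrassCurve WeierstrassCurve.Affine
open scoped Classical

namespace Pool.Agent.X243.Tate

open Pool.Agent.TH115.GD Pool.Agent.W309.RK Pool.Agent.TH958.T2

section nn

variable {k : Type} [Field k]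

theorem nn_step {π : k[X]} (hπ : Irreducible π) (hodd : Odd π.natDegree) {D : k} {U V : k[X]}
    (hD : V = 0 ∨ ¬ IsSquare D) (h : π ∣ U ^ 2 - C D * V ^ 2) : π ∣ U ∧ π ∣ V := by
  rcases hD with rfl | hD
  · rw [zero_pow two_ne_zero, mul_zero, sub_zero] at h
    exact ⟨hπ.prime.dvd_of_dvd_pow h, dvd_zero _⟩
  · have hV : π ∣ V := by
      by_contra hV
      have hco : IsCoprime π V := hπ.coprime_iff_not_dvd.2 hV
      obtain ⟨s, t, hst⟩ := hco
      apply hD
      refine const_sq hπ hodd ⟨U * t, ?_⟩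
      have e : (U * t) ^ 2 - C D = t ^ 2 * (U ^ 2 - C D * V ^ 2) -
          C D * ((1 + t * V) * (s * π)) := by
        linear_combination C D * (1 + t * V) * hst
      rw [e]
      exact dvd_sub (h.mul_left _) ((dvd_mul_left π s).mul_left _ |>.mul_left _)
    refine ⟨?_, hV⟩
    have h1 : π ∣ U ^ 2 := by
      have h3 : π ∣ (U ^ 2 - C D * V ^ 2) + C D * V ^ 2 :=
        dvd_add h ((dvd_pow hV two_ne_zero).mul_left _)
      rwa [sub_add_cancel] at h3
    exact hπ.prime.dvd_of_dvd_pow h1

theorem nn_even {π : k[X]} (hπ : Irreducible π) (hodd : Odd π.natDegree) {D : k} (m : ℕ) :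
    ∀ {U V : k[X]}, (V = 0 ∨ ¬ IsSquare D) → π ^ (2 * m + 1) ∣ U ^ 2 - C D * V ^ 2 →
      π ^ (2 * m + 2) ∣ U ^ 2 - C D * V ^ 2 := by
  induction m with
  | zero =>
    intro U V hD h
    rw [mul_zero, zero_add, pow_one] at h
    obtain ⟨⟨u, rfl⟩, ⟨v, rfl⟩⟩ := nn_step hπ hodd hD h
    exact ⟨u ^ 2 - C D * v ^ 2, by ring⟩
  | succ m ih =>
    intro U V hD h
    obtain ⟨⟨u, rfl⟩, ⟨v, rfl⟩⟩ := nn_step hπ hodd hD
      ((dvd_pow_self π (by omega)).trans h)
    have hD' : v = 0 ∨ ¬ IsSquare D := by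
      rcases hD with h0 | h0
      · left
        rcases mul_eq_zero.1 h0 with h1 | h1
        · exact absurd h1 hπ.ne_zero
        · exact h1
      · exact Or.inr h0
    have e : (π * u) ^ 2 - C D * (π * v) ^ 2 = π ^ 2 * (u ^ 2 - C D * v ^ 2) := by ring
    rw [e] at h ⊢
    have e1 : π ^ (2 * (m + 1) + 1) = π ^ 2 * π ^ (2 * m + 1) := by ring
    have e2 : π ^ (2 * (m + 1) + 2) = π ^ 2 * π ^ (2 * m + 2) := by ring
    rw [e1] at h
    rw [e2]
    exact mul_dvd_mul_left _ (ih hD' ((mul_dvd_mul_iff_left (pow_ne_zero 2 hπ.ne_zero)).1 h))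

/-- Polynomials with an irreducible factor of odd degree and odd multiplicity are not constants times
norms. -/
theorem notNorm_of_factor {p : k[X]} (h : HasOddFactor p) : NotNorm p := by
  obtain ⟨π, m, hπ, hodd, hd, hnd⟩ := h
  intro u D U V e
  have hp : p ≠ 0 := fun h0 => hnd (h0 ▸ dvd_zero _)
  have hu : u ≠ 0 := by
    rintro rfl
    rw [C_0, zero_mul] at e
    exact hp e
  have hCu : IsUnit (C u : k[X]) := isUnit_C.2 (isUnit_iff_ne_zero.2 hu)
  rw [e] at hd hnd
  by_contra hcon
  have hD : V = 0 ∨ ¬ IsSquare D := by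
    by_cases hV : V = 0
    · exact Or.inl hV
    · exact Or.inr fun hs => hcon ⟨hV, hs⟩
  exact hnd ((nn_even hπ hodd m hD ((hCu.dvd_mul_left).1 hd)).mul_left _)

end nn

section pts

variable {K : Type} [Field K]

theorem nonsT {a b : K} (h2 : (2 : K) ≠ 0) (hb : b ≠ 0) (hd : a ^ 2 - 4 * b ≠ 0) {x y : K}
    (h : y ^ 2 = x * (x ^ 2 + a * x + b)) :
    ((crvT a b).baseChange K).toAffine.Nonsingular x y := by
  have e1 : ((crvT a b).baseChange K).toAffine.a₁ = 0 := map_zero _
  have e2 : ((crvT a b).baseChange K).toAffine.a₂ = a := rfl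
  have e3 : ((crvT a b).baseChange K).toAffine.a₃ = 0 := map_zero _
  have e4 : ((crvT a b).baseChange K).toAffine.a₄ = b := rfl
  have e6 : ((crvT a b).baseChange K).toAffine.a₆ = 0 := map_zero _
  rw [Affine.nonsingular_iff, Affine.equation_iff, e1, e2, e3, e4, e6]
  refine ⟨by rw [zero_mul, zero_mul, add_zero, add_zero, add_zero, h]; ring, ?_⟩
  by_contra hcon
  push Not at hcon
  obtain ⟨h1, h3⟩ := hcon
  rw [zero_mul] at h1
  have hy : y = 0 := by
    have : 2 * y = 0 := by linear_combination h3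
    rcases mul_eq_zero.1 this with h5 | h5
    · exact absurd h5 h2
    · exact h5
  rw [hy] at h
  have h5 : x * (x ^ 2 + a * x + b) = 0 := by rw [← h]; ring
  rcases mul_eq_zero.1 h5 with h6 | h6
  · rw [h6] at h1
    apply hb
    linear_combination -h1
  · have h7 : x * (2 * x + a) = 0 := by linear_combination -h1 - h6
    rcases mul_eq_zero.1 h7 with h8 | h8
    · rw [h8] at h6
      apply hb
      linear_combination h6
    · apply hd
      linear_combination (a - 2 * x) * h8 - 4 * h6 + 4 * x * h8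

end pts

section fam

variable {k k' K F : Type} [Field k] [Field k'] [Algebra k k'] [Field K] [Algebra k[X] K]
    [Field F] [Algebra k'[X] F] [IsFractionRing k'[X] F] [Algebra K F]

theorem tate_one (hT : IsTower k k' K F) (h2 : (2 : k) ≠ 0) {p q w : k[X]}
    (hp : Irreducible p) (hq : Irreducible q) (sp : p.Separable) (sq : q.Separable)
    (hd : Irreducible ((w ^ 2 - p - q) ^ 2 - 4 * (p * q)))
    (sd : ((w ^ 2 - p - q) ^ 2 - 4 * (p * q)).Separable)
    (hNb : NotNorm (p * q)) (hNd : NotNorm ((w ^ 2 - p - q) ^ 2 - 4 * (p * q))) :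
    TateAtTwo (F := F) k' (crvT (algebraMap k[X] K (w ^ 2 - p - q)) (algebraMap k[X] K (p * q))) := by
  haveI := hT.fracK
  have hb0 : p * q ≠ 0 := mul_ne_zero hp.ne_zero hq.ne_zero
  have inj := IsFractionRing.injective k[X] K
  have h2K : (2 : K) ≠ 0 := tt h2
  have hbK : algebraMap k[X] K (p * q) ≠ 0 := by
    rw [Ne, map_eq_zero_iff _ inj]; exact hb0
  have hpK : algebraMap k[X] K p ≠ 0 := by
    rw [Ne, map_eq_zero_iff _ inj]; exact hp.ne_zero
  have hqK : algebraMap k[X] K q ≠ 0 := by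
    rw [Ne, map_eq_zero_iff _ inj]; exact hq.ne_zero
  have hdK : (algebraMap k[X] K (w ^ 2 - p - q)) ^ 2 - 4 * algebraMap k[X] K (p * q) ≠ 0 := by
    have : (algebraMap k[X] K (w ^ 2 - p - q)) ^ 2 - 4 * algebraMap k[X] K (p * q) =
        algebraMap k[X] K ((w ^ 2 - p - q) ^ 2 - 4 * (p * q)) := by
      rw [map_sub (algebraMap k[X] K) ((w ^ 2 - p - q) ^ 2), map_mul _ 4, map_pow _ (w ^ 2 - p - q),
        map_ofNat]
    rw [this, Ne, map_eq_zero_iff _ inj]
    exact hd.ne_zero
  refine mainT hT h2 hb0 hd.ne_zero ?_ hNb hNd ?_ (enough_pow hT h2 one_ne_zero hd (n := 0)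
    (by rw [C_1, one_mul, mul_zero, zero_add, pow_one]))
  · intro π hπ h
    rcases hπ.prime.dvd_or_dvd h with h | h
    · rcases hπ.prime.dvd_or_dvd h with h | h
      · exact sp.of_dvd h
      · exact sq.of_dvd h
    · exact sd.of_dvd h
  · intro A hA hs hdv
    obtain ⟨c, x, y, hc, rfl⟩ := dvd_irr2 hp hq (one_ne_zero (α := k)) (A := A)
      (by rw [C_1, one_mul]; exact hdv)
    have rep : ∀ (f : k[X]) (e : K), algebraMap k[X] K f = e → 
        Represents K F (C c * f) e := by
      rintro f e rfl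
      exact emb_C_mul hT h2 hc f
    have hxy : (p ^ (x : ℕ) * q ^ (y : ℕ) = 1) ∨ (p ^ (x : ℕ) * q ^ (y : ℕ) = p) ∨
        (p ^ (x : ℕ) * q ^ (y : ℕ) = q) ∨ (p ^ (x : ℕ) * q ^ (y : ℕ) = p * q) := by
      fin_cases x <;> fin_cases y <;> simp
    rcases hxy with h | h | h | h
    · rw [h]
      refine ⟨0, rep _ _ ?_⟩
      rw [map_one]
      rfl
    · rw [h]
      refine ⟨Point.some (algebraMap k[X] K p) (algebraMap k[X] K (p * w))
        (nonsT h2K hbK hdK ?_), rep _ _ ?_⟩
      · simp only [map_mul, map_sub, map_pow]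
        ring
      · simp only [dT, hpK, if_false]
    · rw [h]
      refine ⟨Point.some (algebraMap k[X] K q) (algebraMap k[X] K (q * w))
        (nonsT h2K hbK hdK ?_), rep _ _ ?_⟩
      · simp only [map_mul, map_sub, map_pow]
        ring
      · simp only [dT, hqK, if_false]
    · rw [h]
      refine ⟨Point.some 0 0 (nonsT h2K hbK hdK (by ring)), rep _ _ ?_⟩
      simp only [dT, if_true]

end fam

section order

theorem rootT {K : Type} [Field K] (a b : K) :
    HasRoot ((crvT a b).baseChange K).toAffine 0 where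
  a1 := map_zero _
  a3 := map_zero _
  root := by
    have : ((crvT a b).baseChange K).toAffine.a₆ = 0 := map_zero _
    rw [this]
    ring

/-- The points of order two. -/
theorem two_torT {K : Type} [Field K] {a b : K} (h2 : (2 : K) ≠ 0)
    (hd : ¬ IsSquare (a ^ 2 - 4 * b)) {R : Pt (crvT a b) K} (hR : R + R = 0) :
    R = 0 ∨ ∃ h, R = Point.some 0 0 h := by
  rcases R with _ | ⟨x, y, hxy⟩
  · exact Or.inl rfl
  · right
    have hy : y = 0 := by
      have h1 : (Point.some x y hxy : Pt (crvT a b) K) = -Point.some x y hxy :=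
        eq_neg_of_add_eq_zero_left hR
      rw [Point.neg_some, Point.some.injEq] at h1
      have h3 := h1.2
      rw [(rootT a b).negY] at h3
      have : 2 * y = 0 := by linear_combination h3
      rcases mul_eq_zero.1 this with h5 | h5
      · exact absurd h5 h2
      · exact h5
    subst hy
    have he := (rootT a b).equation hxy.1
    have e2 : ((crvT a b).baseChange K).toAffine.a₂ = a := rfl
    have e4 : ((crvT a b).baseChange K).toAffine.a₄ = b := rfl
    rw [e2, e4] at he
    have h5 : x * (x ^ 2 + a * x + b) = 0 := by linear_combination -he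
    rcases mul_eq_zero.1 h5 with h6 | h6
    · subst h6
      exact ⟨hxy, rfl⟩
    · exact absurd ⟨2 * x + a, by linear_combination -4 * h6⟩ hd

variable {k K : Type} [Field k] [Field K] [Algebra k[X] K] [IsFractionRing k[X] K]

theorem not_sq_irr {d : k[X]} (hd : Irreducible d) : ¬ IsSquare (algebraMap k[X] K d) := by
  rintro ⟨z, hz⟩
  have hz0 : z ≠ 0 := by
    rintro rfl
    rw [mul_zero, map_eq_zero_iff _ (IsFractionRing.injective k[X] K)] at hz
    exact hd.ne_zero hz
  have h1 : ordK d hd (algebraMap k[X] K d) = ordK d hd z + ordK d hd z := by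
    rw [hz, ordK_mul _ _ _ _ hz0 hz0]
  rw [ordK_alg, ordAt_self] at h1
  omega

/-- The point `(p, p w)` has infinite order. -/
theorem inf_order (h2 : (2 : k) ≠ 0) {p q w : k[X]} (hp : Irreducible p) (hq : Irreducible q)
    (hco : IsCoprime p q) (hd : Irreducible ((w ^ 2 - p - q) ^ 2 - 4 * (p * q))) :
    ∃ P : Pt (crvT (algebraMap k[X] K (w ^ 2 - p - q)) (algebraMap k[X] K (p * q))) K,
      ∀ n : ℕ, 0 < n → n • P ≠ 0 := by
  have hb0 : p * q ≠ 0 := mul_ne_zero hp.ne_zero hq.ne_zero
  have inj := IsFractionRing.injective k[X] K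
  have h2K : (2 : K) ≠ 0 := tt h2
  have hbK : algebraMap k[X] K (p * q) ≠ 0 := by
    rw [Ne, map_eq_zero_iff _ inj]; exact hb0
  have hpK : algebraMap k[X] K p ≠ 0 := by
    rw [Ne, map_eq_zero_iff _ inj]; exact hp.ne_zero
  have ed : (algebraMap k[X] K (w ^ 2 - p - q)) ^ 2 - 4 * algebraMap k[X] K (p * q) =
        algebraMap k[X] K ((w ^ 2 - p - q) ^ 2 - 4 * (p * q)) := by
    rw [map_sub (algebraMap k[X] K) ((w ^ 2 - p - q) ^ 2), map_mul _ 4, map_pow _ (w ^ 2 - p - q),
      map_ofNat]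
  have hds : ¬ IsSquare ((algebraMap k[X] K (w ^ 2 - p - q)) ^ 2 -
      4 * algebraMap k[X] K (p * q)) := by
    rw [ed]
    exact not_sq_irr hd
  have hdK : (algebraMap k[X] K (w ^ 2 - p - q)) ^ 2 - 4 * algebraMap k[X] K (p * q) ≠ 0 := by
    intro h
    rw [h] at hds
    exact hds ⟨0, by ring⟩
  set A := algebraMap k[X] K (w ^ 2 - p - q) with hA
  set B := algebraMap k[X] K (p * q) with hB
  let ψ : Pt (crvT A B) K →+ ZMod 2 := parHom (rootT A B) (ordK q hq) (ordK_mul _ hq)
  have hn : ((crvT A B).baseChange K).toAffine.Nonsingular (algebraMap k[X] K p)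
      (algebraMap k[X] K (p * w)) := nonsT h2K hbK hdK (by
    rw [hA, hB]
    simp only [map_mul, map_sub, map_pow]
    ring)
  have vP : ψ (Point.some _ _ hn) = 0 := by
    show ((ordK q hq (del _ 0 (Point.some _ _ hn)) : ℤ) : ZMod 2) = 0
    have e : del ((crvT A B).baseChange K).toAffine 0 (Point.some _ _ hn) =
        algebraMap k[X] K p := by
      show (if _ then _ else _) = _
      rw [if_neg hpK, sub_zero]
    rw [e]
    exact pr_cop hq hco.symm
  have vT : ∀ h : ((crvT A B).baseChange K).toAffine.Nonsingular 0 0,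
      ψ (Point.some 0 0 h) = 1 := by
    intro h
    show ((ordK q hq (del _ 0 (Point.some 0 0 h)) : ℤ) : ZMod 2) = 1
    have e : del ((crvT A B).baseChange K).toAffine 0 (Point.some 0 0 h) =
        algebraMap k[X] K (p * q) := by
      show (if (0 : K) = 0 then Pool.Agent.W309.RK.dd _ 0 else _) = _
      rw [if_pos rfl]
      show 3 * (0 : K) ^ 2 + 2 * _ * 0 + _ = _
      have e4 : ((crvT A B).baseChange K).toAffine.a₄ = B := rfl
      rw [e4, ← hB]
      ring
    rw [e]
    show pr K q hq (p * q) = 1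
    rw [pr_mul hq hp.ne_zero hq.ne_zero, pr_cop hq hco.symm, pr_self]
    decide
  let ψp : Pt (crvT A B) K →+ ZMod 2 := parHom (rootT A B) (ordK p hp) (ordK_mul _ hp)
  have vPp : ψp (Point.some _ _ hn) = 1 := by
    show ((ordK p hp (del _ 0 (Point.some _ _ hn)) : ℤ) : ZMod 2) = 1
    have e : del ((crvT A B).baseChange K).toAffine 0 (Point.some _ _ hn) =
        algebraMap k[X] K p := by
      show (if _ then _ else _) = _
      rw [if_neg hpK, sub_zero]
    rw [e]
    exact pr_self hp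
  refine ⟨Point.some _ _ hn, ?_⟩
  set P : Pt (crvT A B) K := Point.some _ _ hn with hP
  intro n hn0 hnP
  have hfin : IsOfFinAddOrder P := isOfFinAddOrder_iff_nsmul_eq_zero.2 ⟨n, hn0, hnP⟩
  have ho := hfin.addOrderOf_pos
  have ho' := addOrderOf_nsmul_eq_zero P
  have hev : Even (addOrderOf P) := by
    have h1 := congrArg ψp ho'
    rw [map_nsmul, map_zero, vPp, nsmul_one] at h1
    exact (ZMod.natCast_eq_zero_iff_even).1 h1
  obtain ⟨m, hm⟩ := hev
  have hm0 : 0 < m := by omega
  have h3 : m • P + m • P = 0 := by rw [← add_nsmul, ← hm, ho']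
  rcases two_torT h2K hds h3 with h5 | ⟨h, h5⟩
  · have := addOrderOf_le_of_nsmul_eq_zero hm0 h5
    omega
  · have h6 := congrArg ψ h5
    rw [vT, map_nsmul, vP, smul_zero] at h6
    exact zero_ne_one h6

end order

end Pool.Agent.X243.Tate
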