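import Pool.Agent.X243.Tate.Hundred
import Pool.Agent.X243.Tate.Cnt3
import Pool.Agent.X243.Tate.Norm2
import Pool.Agent.X243.Tate.OneTor

/-!
The elliptic surfaces `y ^ 2 = x (x ^ 2 + (w ^ 2 - p - q) x + p q)`: the conditions at a prime.
-/

set_option autoImplicit false
set_option linter.all false

open Polynomial IsDedekindDomain NumberField
open scoped Classical

namespace Pool.Agent.X243.Tate

open Pool.Agent.Y160.T3 Pool.Agent.TH115.GD

section ev

/-- The index set of the coefficients. -/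
abbrev Ix (n : ℕ) : Type := (Fin (2 * n + 1) ⊕ Fin (2 * n + 1)) ⊕ Fin (n + 1)

/-- Irreducible of degree `N`. -/
def I1 {R : Type} [CommRing R] (N : ℕ) (f : R[X]) : Prop := Irreducible f ∧ f.natDegree = N

/-- Of degree `N`, with an irreducible factor of degree `N - 1`. -/
def I2 {R : Type} [CommRing R] (N : ℕ) (f : R[X]) : Prop :=
  f.natDegree = N ∧ ∃ π : R[X], Irreducible π ∧ π.natDegree + 1 = N ∧ π ∣ f

/-- The five events. -/
def H0 (n : ℕ) (R : Type) [CommRing R] : Set (Ix n → R) := {z | I1 (2 * n) (tP z) ∧ I2 (2 * n) (tQ z)}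
def H1 (n : ℕ) (R : Type) [CommRing R] : Set (Ix n → R) := {z | I1 (2 * n) (tQ z)}
def H2 (n : ℕ) (R : Type) [CommRing R] : Set (Ix n → R) := {z | I2 (2 * n) (tP z)}
def H3 (n : ℕ) (R : Type) [CommRing R] : Set (Ix n → R) := {z | I1 (4 * n) (tD z)}
def H4 (n : ℕ) (R : Type) [CommRing R] : Set (Ix n → R) := {z | I2 (4 * n) (tD z)}

def Hev (n : ℕ) (s : Fin 5) (R : Type) [CommRing R] : Set (Ix n → R) :=
  match s with
  | 0 => H0 n R
  | 1 => H1 n R
  | 2 => H2 n R
  | 3 => H3 n R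
  | 4 => H4 n R

theorem natDegree_tD {R : Type} [CommRing R] {n : ℕ} (z : Ix n → R) : (tD z).natDegree ≤ 4 * n := by
  have hP : (tP z).natDegree ≤ 2 * n := bF_nd _
  have hQ : (tQ z).natDegree ≤ 2 * n := bF_nd _
  have hW : (tW z).natDegree ≤ n := bF_nd _
  rw [tD]
  refine (natDegree_sub_le _ _).trans (max_le (natDegree_pow_le.trans ?_) ?_)
  · have h1 : (tW z ^ 2 - tP z - tQ z).natDegree ≤ 2 * n := by
      refine (natDegree_sub_le _ _).trans (max_le ((natDegree_sub_le _ _).trans (max_le ?_ hP)) hQ)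
      exact natDegree_pow_le.trans (by omega)
    omega
  · have e4 : (4 : R[X]) = C 4 := rfl
    rw [e4]
    refine (natDegree_C_mul_le _ _).trans (natDegree_mul_le.trans ?_)
    omega

variable {F : Type} [Field F] [Finite F]

theorem ncard_prod3 {n : ℕ} (S T : Set (Fin (2 * n + 1) → F)) :
    ({z : Ix n → F | (fun j => z (Sum.inl (Sum.inl j))) ∈ S ∧
      (fun j => z (Sum.inl (Sum.inr j))) ∈ T}).ncard = S.ncard * T.ncard * Nat.card F ^ (n + 1) := by
  let e : (Ix n → F) ≃ ((Fin (2 * n + 1) → F) × (Fin (2 * n + 1) → F)) × (Fin (n + 1) → F) :=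
    (Equiv.sumArrowEquivProdArrow _ _ _).trans
      (Equiv.prodCongr (Equiv.sumArrowEquivProdArrow _ _ _) (Equiv.refl _))
  have h1 : {z : Ix n → F | (fun j => z (Sum.inl (Sum.inl j))) ∈ S ∧
      (fun j => z (Sum.inl (Sum.inr j))) ∈ T} = e ⁻¹' ((S ×ˢ T) ×ˢ Set.univ) := by
    ext z
    constructor
    · rintro ⟨h1, h2⟩
      exact ⟨⟨h1, h2⟩, trivial⟩
    · rintro ⟨⟨h1, h2⟩, -⟩
      exact ⟨h1, h2⟩
  rw [h1, Set.ncard_preimage_of_injective_subset_range (Equiv.injective _) (by simp),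
    Set.ncard_prod, Set.ncard_prod, Set.ncard_univ, Nat.card_fun,
    Nat.card_eq_fintype_card (α := Fin (n + 1)), Fintype.card_fin]

theorem E1_scale {N : ℕ} {y : Fin (N + 1) → F} (hy : y ∈ E1 F N) {c : F} (hc : c ≠ 0) :
    (fun j => c * y j) ∈ E1 F N := by
  haveI := Fintype.ofFinite F
  obtain ⟨h1, h2⟩ := hy
  have e : bF (fun j => c * y j) = C c * bF y := bF_smul c y
  refine ⟨?_, ?_⟩
  · rw [e]
    exact (irreducible_isUnit_mul (isUnit_C.2 (isUnit_iff_ne_zero.2 hc))).2 h1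
  · rw [e, natDegree_C_mul hc, h2]

theorem E2_scale {N : ℕ} {y : Fin (N + 1) → F} (hy : y ∈ E2 F N) {c : F} (hc : c ≠ 0) :
    (fun j => c * y j) ∈ E2 F N := by
  haveI := Fintype.ofFinite F
  obtain ⟨h1, π, h2, h3, h4⟩ := hy
  have e : bF (fun j => c * y j) = C c * bF y := bF_smul c y
  refine ⟨?_, π, h2, h3, ?_⟩
  · rw [e, natDegree_C_mul hc, h1]
  · rw [e]
    exact h4.mul_left _

theorem Hev_card {n : ℕ} (hn : 2 ≤ n) (hq : 8 * n + 2 ≤ Nat.card F) (h2 : (2 : F) ≠ 0) (s : Fin 5) :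
    Nat.card F ^ (5 * n + 3) ≤ (64 * n * (8 * n) ^ n) * (Hev n s F).ncard := by
  haveI := Fintype.ofFinite F
  obtain ⟨q, hqd⟩ : ∃ q, q = Nat.card F := ⟨_, rfl⟩
  have hqF : q = Fintype.card F := by rw [hqd, Nat.card_eq_fintype_card]
  have a1 : q ^ (2 * n + 1) ≤ 8 * n * (E1 F (2 * n)).ncard := by
    have := T1_card (F := F) (N := 2 * n) (by omega) (by rw [← hqF, hqd]; omega)
    rw [← hqF] at this
    calc q ^ (2 * n + 1) ≤ 4 * (2 * n) * (E1 F (2 * n)).ncard := this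
      _ = 8 * n * (E1 F (2 * n)).ncard := by ring
  have a2 : q ^ (2 * n + 1) ≤ 8 * n * (E2 F (2 * n)).ncard := by
    obtain ⟨M, hM⟩ : ∃ M, 2 * n = M + 1 := ⟨2 * n - 1, by omega⟩
    have := T2_card (F := F) (M := M) (by omega) (by rw [← hqF, hqd]; omega)
    rw [← hqF] at this
    have e1 : (E2 F (2 * n)).ncard = (T2 F (M + 1)).ncard := by
      rw [hM]
      rfl
    rw [e1]
    calc q ^ (2 * n + 1) = q ^ (M + 2) := by rw [hM]
      _ ≤ 4 * (M + 1) * (T2 F (M + 1)).ncard := this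
      _ = 8 * n * (T2 F (M + 1)).ncard := by rw [← hM]; ring
  have b1 : q ^ (4 * n + 1) ≤ 16 * n * (E1 F (4 * n)).ncard := by
    have := T1_card (F := F) (N := 4 * n) (by omega) (by rw [← hqF, hqd]; omega)
    rw [← hqF] at this
    calc q ^ (4 * n + 1) ≤ 4 * (4 * n) * (E1 F (4 * n)).ncard := this
      _ = 16 * n * (E1 F (4 * n)).ncard := by ring
  have b2 : q ^ (4 * n + 1) ≤ 16 * n * (E2 F (4 * n)).ncard := by
    obtain ⟨M, hM⟩ : ∃ M, 4 * n = M + 1 := ⟨4 * n - 1, by omega⟩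
    have := T2_card (F := F) (M := M) (by omega) (by rw [← hqF, hqd]; omega)
    rw [← hqF] at this
    have e1 : (E2 F (4 * n)).ncard = (T2 F (M + 1)).ncard := by
      rw [hM]
      rfl
    rw [e1]
    calc q ^ (4 * n + 1) = q ^ (M + 2) := by rw [hM]
      _ ≤ 4 * (M + 1) * (T2 F (M + 1)).ncard := this
      _ = 16 * n * (T2 F (M + 1)).ncard := by rw [← hM]; ring
  have hpow : 8 * n ≤ (8 * n) ^ n := by
    calc 8 * n = (8 * n) ^ 1 := (pow_one _).symm
      _ ≤ (8 * n) ^ n := Nat.pow_le_pow_right (by omega) (by omega)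
  have hD1 : 64 * n ^ 2 ≤ 64 * n * (8 * n) ^ n := by nlinarith
  have hD2 : 8 * n ≤ 64 * n * (8 * n) ^ n := by nlinarith
  rw [← hqd]
  have hall : (Set.univ : Set (Fin (2 * n + 1) → F)).ncard = q ^ (2 * n + 1) := by
    rw [Set.ncard_univ, Nat.card_fun, Nat.card_eq_fintype_card (α := Fin (2 * n + 1)),
      Fintype.card_fin, hqd]
  fin_cases s
  · show q ^ (5 * n + 3) ≤ 64 * n * (8 * n) ^ n * (H0 n F).ncard
    have e : (H0 n F).ncard = (E1 F (2 * n)).ncard * (E2 F (2 * n)).ncard * q ^ (n + 1) := by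
      rw [hqd]
      exact ncard_prod3 (E1 F (2 * n)) (E2 F (2 * n))
    rw [e]
    calc q ^ (5 * n + 3) = q ^ (2 * n + 1) * q ^ (2 * n + 1) * q ^ (n + 1) := by ring
      _ ≤ (8 * n * (E1 F (2 * n)).ncard) * (8 * n * (E2 F (2 * n)).ncard) * q ^ (n + 1) :=
          Nat.mul_le_mul_right _ (Nat.mul_le_mul a1 a2)
      _ = (64 * n ^ 2) * ((E1 F (2 * n)).ncard * (E2 F (2 * n)).ncard * q ^ (n + 1)) := by ring
      _ ≤ _ := Nat.mul_le_mul_right _ hD1
  · show q ^ (5 * n + 3) ≤ 64 * n * (8 * n) ^ n * (H1 n F).ncard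
    have e : (H1 n F).ncard = q ^ (2 * n + 1) * (E1 F (2 * n)).ncard * q ^ (n + 1) := by
      have h5 : H1 n F = {z : Ix n → F | (fun j => z (Sum.inl (Sum.inl j))) ∈
        (Set.univ : Set (Fin (2 * n + 1) → F)) ∧ (fun j => z (Sum.inl (Sum.inr j))) ∈ E1 F (2 * n)} := by
        ext z
        exact ⟨fun h => ⟨trivial, h⟩, fun h => h.2⟩
      rw [h5, ncard_prod3, hall, hqd]
    rw [e]
    calc q ^ (5 * n + 3) = q ^ (2 * n + 1) * q ^ (2 * n + 1) * q ^ (n + 1) := by ring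
      _ ≤ q ^ (2 * n + 1) * (8 * n * (E1 F (2 * n)).ncard) * q ^ (n + 1) :=
          Nat.mul_le_mul_right _ (Nat.mul_le_mul_left _ a1)
      _ = (8 * n) * (q ^ (2 * n + 1) * (E1 F (2 * n)).ncard * q ^ (n + 1)) := by ring
      _ ≤ _ := Nat.mul_le_mul_right _ hD2
  · show q ^ (5 * n + 3) ≤ 64 * n * (8 * n) ^ n * (H2 n F).ncard
    have e : (H2 n F).ncard = (E2 F (2 * n)).ncard * q ^ (2 * n + 1) * q ^ (n + 1) := by
      have h5 : H2 n F = {z : Ix n → F | (fun j => z (Sum.inl (Sum.inl j))) ∈ E2 F (2 * n) ∧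
        (fun j => z (Sum.inl (Sum.inr j))) ∈ (Set.univ : Set (Fin (2 * n + 1) → F))} := by
        ext z
        exact ⟨fun h => ⟨h, trivial⟩, fun h => h.1⟩
      rw [h5, ncard_prod3, hall, hqd]
    rw [e]
    calc q ^ (5 * n + 3) = q ^ (2 * n + 1) * q ^ (2 * n + 1) * q ^ (n + 1) := by ring
      _ ≤ (8 * n * (E2 F (2 * n)).ncard) * q ^ (2 * n + 1) * q ^ (n + 1) :=
          Nat.mul_le_mul_right _ (Nat.mul_le_mul_right _ a2)
      _ = (8 * n) * ((E2 F (2 * n)).ncard * q ^ (2 * n + 1) * q ^ (n + 1)) := by ring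
      _ ≤ _ := Nat.mul_le_mul_right _ hD2
  · show q ^ (5 * n + 3) ≤ 64 * n * (8 * n) ^ n * (H3 n F).ncard
    have e : (H3 n F) = {z : Ix n → F |
        (fun j : Fin (4 * n + 1) => (tD z).coeff j) ∈ E1 F (4 * n)} := by
      ext z
      have : bF (fun j : Fin (4 * n + 1) => (tD z).coeff j) = tD z := bF_coeffs (natDegree_tD z)
      show I1 (4 * n) (tD z) ↔ (Irreducible _ ∧ _)
      rw [this]
      exact Iff.rfl
    rw [e]
    have := prop3 (F := F) h2 (n := n) (by omega) (by rw [← hqF, hqd]; omega) (D := 16 * n)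
      (T := E1 F (4 * n)) (fun y hy => hy.1.ne_zero) (fun y hy c hc => E1_scale hy hc)
      (by rw [← hqF]; exact b1)
    rw [← hqF] at this
    refine this.trans (le_of_eq ?_)
    ring
  · show q ^ (5 * n + 3) ≤ 64 * n * (8 * n) ^ n * (H4 n F).ncard
    have e : (H4 n F) = {z : Ix n → F |
        (fun j : Fin (4 * n + 1) => (tD z).coeff j) ∈ E2 F (4 * n)} := by
      ext z
      have : bF (fun j : Fin (4 * n + 1) => (tD z).coeff j) = tD z := bF_coeffs (natDegree_tD z)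
      show I2 (4 * n) (tD z) ↔ (_ ∧ _)
      rw [this]
      exact Iff.rfl
    rw [e]
    have := prop3 (F := F) h2 (n := n) (by omega) (by rw [← hqF, hqd]; omega) (D := 16 * n)
      (T := E2 F (4 * n)) (fun y hy h0 => by
        have h5 := hy.1
        rw [h0, natDegree_zero] at h5
        omega) (fun y hy c hc => E2_scale hy hc)
      (by rw [← hqF]; exact b2)
    rw [← hqF] at this
    refine this.trans (le_of_eq ?_)
    ring

end ev

section map

variable {R S : Type} [CommRing R] [CommRing S]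

theorem tP_map (g : R →+* S) {n : ℕ} (z : Ix n → R) : (tP z).map g = tP (fun j => g (z j)) :=
  bF_map g _

theorem tQ_map (g : R →+* S) {n : ℕ} (z : Ix n → R) : (tQ z).map g = tQ (fun j => g (z j)) :=
  bF_map g _

theorem tW_map (g : R →+* S) {n : ℕ} (z : Ix n → R) : (tW z).map g = tW (fun j => g (z j)) :=
  bF_map g _

theorem tD_map (g : R →+* S) {n : ℕ} (z : Ix n → R) : (tD z).map g = tD (fun j => g (z j)) := by
  rw [tD, tD, ← tP_map, ← tQ_map, ← tW_map]
  simp only [Polynomial.map_sub, Polynomial.map_pow, Polynomial.map_mul, Polynomial.map_ofNat]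

end map

end Pool.Agent.X243.Tate
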