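import Pool.Agent.X243.Tate.Gauss2

/-!
Squares modulo a polynomial and reduction.
-/

set_option autoImplicit false
set_option linter.all false

open Polynomial IsLocalRing IsDedekindDomain
open scoped Classical

namespace Pool.Agent.X243.Tate

section sq

variable {O k : Type} [CommRing O] [IsDedekindDomain O] [Field k] [Algebra O k]
  [IsFractionRing O k] (v : HeightOneSpectrum O)

theorem sq_red {a b : O[X]} {N : ℕ} (ha : a.natDegree ≤ N)
    (hd : (a.map (Ideal.Quotient.mk v.asIdeal)).natDegree = N)
    (hsq : Squarefree (a.map (Ideal.Quotient.mk v.asIdeal)))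
    (hab : ¬ a.map (Ideal.Quotient.mk v.asIdeal) ∣ b.map (Ideal.Quotient.mk v.asIdeal))
    {δ : k} (hδ : δ ≠ 0) {z : k[X]}
    (h : a.map (algebraMap O k) ∣ z ^ 2 - C δ * b.map (algebraMap O k)) :
    ∃ (u : O ⧸ v.asIdeal) (y : (O ⧸ v.asIdeal)[X]), u ≠ 0 ∧
      a.map (Ideal.Quotient.mk v.asIdeal) ∣ y ^ 2 - C u * b.map (Ideal.Quotient.mk v.asIdeal) := by
  haveI := v.isMaximal
  letI : Field (O ⧸ v.asIdeal) := Ideal.Quotient.field v.asIdeal
  obtain ⟨B, hB⟩ := exists_Dom (L := k) v (k := k)
  have hbij : Function.Bijective (jB hB) := by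
    refine ⟨(jB hB).injective, fun y => ?_⟩
    obtain ⟨z, rfl⟩ := residue_surjective y
    obtain ⟨x, hx⟩ := res_surj hB (c := (z : k)) z.2
    exact ⟨Ideal.Quotient.mk _ x, by rw [jB_mk, ← hx]; rfl⟩
  let e : O ⧸ v.asIdeal ≃+* ResidueField B := RingEquiv.ofBijective (jB hB) hbij
  have hback : ∀ f : (O ⧸ v.asIdeal)[X],
      (f.map (jB hB)).map (e.symm : ResidueField B →+* O ⧸ v.asIdeal) = f := by
    intro f
    rw [Polynomial.map_map]
    have : (e.symm : ResidueField B →+* O ⧸ v.asIdeal).comp (jB hB) = RingHom.id _ := by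
      ext x
      exact e.symm_apply_apply x
    rw [this, Polynomial.map_id]
  have hdvd : ∀ f g : (O ⧸ v.asIdeal)[X], f.map (jB hB) ∣ g.map (jB hB) → f ∣ g := by
    intro f g hfg
    have := Polynomial.map_dvd (e.symm : ResidueField B →+* O ⧸ v.asIdeal) hfg
    rwa [hback, hback] at this
  set ā := a.map (Ideal.Quotient.mk v.asIdeal) with hā
  set b' := b.map (Ideal.Quotient.mk v.asIdeal) with hb'
  have hā0 : ā ≠ 0 := hsq.ne_zero
  have ra : (a.map (rO hB)).map (residue B) = ā.map (jB hB) := map_rB hB a
  have rb : (b.map (rO hB)).map (residue B) = b'.map (jB hB) := map_rB hB b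
  have ka : (a.map (rO hB)).map (algebraMap B k) = a.map (algebraMap O k) := by
    rw [map_rO, Algebra.algebraMap_self, Polynomial.map_id]
  have kb : (b.map (rO hB)).map (algebraMap B k) = b.map (algebraMap O k) := by
    rw [map_rO, Algebra.algebraMap_self, Polynomial.map_id]
  have hinj : Function.Injective (algebraMap B k) := Subtype.val_injective
  have haN : a.natDegree = N := le_antisymm ha (hd ▸ natDegree_map_le)
  -- the leading coefficient is a unit
  have hres : residue B ((a.map (rO hB)).coeff N) ≠ 0 := by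
    rw [← coeff_map, ra, coeff_map]
    intro h0
    rw [map_eq_zero] at h0
    rw [← hd, coeff_natDegree, leadingCoeff_eq_zero] at h0
    exact hā0 h0
  have hunit : IsUnit ((a.map (rO hB)).coeff N) := by
    rw [Ne, residue_eq_zero_iff, mem_maximalIdeal, mem_nonunits_iff, not_not] at hres
    exact hres
  obtain ⟨l, hl⟩ := hunit
  have haBN : (a.map (rO hB)).natDegree = N := by
    apply le_antisymm (natDegree_map_le.trans ha)
    apply le_natDegree_of_ne_zero
    rw [← hl]
    exact l.ne_zero
  set a1 : B[X] := C ((l⁻¹ : Bˣ) : B) * a.map (rO hB) with ha1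
  have hmon : a1.Monic := by
    rw [Monic, ha1, leadingCoeff, natDegree_C_mul_of_isUnit (l⁻¹).isUnit, haBN, coeff_C_mul, ← hl]
    exact l.inv_mul
  have hCl : IsUnit (C ((l⁻¹ : Bˣ) : B) : B[X]) := isUnit_C.2 (l⁻¹).isUnit
  have hdivB : ∀ f : B[X], a.map (algebraMap O k) ∣ f.map (algebraMap B k) →
      ā.map (jB hB) ∣ f.map (residue B) := by
    intro f hf
    have h1 : a1.map (algebraMap B k) ∣ f.map (algebraMap B k) := by
      rw [ha1, Polynomial.map_mul, ka]
      have : IsUnit ((C ((l⁻¹ : Bˣ) : B) : B[X]).map (algebraMap B k)) := hCl.map (mapRingHom _)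
      exact (this.mul_left_dvd).2 hf
    have h2 : a1 ∣ f := (Polynomial.map_dvd_map (algebraMap B k) hinj hmon).1 h1
    have h3 : a.map (rO hB) ∣ f := (hCl.mul_left_dvd).1 h2
    rw [← ra]
    exact Polynomial.map_dvd _ h3
  have hNpos : 0 < N := by
    by_contra h0
    have hN0 : N = 0 := by omega
    apply hab
    have : IsUnit ā := by
      rw [eq_C_of_natDegree_eq_zero (hd.trans hN0)] at hā0 ⊢
      exact isUnit_C.2 (isUnit_iff_ne_zero.2 (C_ne_zero.1 hā0))
    exact this.dvd
  have hak0 : a.map (algebraMap O k) ≠ 0 := by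
    intro h0
    have h1 := natDegree_map_eq_of_injective (IsFractionRing.injective O k) a
    rw [h0, natDegree_zero, haN] at h1
    omega
  -- the remainder
  set r := z % a.map (algebraMap O k) with hr
  have hzr : a.map (algebraMap O k) ∣ z - r := by
    refine ⟨z / a.map (algebraMap O k), ?_⟩
    have := EuclideanDomain.div_add_mod z (a.map (algebraMap O k))
    rw [hr]
    linear_combination -this
  have hr2 : a.map (algebraMap O k) ∣ r ^ 2 - C δ * b.map (algebraMap O k) := by
    have h1 : r ^ 2 - C δ * b.map (algebraMap O k) = (z ^ 2 - C δ * b.map (algebraMap O k)) -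
      (z - r) * (z + r) := by ring
    rw [h1]
    exact dvd_sub h (hzr.mul_right _)
  have hrdeg : r = 0 ∨ r.natDegree < N := by
    by_cases h0 : r = 0
    · exact Or.inl h0
    · right
      have h1 : r.degree < (a.map (algebraMap O k)).degree := EuclideanDomain.mod_lt z hak0
      have h2 := natDegree_lt_natDegree h0 h1
      rwa [natDegree_map_eq_of_injective (IsFractionRing.injective O k), haN] at h2
  have hno : ¬ a.map (algebraMap O k) ∣ b.map (algebraMap O k) := by
    intro h1
    rw [← kb] at h1
    have h2 := hdivB _ h1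
    rw [rb] at h2
    exact hab (hdvd _ _ h2)
  rcases hrdeg with h0 | hrd
  · exfalso
    rw [h0, zero_pow two_ne_zero, zero_sub, dvd_neg] at hr2
    exact hno ((isUnit_C.2 (isUnit_iff_ne_zero.2 hδ)).dvd_mul_left.1 hr2)
  · have hr0 : r ≠ 0 := by
      rintro h0
      rw [h0, zero_pow two_ne_zero, zero_sub, dvd_neg] at hr2
      exact hno ((isUnit_C.2 (isUnit_iff_ne_zero.2 hδ)).dvd_mul_left.1 hr2)
    obtain ⟨r', s, hs, er, rr⟩ := prim_lift B hr0
    have hr'd : r'.natDegree < N := by
      rw [← natDegree_map_eq_of_injective hinj, er, natDegree_C_mul hs]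
      exact hrd
    set ε := s ^ 2 * δ with hε
    have hε0 : ε ≠ 0 := mul_ne_zero (pow_ne_zero 2 hs) hδ
    have h3 : a.map (algebraMap O k) ∣ (r'.map (algebraMap B k)) ^ 2 -
        C ε * b.map (algebraMap O k) := by
      have h4 : (r'.map (algebraMap B k)) ^ 2 - C ε * b.map (algebraMap O k) =
          C (s ^ 2) * (r ^ 2 - C δ * b.map (algebraMap O k)) := by
        rw [er, hε, C_mul, C_pow]
        ring
      rw [h4]
      exact hr2.mul_left _
    rcases B.mem_or_inv_mem ε with hm | hm
    · have h4 : a.map (algebraMap O k) ∣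
          (r' ^ 2 - C (⟨ε, hm⟩ : B) * b.map (rO hB)).map (algebraMap B k) := by
        rw [Polynomial.map_sub, Polynomial.map_pow, Polynomial.map_mul, map_C, kb]
        exact h3
      have h5 := hdivB _ h4
      rw [Polynomial.map_sub, Polynomial.map_pow, Polynomial.map_mul, map_C, rb] at h5
      by_cases hz : residue B (⟨ε, hm⟩ : B) = 0
      · exfalso
        rw [hz, C_0, zero_mul, sub_zero] at h5
        have hsq' : Squarefree (ā.map (jB hB)) := by
          intro x hx
          have h6 : (x.map (e.symm : ResidueField B →+* O ⧸ v.asIdeal)) *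
            (x.map (e.symm : ResidueField B →+* O ⧸ v.asIdeal)) ∣ ā := by
            have := Polynomial.map_dvd (e.symm : ResidueField B →+* O ⧸ v.asIdeal) hx
            rwa [hback, Polynomial.map_mul] at this
          have h7 := hsq _ h6
          have h8 := h7.map (mapRingHom (jB hB))
          rw [coe_mapRingHom, Polynomial.map_map] at h8
          have : (jB hB).comp (e.symm : ResidueField B →+* O ⧸ v.asIdeal) = RingHom.id _ := by
            ext x
            exact e.apply_symm_apply x
          rwa [this, Polynomial.map_id] at h8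
        have h6 : ā.map (jB hB) ∣ r'.map (residue B) := (hsq'.dvd_pow_iff_dvd two_ne_zero).1 h5
        have h7 := natDegree_le_of_dvd h6 rr
        rw [natDegree_map, hd] at h7
        have h8 := natDegree_map_le (f := residue B) (p := r')
        omega
      · refine ⟨e.symm (residue B (⟨ε, hm⟩ : B)), (r'.map (residue B)).map
          (e.symm : ResidueField B →+* O ⧸ v.asIdeal), ?_, ?_⟩
        · rw [Ne, map_eq_zero_iff _ e.symm.injective]
          exact hz
        · have h6 := Polynomial.map_dvd (e.symm : ResidueField B →+* O ⧸ v.asIdeal) h5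
          rw [hback, Polynomial.map_sub, Polynomial.map_pow, Polynomial.map_mul, map_C, hback] at h6
          exact h6
    · by_cases hεB : ε ∈ B
      · -- both in `B`
        have h4 : a.map (algebraMap O k) ∣
            (r' ^ 2 - C (⟨ε, hεB⟩ : B) * b.map (rO hB)).map (algebraMap B k) := by
          rw [Polynomial.map_sub, Polynomial.map_pow, Polynomial.map_mul, map_C, kb]
          exact h3
        have h5 := hdivB _ h4
        rw [Polynomial.map_sub, Polynomial.map_pow, Polynomial.map_mul, map_C, rb] at h5
        have hz : residue B (⟨ε, hεB⟩ : B) ≠ 0 := by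
          intro h6
          have h7 : (⟨ε, hεB⟩ : B) * ⟨ε⁻¹, hm⟩ = 1 := Subtype.ext (mul_inv_cancel₀ hε0)
          have h8 := congrArg (residue B) h7
          rw [map_mul, h6, zero_mul, map_one] at h8
          exact zero_ne_one h8
        refine ⟨e.symm (residue B (⟨ε, hεB⟩ : B)), (r'.map (residue B)).map
          (e.symm : ResidueField B →+* O ⧸ v.asIdeal), ?_, ?_⟩
        · rw [Ne, map_eq_zero_iff _ e.symm.injective]
          exact hz
        · have h6 := Polynomial.map_dvd (e.symm : ResidueField B →+* O ⧸ v.asIdeal) h5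
          rw [hback, Polynomial.map_sub, Polynomial.map_pow, Polynomial.map_mul, map_C, hback] at h6
          exact h6
      · exfalso
        have h4 : a.map (algebraMap O k) ∣
            (C (⟨ε⁻¹, hm⟩ : B) * r' ^ 2 - b.map (rO hB)).map (algebraMap B k) := by
          rw [Polynomial.map_sub, Polynomial.map_mul, Polynomial.map_pow, map_C, kb]
          have h5 : C (algebraMap B k ⟨ε⁻¹, hm⟩) * (r'.map (algebraMap B k)) ^ 2 -
              b.map (algebraMap O k) = C ε⁻¹ * ((r'.map (algebraMap B k)) ^ 2 -
                C ε * b.map (algebraMap O k)) := by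
            have h6 : algebraMap B k ⟨ε⁻¹, hm⟩ = ε⁻¹ := rfl
            have h7 : (C ε⁻¹ * C ε : k[X]) = 1 := by
              rw [← C_mul, inv_mul_cancel₀ hε0, C_1]
            rw [h6]
            linear_combination (b.map (algebraMap O k)) * h7
          rw [h5]
          exact h3.mul_left _
        have h5 := hdivB _ h4
        have hz : residue B (⟨ε⁻¹, hm⟩ : B) = 0 := by
          rw [residue_eq_zero_iff, mem_maximalIdeal, mem_nonunits_iff]
          rintro ⟨u, hu⟩
          apply hεB
          have h7 : ((u⁻¹ : Bˣ) : B) * ⟨ε⁻¹, hm⟩ = 1 := by rw [← hu]; exact u.inv_mul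
          have h8 : (((u⁻¹ : Bˣ) : B) : k) * ε⁻¹ = 1 := congrArg Subtype.val h7
          have h9 : (((u⁻¹ : Bˣ) : B) : k) = ε := by
            field_simp at h8
            exact h8
          rw [← h9]
          exact ((u⁻¹ : Bˣ) : B).2
        rw [Polynomial.map_sub, Polynomial.map_mul, map_C, hz, C_0, zero_mul, zero_sub, dvd_neg,
          rb] at h5
        exact hab (hdvd _ _ h5)

end sq

end Pool.Agent.X243.Tate
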