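import Pool.Agent.X243.Tate.Hundred
import Pool.Agent.X243.Tate.Cnt4
import Pool.Agent.X243.Tate.Ev3
import Pool.Agent.X243.Tate.Sq
import Pool.Agent.TH115.SD.Fam2

/-!
The elliptic surfaces `y ^ 2 = x (x - a) (x - b)`: the conditions at a prime.
-/

set_option autoImplicit false
set_option linter.all false

open Polynomial IsDedekindDomain NumberField
open scoped Classical

namespace Pool.Agent.X243.Tate

open Pool.Agent.Y160.T3 Pool.Agent.TH115.GD

section ev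

/-- The four events. -/
def Fev (N : ℕ) (s : Fin 4) (R : Type) [CommRing R] : Set (Fin (N + 1) ⊕ Fin (N + 1) → R) :=
  match s with
  | 0 => {z | I1 N (bF (z ∘ Sum.inl))}
  | 1 => {z | I1 N (bF (z ∘ Sum.inr))}
  | 2 => {z | I1 N (bF (z ∘ Sum.inl) - bF (z ∘ Sum.inr))}
  | 3 => {z | JJ N (bF (z ∘ Sum.inl)) (bF (z ∘ Sum.inr))}

theorem bF_sub {R : Type} [CommRing R] {N : ℕ} (x y : Fin (N + 1) → R) :
    bF (fun j => x j - y j) = bF x - bF y := by
  rw [bF, bF, bF, ← Finset.sum_sub_distrib]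
  exact Finset.sum_congr rfl fun j _ => by rw [C_sub, sub_mul]

variable {F : Type} [Field F] [Finite F]

theorem Fev_card {N : ℕ} (hN : 3 ≤ N) (hodd : Odd N) (hq : 2 * N + 2 ≤ Nat.card F)
    (h2 : (2 : F) ≠ 0) (s : Fin 4) :
    Nat.card F ^ (2 * N + 2) ≤ (16 * N) * (Fev N s F).ncard := by
  haveI := Fintype.ofFinite F
  obtain ⟨q, hqd⟩ : ∃ q, q = Nat.card F := ⟨_, rfl⟩
  have hqF : q = Fintype.card F := by rw [hqd, Nat.card_eq_fintype_card]
  have h1 : q ^ (N + 1) ≤ 4 * N * (E1 F N).ncard := by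
    rw [hqF]
    exact T1_card (by omega) (by rw [← hqF, hqd]; omega)
  have hev : ∀ (w : (Fin (N + 1) → F) → (Fin (N + 1) → F)) (c : F), c ≠ 0 →
      q ^ (2 * N + 2) ≤ (16 * N) * ({z : Fin (N + 1) ⊕ Fin (N + 1) → F |
        (fun j => w (z ∘ Sum.inl) j + c * z (Sum.inr j)) ∈ E1 F N}).ncard := by
    intro w c hc
    rw [ncard_ev w hc, ← hqd]
    calc q ^ (2 * N + 2) = q ^ (N + 1) * q ^ (N + 1) := by ring
      _ ≤ q ^ (N + 1) * (4 * N * (E1 F N).ncard) := Nat.mul_le_mul_left _ h1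
      _ = 4 * N * (q ^ (N + 1) * (E1 F N).ncard) := by ring
      _ ≤ 16 * N * (q ^ (N + 1) * (E1 F N).ncard) := Nat.mul_le_mul_right _ (by omega)
  have hpre : ∀ S : Set ((Fin (N + 1) → F) × (Fin (N + 1) → F)),
      ({z : Fin (N + 1) ⊕ Fin (N + 1) → F | (z ∘ Sum.inl, z ∘ Sum.inr) ∈ S}).ncard = S.ncard := by
    intro S
    have h3 : {z : Fin (N + 1) ⊕ Fin (N + 1) → F | (z ∘ Sum.inl, z ∘ Sum.inr) ∈ S} =
        (prE F N N) ⁻¹' S := rfl
    rw [h3, Set.ncard_preimage_of_injective_subset_range (Equiv.injective _) (by simp)]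
  rw [← hqd]
  fin_cases s
  · show q ^ (2 * N + 2) ≤ 16 * N * (Fev N 0 F).ncard
    have e : Fev N 0 F = {z : Fin (N + 1) ⊕ Fin (N + 1) → F |
        (z ∘ Sum.inl, z ∘ Sum.inr) ∈ (E1 F N) ×ˢ (Set.univ : Set (Fin (N + 1) → F))} := by
      ext z
      exact ⟨fun h => ⟨h, trivial⟩, fun h => h.1⟩
    rw [e, hpre, Set.ncard_prod, Set.ncard_univ, Nat.card_fun,
      Nat.card_eq_fintype_card (α := Fin (N + 1)), Fintype.card_fin, ← hqd]
    calc q ^ (2 * N + 2) = q ^ (N + 1) * q ^ (N + 1) := by ring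
      _ ≤ (4 * N * (E1 F N).ncard) * q ^ (N + 1) := Nat.mul_le_mul_right _ h1
      _ = 4 * N * ((E1 F N).ncard * q ^ (N + 1)) := by ring
      _ ≤ 16 * N * ((E1 F N).ncard * q ^ (N + 1)) := Nat.mul_le_mul_right _ (by omega)
  · show q ^ (2 * N + 2) ≤ 16 * N * (Fev N 1 F).ncard
    have := hev (fun _ _ => 0) 1 one_ne_zero
    have e : Fev N 1 F = {z : Fin (N + 1) ⊕ Fin (N + 1) → F |
        (fun j => (0 : F) + 1 * z (Sum.inr j)) ∈ E1 F N} := by
      ext z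
      have : (fun j => (0 : F) + 1 * z (Sum.inr j)) = z ∘ Sum.inr := by
        funext j
        rw [zero_add, one_mul]
        rfl
      show _ ↔ (fun j => (0 : F) + 1 * z (Sum.inr j)) ∈ E1 F N
      rw [this]
      exact Iff.rfl
    rw [e]
    exact this
  · show q ^ (2 * N + 2) ≤ 16 * N * (Fev N 2 F).ncard
    have := hev (fun x => x) (-1) (neg_ne_zero.2 one_ne_zero)
    have e : Fev N 2 F = {z : Fin (N + 1) ⊕ Fin (N + 1) → F |
        (fun j => (z ∘ Sum.inl) j + (-1) * z (Sum.inr j)) ∈ E1 F N} := by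
      ext z
      have : (fun j => (z ∘ Sum.inl) j + (-1) * z (Sum.inr j)) =
          fun j => (z ∘ Sum.inl) j - (z ∘ Sum.inr) j := by
        funext j
        rw [neg_one_mul, ← sub_eq_add_neg]
        rfl
      show _ ↔ (fun j => (z ∘ Sum.inl) j + (-1) * z (Sum.inr j)) ∈ E1 F N
      rw [this]
      show I1 N (bF (z ∘ Sum.inl) - bF (z ∘ Sum.inr)) ↔ I1 N (bF fun j => (z ∘ Sum.inl) j - (z ∘ Sum.inr) j)
      rw [bF_sub]
    rw [e]
    exact this
  · show q ^ (2 * N + 2) ≤ 16 * N * ({z : Fin (N + 1) ⊕ Fin (N + 1) → F |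
      (z ∘ Sum.inl, z ∘ Sum.inr) ∈ {x : (Fin (N + 1) → F) × (Fin (N + 1) → F) |
        JJ N (bF x.1) (bF x.2)}}).ncard
    rw [hpre, hqF]
    exact JJ_count h2 hN hodd (by rw [← hqF, hqd]; omega)

end ev

section lift

theorem JJ_mapEq {R S : Type} [CommRing R] [CommRing S] (θ : R ≃+* S) {N : ℕ} {a b : R[X]}
    (h : JJ N a b) : JJ N (a.map (θ : R →+* S)) (b.map (θ : R →+* S)) := by
  have hback : ∀ f : R[X], (f.map (θ : R →+* S)).map (θ.symm : S →+* R) = f := by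
    intro f
    rw [Polynomial.map_map, RingEquiv.symm_comp, Polynomial.map_id]
  obtain ⟨h1, h2, h3⟩ := h
  refine ⟨by rw [natDegree_map_eq_of_injective θ.injective, h1], ?_, ?_⟩
  · intro x hx
    have h4 := Polynomial.map_dvd (θ.symm : S →+* R) hx
    rw [hback, Polynomial.map_mul] at h4
    have h5 := h2 _ h4
    have h6 := h5.map (mapRingHom (θ : R →+* S))
    have h7 : mapRingHom (θ : R →+* S) (x.map (θ.symm : S →+* R)) = x := by
      rw [coe_mapRingHom, Polynomial.map_map, RingEquiv.comp_symm, Polynomial.map_id]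
    rwa [h7] at h6
  · intro u z hu hdv
    have h4 := Polynomial.map_dvd (θ.symm : S →+* R) hdv
    rw [hback, Polynomial.map_sub, Polynomial.map_pow, Polynomial.map_mul, hback, map_C] at h4
    exact h3 (θ.symm u) _ (by
      intro h0
      exact hu ((map_eq_zero_iff θ.symm θ.symm.injective).1 h0)) h4

variable {A k : Type} [Field A] [NumberField A] [Field k] [NumberField k] [Algebra A k]

theorem lift_JJ {N B : ℕ} {p : HeightOneSpectrum (𝓞 A)} (hp : p ∈ Zset A k B) {f g : (𝓞 A)[X]}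
    (hf : f.natDegree ≤ N)
    (h : JJ N (f.map (Ideal.Quotient.mk p.asIdeal)) (g.map (Ideal.Quotient.mk p.asIdeal)))
    (δ : k) (hδ : δ ≠ 0) (z : k[X]) :
    ¬ f.map (algebraMap (𝓞 A) k) ∣ z ^ 2 - C δ * g.map (algebraMap (𝓞 A) k) := by
  obtain ⟨⟨P, h1, h2⟩, -⟩ := hp
  obtain ⟨θ, hθ⟩ := exists_theta p P h1 h2
  have hJ := JJ_mapEq θ h
  rw [← red_map hθ, ← red_map hθ] at hJ
  haveI := P.isMaximal
  letI : Field (𝓞 k ⧸ P.asIdeal) := Ideal.Quotient.field P.asIdeal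
  intro hdv
  rw [← map_twice f, ← map_twice g] at hdv
  obtain ⟨u, y, hu, hy⟩ := sq_red P (k := k) (a := f.map (algebraMap (𝓞 A) (𝓞 k)))
    (b := g.map (algebraMap (𝓞 A) (𝓞 k))) (N := N) (natDegree_map_le.trans hf) hJ.1 hJ.2.1 (by
      intro h3
      refine hJ.2.2 1 0 one_ne_zero ?_
      have e : (0 : (𝓞 k ⧸ P.asIdeal)[X]) ^ 2 -
          C 1 * (g.map (algebraMap (𝓞 A) (𝓞 k))).map (Ideal.Quotient.mk P.asIdeal) =
          -(g.map (algebraMap (𝓞 A) (𝓞 k))).map (Ideal.Quotient.mk P.asIdeal) := by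
        rw [C_1, one_mul]
        ring
      rw [e]
      exact h3.neg_right) hδ hdv
  exact hJ.2.2 u y hu hy

end lift

section main

variable {A k k' K F : Type} [Field A] [NumberField A] [Field k] [NumberField k] [Algebra A k]
    [Field k'] [Algebra k k'] [Field K] [Algebra k[X] K]
    [Field F] [Algebra k'[X] F] [IsFractionRing k'[X] F] [Algebra K F]

theorem tate_full (hT : IsTower k k' K F) {N B : ℕ} (hodd : Odd N)
    {y : Fin (N + 1) ⊕ Fin (N + 1) → 𝓞 A}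
    (h : ∀ s : Fin 4, ∃ p ∈ Zset A k B, (fun j => Ideal.Quotient.mk p.asIdeal (y j)) ∈
      Fev N s (𝓞 A ⧸ p.asIdeal)) (a b : k[X])
    (ha : a = (bF (y ∘ Sum.inl)).map (algebraMap (𝓞 A) k))
    (hb : b = (bF (y ∘ Sum.inr)).map (algebraMap (𝓞 A) k)) :
    I1 N a ∧ I1 N b ∧ I1 N (a - b) ∧ IsCoprime a b ∧
      ∀ d : k, d ≠ 0 → TateAtTwo (F := F) k'
        (crv (algebraMap k[X] K (C d * a)) (algebraMap k[X] K (C d * b))) ∧
        GeneratedBy (F := F) k'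
          (crv (algebraMap k[X] K (C d * a)) (algebraMap k[X] K (C d * b))) 0 := by
  haveI := hT.fracK
  have hPd : (bF (y ∘ Sum.inl)).natDegree ≤ N := bF_nd _
  have hQd : (bF (y ∘ Sum.inr)).natDegree ≤ N := bF_nd _
  have hDd : (bF (y ∘ Sum.inl) - bF (y ∘ Sum.inr)).natDegree ≤ N :=
    (natDegree_sub_le _ _).trans (max_le hPd hQd)
  obtain ⟨p0, z0, e0⟩ := h 0
  obtain ⟨p1, z1, e1⟩ := h 1
  obtain ⟨p2, z2, e2⟩ := h 2
  obtain ⟨p3, z3, e3⟩ := h 3
  have e0' : I1 N ((bF (y ∘ Sum.inl)).map (Ideal.Quotient.mk p0.asIdeal)) := by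
    rw [bF_map]; exact e0
  have e1' : I1 N ((bF (y ∘ Sum.inr)).map (Ideal.Quotient.mk p1.asIdeal)) := by
    rw [bF_map]; exact e1
  have e2' : I1 N ((bF (y ∘ Sum.inl) - bF (y ∘ Sum.inr)).map (Ideal.Quotient.mk p2.asIdeal)) := by
    rw [Polynomial.map_sub, bF_map, bF_map]; exact e2
  have e3' : JJ N ((bF (y ∘ Sum.inl)).map (Ideal.Quotient.mk p3.asIdeal))
      ((bF (y ∘ Sum.inr)).map (Ideal.Quotient.mk p3.asIdeal)) := by
    rw [bF_map, bF_map]; exact e3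
  have iA : I1 N a := by
    rw [ha]; exact lift_irr z0 hPd e0'.2 e0'.1
  have iB : I1 N b := by
    rw [hb]; exact lift_irr z1 hQd e1'.2 e1'.1
  have iC : I1 N (a - b) := by
    rw [ha, hb, ← Polynomial.map_sub]
    exact lift_irr z2 hDd e2'.2 e2'.1
  have key : ∀ (δ : k), δ ≠ 0 → ∀ z : k[X], ¬ a ∣ z ^ 2 - C δ * b := by
    intro δ hδ z
    rw [ha, hb]
    exact lift_JJ z3 hPd e3' δ hδ z
  have hco : IsCoprime a b := by
    rw [iA.1.coprime_iff_not_dvd]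
    intro hd
    refine key 1 one_ne_zero 0 ?_
    have e : (0 : k[X]) ^ 2 - C 1 * b = -b := by
      rw [C_1]
      ring
    rw [e]
    exact hd.neg_right
  refine ⟨iA, iB, iC, hco, ?_⟩
  intro d hd
  have hu : IsUnit (C d : k[X]) := isUnit_C.2 (isUnit_iff_ne_zero.2 hd)
  have irr : ∀ {p : k[X]}, Irreducible p → Irreducible (C d * p) := fun hp =>
    (irreducible_isUnit_mul hu).2 hp
  have hsub : C d * a - C d * b = C d * (a - b) := by ring
  have hco' : IsCoprime (C d * a) (C d * b) := (isCoprime_mul_unit_left hu a b).2 hco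
  refine generic (F := F) hT two_ne_zero (irr iA.1) (irr iB.1) (by rw [hsub]; exact irr iC.1)
    (Separable.unit_mul hu iA.1.separable) (Separable.unit_mul hu iB.1.separable)
    (by rw [hsub]; exact Separable.unit_mul hu iC.1.separable) hco' hodd
    (by rw [natDegree_C_mul hd, iA.2]) (by rw [natDegree_C_mul hd, iB.2])
    (by rw [hsub, natDegree_C_mul hd, iC.2]) ?_
  rintro ⟨⟨z, hz⟩, -, -⟩
  have hCd : (C d : k[X]) ≠ 0 := C_ne_zero.2 hd
  refine key ((C d * b).leadingCoeff * (C d * a - C d * b).leadingCoeff * d)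
    (mul_ne_zero (mul_ne_zero (leadingCoeff_ne_zero.2 (mul_ne_zero hCd iB.1.ne_zero))
      (leadingCoeff_ne_zero.2 ?_)) hd) z ?_
  · rw [← mul_sub]
    exact mul_ne_zero hCd iC.1.ne_zero
  · have h5 := (Dvd.intro_left _ rfl : a ∣ C d * a).trans hz
    have e : C ((C d * b).leadingCoeff * (C d * a - C d * b).leadingCoeff * d) * b =
        C ((C d * b).leadingCoeff * (C d * a - C d * b).leadingCoeff) * (C d * b) := by
      rw [C_mul, mul_assoc]
    rw [e]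
    exact h5

theorem Fev_Z {N : ℕ} (hN : 3 ≤ N) (hodd : Odd N) (s : Fin 4) {p : HeightOneSpectrum (𝓞 A)}
    (hp : p ∈ Zset A k (2 * N + 2)) :
    (1 / ((16 * N : ℕ) : ℝ)) * (Nat.card (𝓞 A ⧸ p.asIdeal) : ℝ) ^
      (Fintype.card (Fin (N + 1) ⊕ Fin (N + 1))) ≤ ((Fev N s (𝓞 A ⧸ p.asIdeal)).ncard : ℝ) := by
  haveI := p.isMaximal
  letI : Field (𝓞 A ⧸ p.asIdeal) := Ideal.Quotient.field p.asIdeal
  haveI : Finite (𝓞 A ⧸ p.asIdeal) := Ideal.finiteQuotientOfFreeOfNeBot _ p.ne_bot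
  have h1 := Fev_card (F := 𝓞 A ⧸ p.asIdeal) hN hodd hp.2.2 (two_quot A k hp) s
  have hc : Fintype.card (Fin (N + 1) ⊕ Fin (N + 1)) = 2 * N + 2 := by
    rw [Fintype.card_sum, Fintype.card_fin]
    omega
  have hD : (0 : ℝ) < ((16 * N : ℕ) : ℝ) := by
    have : 0 < 16 * N := by omega
    exact_mod_cast this
  rw [hc, one_div, inv_mul_le_iff₀ hD]
  exact_mod_cast h1

variable (A k) in
theorem dens_four {N : ℕ} (hN : 3 ≤ N) (hodd : Odd N) (η : ℝ) (hη : 0 < η) :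
    ∃ M : Ideal (𝓞 A), M ≠ ⊥ ∧
      (1 - η) * (Nat.card (𝓞 A ⧸ M) : ℝ) ^ (Fintype.card (Fin (N + 1) ⊕ Fin (N + 1))) ≤
      (({x : Fin (N + 1) ⊕ Fin (N + 1) → 𝓞 A ⧸ M | ∀ s : Fin 4,
        ∃ p ∈ Zset A k (2 * N + 2), ∀ y : Fin (N + 1) ⊕ Fin (N + 1) → 𝓞 A,
          (∀ j, Ideal.Quotient.mk M (y j) = x j) →
          (fun j => Ideal.Quotient.mk p.asIdeal (y j)) ∈ Fev N s (𝓞 A ⧸ p.asIdeal)}).ncard : ℝ) := by
  refine density (Zset A k (2 * N + 2)) (Zset_inf A k _)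
    (fun s p => Fev N s (𝓞 A ⧸ p.asIdeal)) (c := 1 / ((16 * N : ℕ) : ℝ)) ?_ ?_ η hη
  · have : 0 < 16 * N := by omega
    have : (0 : ℝ) < ((16 * N : ℕ) : ℝ) := by exact_mod_cast this
    positivity
  · intro s p hp
    exact Fev_Z hN hodd s hp

end main

end Pool.Agent.X243.Tate
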