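import Pool.Agent.X243.Tate.Ev3

/-!
The Tate conjecture at two for 100% of the surfaces of the family with a section of infinite order.
-/

set_option autoImplicit false
set_option linter.all false

open Polynomial IsDedekindDomain NumberField
open scoped Classical

namespace Pool.Agent.X243.Tate

open Pool.Agent.Y160.T3 Pool.Agent.TH115.GD

section main

variable {A k k' K F : Type} [Field A] [NumberField A] [Field k] [NumberField k] [Algebra A k]
    [Field k'] [Algebra k k'] [Field K] [Algebra k[X] K]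
    [Field F] [Algebra k'[X] F] [IsFractionRing k'[X] F] [Algebra K F]

theorem cop_of_red {N : ℕ} (hN : 3 ≤ N) {p : HeightOneSpectrum (𝓞 A)} {f g : (𝓞 A)[X]}
    (hf : f.natDegree ≤ N) (hg : g.natDegree ≤ N)
    (h1 : I1 N (f.map (Ideal.Quotient.mk p.asIdeal)))
    (h2 : I2 N (g.map (Ideal.Quotient.mk p.asIdeal)))
    (h3 : I1 N (f.map (algebraMap (𝓞 A) k))) (h4 : I1 N (g.map (algebraMap (𝓞 A) k))) :
    IsCoprime (f.map (algebraMap (𝓞 A) k)) (g.map (algebraMap (𝓞 A) k)) := by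
  haveI := p.isMaximal
  letI : Field (𝓞 A ⧸ p.asIdeal) := Ideal.Quotient.field p.asIdeal
  rw [h3.1.coprime_iff_not_dvd]
  rintro ⟨c, hc⟩
  have hinj : Function.Injective (algebraMap (𝓞 A) k) := by
    rw [IsScalarTower.algebraMap_eq (𝓞 A) A k]
    exact (algebraMap A k).injective.comp (IsFractionRing.injective (𝓞 A) A)
  have hc0 : c ≠ 0 := by
    rintro rfl
    rw [mul_zero] at hc
    exact h4.1.ne_zero hc
  have hcd : c.natDegree = 0 := by
    have h5 := h4.2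
    rw [hc, natDegree_mul h3.1.ne_zero hc0, h3.2] at h5
    omega
  obtain ⟨c', hc'⟩ := natDegree_eq_zero.1 hcd
  have hfN : f.natDegree = N := le_antisymm hf (h1.2 ▸ natDegree_map_le)
  have hgN : g.natDegree = N := le_antisymm hg (h2.1 ▸ natDegree_map_le)
  have key : C (g.coeff N) * f = C (f.coeff N) * g := by
    apply map_injective _ hinj
    rw [Polynomial.map_mul, Polynomial.map_mul, map_C, map_C, hc, ← hc']
    have h5 : algebraMap (𝓞 A) k (g.coeff N) = algebraMap (𝓞 A) k (f.coeff N) * c' := by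
      have h6 := congrArg (fun q : k[X] => q.coeff N) hc
      simp only [← hc', coeff_map, coeff_mul_C] at h6
      exact h6
    rw [h5, C_mul]
    ring
  have key2 := congrArg (fun q : (𝓞 A)[X] => q.map (Ideal.Quotient.mk p.asIdeal)) key
  simp only [Polynomial.map_mul, map_C] at key2
  set a := Ideal.Quotient.mk p.asIdeal (g.coeff N) with ha
  set b := Ideal.Quotient.mk p.asIdeal (f.coeff N) with hb
  have hb0 : b ≠ 0 := by
    have h6 : (f.map (Ideal.Quotient.mk p.asIdeal)).coeff N ≠ 0 := by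
      rw [← h1.2]
      exact leadingCoeff_ne_zero.2 h1.1.ne_zero
    rwa [coeff_map] at h6
  have ha0 : a ≠ 0 := by
    have hg0 : g.map (Ideal.Quotient.mk p.asIdeal) ≠ 0 := by
      intro h0
      have := h2.1
      rw [h0, natDegree_zero] at this
      omega
    have h6 : (g.map (Ideal.Quotient.mk p.asIdeal)).coeff N ≠ 0 := by
      rw [← h2.1]
      exact leadingCoeff_ne_zero.2 hg0
    rwa [coeff_map] at h6
  have hirr : Irreducible (g.map (Ideal.Quotient.mk p.asIdeal)) := by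
    have h6 : Irreducible (C a * f.map (Ideal.Quotient.mk p.asIdeal)) :=
      (irreducible_isUnit_mul (isUnit_C.2 (isUnit_iff_ne_zero.2 ha0))).2 h1.1
    rw [key2] at h6
    exact (irreducible_isUnit_mul (isUnit_C.2 (isUnit_iff_ne_zero.2 hb0))).1 h6
  obtain ⟨h5, π, h6, h7, h8⟩ := h2
  have h9 : Associated π (g.map (Ideal.Quotient.mk p.asIdeal)) := h6.associated_of_dvd hirr h8
  have h10 := natDegree_eq_of_degree_eq (degree_eq_degree_of_associated h9)
  rw [h5] at h10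
  omega

theorem tate_rank_one (hT : IsTower k k' K F) {n B : ℕ} (hn : 2 ≤ n) {y : Ix n → 𝓞 A}
    (h : ∀ s : Fin 5, ∃ p ∈ Zset A k B, (fun j => Ideal.Quotient.mk p.asIdeal (y j)) ∈
      Hev n s (𝓞 A ⧸ p.asIdeal)) (p q w : k[X])
    (hp : p = (tP y).map (algebraMap (𝓞 A) k)) (hq : q = (tQ y).map (algebraMap (𝓞 A) k))
    (hw : w = (tW y).map (algebraMap (𝓞 A) k)) :
    I1 (2 * n) p ∧ I1 (2 * n) q ∧ I1 (4 * n) ((w ^ 2 - p - q) ^ 2 - 4 * (p * q)) ∧
      IsCoprime p q ∧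
      TateAtTwo (F := F) k' (crvT (algebraMap k[X] K (w ^ 2 - p - q)) (algebraMap k[X] K (p * q))) ∧
      ∃ P : Pt (crvT (algebraMap k[X] K (w ^ 2 - p - q)) (algebraMap k[X] K (p * q))) K,
        ∀ m : ℕ, 0 < m → m • P ≠ 0 := by
  haveI := hT.fracK
  have hPd : (tP y).natDegree ≤ 2 * n := bF_nd _
  have hQd : (tQ y).natDegree ≤ 2 * n := bF_nd _
  have hDd := natDegree_tD y
  obtain ⟨p0, z0, e0⟩ := h 0
  obtain ⟨p1, z1, e1⟩ := h 1
  obtain ⟨p2, z2, e2⟩ := h 2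
  obtain ⟨p3, z3, e3⟩ := h 3
  obtain ⟨p4, z4, e4⟩ := h 4
  have e0' : I1 (2 * n) ((tP y).map (Ideal.Quotient.mk p0.asIdeal)) ∧
      I2 (2 * n) ((tQ y).map (Ideal.Quotient.mk p0.asIdeal)) := by
    rw [tP_map, tQ_map]; exact e0
  have e1' : I1 (2 * n) ((tQ y).map (Ideal.Quotient.mk p1.asIdeal)) := by
    rw [tQ_map]; exact e1
  have e2' : I2 (2 * n) ((tP y).map (Ideal.Quotient.mk p2.asIdeal)) := by
    rw [tP_map]; exact e2
  have e3' : I1 (4 * n) ((tD y).map (Ideal.Quotient.mk p3.asIdeal)) := by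
    rw [tD_map]; exact e3
  have e4' : I2 (4 * n) ((tD y).map (Ideal.Quotient.mk p4.asIdeal)) := by
    rw [tD_map]; exact e4
  have iP : I1 (2 * n) ((tP y).map (algebraMap (𝓞 A) k)) :=
    lift_irr z0 hPd e0'.1.2 e0'.1.1
  have iQ : I1 (2 * n) ((tQ y).map (algebraMap (𝓞 A) k)) :=
    lift_irr z1 hQd e1'.2 e1'.1
  have iD : I1 (4 * n) ((tD y).map (algebraMap (𝓞 A) k)) :=
    lift_irr z3 hDd e3'.2 e3'.1
  have nP : NotNorm ((tP y).map (algebraMap (𝓞 A) k)) := by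
    obtain ⟨k1, π, k2, k3, k4⟩ := e2'
    exact lift_norm (by omega) z2 hPd k1 k2 k3 k4 iP.1 iP.2
  have nD : NotNorm ((tD y).map (algebraMap (𝓞 A) k)) := by
    obtain ⟨k1, π, k2, k3, k4⟩ := e4'
    exact lift_norm (by omega) z4 hDd k1 k2 k3 k4 iD.1 iD.2
  have hco := cop_of_red (by omega) hPd hQd e0'.1 e0'.2 iP iQ
  have eD : (tD y).map (algebraMap (𝓞 A) k) = (w ^ 2 - p - q) ^ 2 - 4 * (p * q) := by
    rw [hp, hq, hw, tD]
    simp only [Polynomial.map_sub, Polynomial.map_pow, Polynomial.map_mul, Polynomial.map_ofNat]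
  rw [eD] at iD nD
  rw [← hp] at iP nP hco
  rw [← hq] at iQ hco
  refine ⟨iP, iQ, iD, hco, ?_, ?_⟩
  · exact tate_one hT two_ne_zero iP.1 iQ.1 iP.1.separable iQ.1.separable iD.1 iD.1.separable
      (notNorm_mul iP.1 nP hco iQ.1.ne_zero) nD
  · exact inf_order two_ne_zero iP.1 iQ.1 hco iD.1

theorem Hev_Z {n : ℕ} (hn : 2 ≤ n) (s : Fin 5) {p : HeightOneSpectrum (𝓞 A)}
    (hp : p ∈ Zset A k (8 * n + 2)) :
    (1 / ((64 * n * (8 * n) ^ n : ℕ) : ℝ)) * (Nat.card (𝓞 A ⧸ p.asIdeal) : ℝ) ^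
      (Fintype.card (Ix n)) ≤ ((Hev n s (𝓞 A ⧸ p.asIdeal)).ncard : ℝ) := by
  haveI := p.isMaximal
  letI : Field (𝓞 A ⧸ p.asIdeal) := Ideal.Quotient.field p.asIdeal
  haveI : Finite (𝓞 A ⧸ p.asIdeal) := Ideal.finiteQuotientOfFreeOfNeBot _ p.ne_bot
  have h1 := Hev_card (F := 𝓞 A ⧸ p.asIdeal) hn hp.2.2 (two_quot A k hp) s
  have hc : Fintype.card (Ix n) = 5 * n + 3 := by
    rw [Fintype.card_sum, Fintype.card_sum, Fintype.card_fin, Fintype.card_fin]
    omega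
  have hD : (0 : ℝ) < ((64 * n * (8 * n) ^ n : ℕ) : ℝ) := by
    have : 0 < 64 * n * (8 * n) ^ n := by positivity
    exact_mod_cast this
  rw [hc, one_div, inv_mul_le_iff₀ hD]
  exact_mod_cast h1

variable (A k) in
theorem dens_three {n : ℕ} (hn : 2 ≤ n) (η : ℝ) (hη : 0 < η) :
    ∃ M : Ideal (𝓞 A), M ≠ ⊥ ∧
      (1 - η) * (Nat.card (𝓞 A ⧸ M) : ℝ) ^ (Fintype.card (Ix n)) ≤
      (({x : Ix n → 𝓞 A ⧸ M | ∀ s : Fin 5,
        ∃ p ∈ Zset A k (8 * n + 2), ∀ y : Ix n → 𝓞 A,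
          (∀ j, Ideal.Quotient.mk M (y j) = x j) →
          (fun j => Ideal.Quotient.mk p.asIdeal (y j)) ∈ Hev n s (𝓞 A ⧸ p.asIdeal)}).ncard : ℝ) := by
  refine density (Zset A k (8 * n + 2)) (Zset_inf A k _)
    (fun s p => Hev n s (𝓞 A ⧸ p.asIdeal)) (c := 1 / ((64 * n * (8 * n) ^ n : ℕ) : ℝ)) ?_ ?_ η hη
  · have : 0 < 64 * n * (8 * n) ^ n := by positivity
    have : (0 : ℝ) < ((64 * n * (8 * n) ^ n : ℕ) : ℝ) := by exact_mod_cast this
    positivity
  · intro s p hp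
    exact Hev_Z hn s hp

end main

end Pool.Agent.X243.Tate
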