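import Pool.Agent.X243.Tate.OneTor

/-!
The family over a rational function field `κ(s)`.
-/

set_option autoImplicit false
set_option linter.all false

open Polynomial
open scoped Classical

namespace Pool.Agent.X243.Tate

section kap

variable {κ k : Type} [Field κ] [Field k] [Algebra κ[X] k] [IsFractionRing κ[X] k]

/-- The inclusion of the constants. -/
noncomputable def cst (κ k : Type) [Field κ] [Field k] [Algebra κ[X] k] : κ →+* k :=
  (algebraMap κ[X] k).comp C

theorem irr_frac {G : κ[X][X]} (hG : Irreducible (Bivariate.swap G)) {n : ℕ} {c : κ} (hc : c ≠ 0)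
    (hcoeff : G.coeff n = C c) : Irreducible (G.map (algebraMap κ[X] k)) := by
  have hG' : Irreducible G := (MulEquiv.irreducible_iff (Bivariate.swap (R := κ))).1 hG
  have hprim : G.IsPrimitive := by
    intro r hr
    rw [C_dvd_iff_dvd_coeff] at hr
    have h1 := hr n
    rw [hcoeff] at h1
    exact isUnit_of_dvd_unit h1 (isUnit_C.2 (isUnit_iff_ne_zero.2 hc))
  exact (hprim.irreducible_iff_irreducible_map_fraction_map (K := k)).1 hG'

variable (q w : κ[X])

noncomputable def Gq : κ[X][X] := q.map C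
noncomputable def Gp : κ[X][X] := (w ^ 2 - q).map C - C X
noncomputable def Gd : κ[X][X] := (C X) ^ 2 - 4 * (Gp q w * Gq q)

theorem map_Gq : (Gq q).map (algebraMap κ[X] k) = q.map (cst κ k) := by
  rw [Gq, Polynomial.map_map]; rfl

theorem map_Gp : (Gp q w).map (algebraMap κ[X] k) =
    (w.map (cst κ k)) ^ 2 - q.map (cst κ k) - C (algebraMap κ[X] k X) := by
  rw [Gp, Polynomial.map_sub, Polynomial.map_map, Polynomial.map_sub, Polynomial.map_pow, map_C]
  rfl

theorem map_Gd : (Gd q w).map (algebraMap κ[X] k) = (C (algebraMap κ[X] k X)) ^ 2 -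
    4 * (((w.map (cst κ k)) ^ 2 - q.map (cst κ k) - C (algebraMap κ[X] k X)) *
      q.map (cst κ k)) := by
  rw [Gd, Polynomial.map_sub, Polynomial.map_pow, map_C, Polynomial.map_mul, Polynomial.map_mul,
    map_Gp, map_Gq]
  have : Polynomial.map (algebraMap κ[X] k) 4 = 4 := by simp
  rw [this]

variable {q w}

theorem irr_q (hq : Irreducible q) : Irreducible (q.map (cst κ k)) := by
  rw [← map_Gq]
  refine irr_frac (n := q.natDegree) (c := q.leadingCoeff) ?_ (leadingCoeff_ne_zero.2 hq.ne_zero)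
    ?_
  · rw [Gq, Bivariate.swap_map_C]
    exact (prime_C_iff.2 hq.prime).irreducible
  · rw [Gq, coeff_map]; rfl

theorem swap_Gp : Bivariate.swap (Gp q w) = -(X - C (w ^ 2 - q)) := by
  rw [Gp, map_sub, Bivariate.swap_map_C, Bivariate.swap_X]
  ring

theorem coeff_wq (hdeg : q.natDegree < 2 * w.natDegree) :
    (w ^ 2 - q).natDegree = 2 * w.natDegree ∧
    (w ^ 2 - q).coeff (2 * w.natDegree) = w.leadingCoeff ^ 2 := by
  have h1 : (w ^ 2).natDegree = 2 * w.natDegree := natDegree_pow _ _
  have h2 : (w ^ 2 - q).natDegree = 2 * w.natDegree := by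
    rw [natDegree_sub_eq_left_of_natDegree_lt (by rw [h1]; exact hdeg), h1]
  refine ⟨h2, ?_⟩
  rw [coeff_sub, coeff_eq_zero_of_natDegree_lt hdeg, sub_zero, ← h1, coeff_natDegree,
    leadingCoeff_pow]

theorem Gp_top (hdeg : q.natDegree < 2 * w.natDegree) :
    (Gp q w).natDegree = 2 * w.natDegree ∧
    (Gp q w).coeff (2 * w.natDegree) = C (w.leadingCoeff ^ 2) := by
  obtain ⟨h1, h2⟩ := coeff_wq hdeg
  have h3 : ((w ^ 2 - q).map (C : κ →+* κ[X])).natDegree = 2 * w.natDegree := by
    rw [natDegree_map_eq_of_injective C_injective, h1]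
  constructor
  · rw [Gp, natDegree_sub_eq_left_of_natDegree_lt, h3]
    rw [h3, natDegree_C]; omega
  · rw [Gp, coeff_sub, coeff_map, h2, coeff_C, if_neg (by omega), sub_zero]

theorem w_ne (hdeg : q.natDegree < 2 * w.natDegree) : w ≠ 0 := by
  rintro rfl
  rw [natDegree_zero] at hdeg
  omega

theorem irr_p (hdeg : q.natDegree < 2 * w.natDegree) :
    Irreducible ((w.map (cst κ k)) ^ 2 - q.map (cst κ k) - C (algebraMap κ[X] k X)) := by
  rw [← map_Gp]
  refine irr_frac (n := 2 * w.natDegree) (c := w.leadingCoeff ^ 2) ?_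
    (pow_ne_zero 2 (leadingCoeff_ne_zero.2 (w_ne hdeg))) (Gp_top hdeg).2
  rw [swap_Gp]
  have h : Irreducible (X - C (w ^ 2 - q) : κ[X][X]) := irreducible_X_sub_C _
  have ha : Associated (X - C (w ^ 2 - q) : κ[X][X]) (-(X - C (w ^ 2 - q))) :=
    ⟨-1, by rw [Units.val_neg, Units.val_one, mul_neg, mul_one]⟩
  exact ha.irreducible h

theorem swap_Gd : Bivariate.swap (Gd q w) =
    X ^ 2 + C (4 * q) * X + C (-(4 * (w ^ 2 - q) * q)) := by
  rw [Gd, map_sub, map_pow, Bivariate.swap_X, map_mul, map_mul, swap_Gp, Gq, Bivariate.swap_map_C,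
    map_ofNat]
  simp only [C_mul, C_neg, C_sub, C_pow]
  have : (C 4 : κ[X][X]) = 4 := rfl
  rw [this]
  ring

theorem irr_d (h2 : (2 : κ) ≠ 0) (hq : Odd q.natDegree)
    (hdeg : q.natDegree < 2 * w.natDegree) :
    Irreducible ((C (algebraMap κ[X] k X)) ^ 2 -
      4 * (((w.map (cst κ k)) ^ 2 - q.map (cst κ k) - C (algebraMap κ[X] k X)) *
        q.map (cst κ k))) := by
  have hw := w_ne hdeg
  have hq0 : q ≠ 0 := by
    rintro rfl
    rw [natDegree_zero] at hq
    exact absurd hq (by decide)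
  have h4 : (4 : κ) ≠ 0 := by
    have : (4 : κ) = 2 * 2 := by norm_num
    rw [this]; exact mul_ne_zero h2 h2
  rw [← map_Gd]
  refine irr_frac (n := 2 * w.natDegree + q.natDegree)
    (c := -(4 * (w.leadingCoeff ^ 2 * q.leadingCoeff))) ?_
    (neg_ne_zero.2 (mul_ne_zero h4 (mul_ne_zero (pow_ne_zero 2 (leadingCoeff_ne_zero.2 hw))
      (leadingCoeff_ne_zero.2 hq0)))) ?_
  · rw [swap_Gd]
    have hdg : (X ^ 2 + C (4 * q) * X + C (-(4 * (w ^ 2 - q) * q)) : κ[X][X]).natDegree = 2 := by
      have := natDegree_quadratic (a := (1 : κ[X])) (b := 4 * q) (c := -(4 * (w ^ 2 - q) * q))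
        one_ne_zero
      rwa [C_1, one_mul] at this
    have hm : (X ^ 2 + C (4 * q) * X + C (-(4 * (w ^ 2 - q) * q)) : κ[X][X]).Monic := by
      have := leadingCoeff_quadratic (a := (1 : κ[X])) (b := 4 * q) (c := -(4 * (w ^ 2 - q) * q))
        one_ne_zero
      rwa [C_1, one_mul] at this
    rw [hm.irreducible_iff_roots_eq_zero_of_degree_le_three (by omega) (by omega)]
    apply Multiset.eq_zero_of_forall_notMem
    intro z hz
    rw [mem_roots hm.ne_zero, IsRoot.def] at hz
    simp only [eval_add, eval_mul, eval_pow, eval_X, eval_C] at hz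
    have hsq : (z + 2 * q) ^ 2 = C 4 * (w ^ 2 * q) := by
      have : (C 4 : κ[X]) = 4 := rfl
      rw [this]
      linear_combination hz
    have e := congrArg natDegree hsq
    rw [natDegree_pow, natDegree_C_mul h4, natDegree_mul (pow_ne_zero 2 hw) hq0,
      natDegree_pow] at e
    obtain ⟨j, hj⟩ := hq
    omega
  · obtain ⟨g1, g2⟩ := Gp_top hdeg
    have g3 : (Gq q).natDegree = q.natDegree := natDegree_map_eq_of_injective C_injective q
    have g4 : (Gq q).leadingCoeff = C q.leadingCoeff :=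
      leadingCoeff_map_of_injective C_injective q
    have g5 : (Gp q w * Gq q).coeff (2 * w.natDegree + q.natDegree) =
        C (w.leadingCoeff ^ 2) * C q.leadingCoeff := by
      rw [← g4, ← g2]
      have := coeff_mul_degree_add_degree (Gp q w) (Gq q)
      rw [g1, g3] at this
      rw [this]
      congr 1
      rw [leadingCoeff, g1]
    have h5 : (4 : κ[X][X]) = C (C 4) := rfl
    rw [Gd, coeff_sub, ← C_pow, coeff_C, if_neg (by omega), zero_sub, h5, coeff_C_mul, g5]
    simp only [C_neg, C_mul]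

end kap

end Pool.Agent.X243.Tate
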