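import Pool.Agent.X243.Tate.Ind2

/-!
An explicit example over the rational numbers for every odd degree.
-/

set_option autoImplicit false
set_option linter.all false

open Polynomial
open scoped Classical

namespace Pool.Agent.X243.Tate

/-- `ℓ u / v` is not a power with exponent at least two if the prime `ℓ` divides neither `u` nor `v`. -/
theorem not_pow {ℓ : ℕ} [hℓ : Fact ℓ.Prime] {u v : ℤ} (hu : ¬ (ℓ : ℤ) ∣ u) (hv : ¬ (ℓ : ℤ) ∣ v)
    {a : ℚ} (ha : a * v = ℓ * u) {p : ℕ} (hp : p.Prime) (b : ℚ) : b ^ p ≠ a := by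
  intro h
  have hu0 : (u : ℚ) ≠ 0 := by
    intro h0
    apply hu
    have : u = 0 := by exact_mod_cast h0
    rw [this]; exact dvd_zero _
  have hv0 : (v : ℚ) ≠ 0 := by
    intro h0
    apply hv
    have : v = 0 := by exact_mod_cast h0
    rw [this]; exact dvd_zero _
  have hl0 : (ℓ : ℚ) ≠ 0 := by exact_mod_cast hℓ.out.ne_zero
  have ha0 : a ≠ 0 := by
    rintro rfl
    rw [zero_mul] at ha
    exact mul_ne_zero hl0 hu0 ha.symm
  have hb0 : b ≠ 0 := by
    rintro rfl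
    rw [zero_pow hp.ne_zero] at h
    exact ha0 h.symm
  have h1 : padicValRat ℓ (a * v) = padicValRat ℓ (ℓ * u) := by rw [ha]
  rw [padicValRat.mul ha0 hv0, padicValRat.mul hl0 hu0, ← h, padicValRat.pow,
    padicValRat.self hℓ.out.one_lt, padicValRat.of_int, padicValRat.of_int,
    padicValInt.eq_zero_of_not_dvd hu, padicValInt.eq_zero_of_not_dvd hv] at h1
  have h3 : (p : ℤ) ∣ 1 := ⟨padicValRat ℓ b, by simpa using h1.symm⟩
  have h4 : p ∣ 1 := by exact_mod_cast h3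
  exact hp.one_lt.ne' (Nat.dvd_one.1 h4)

/-- A binomial `c (X ^ n - a)`. -/
theorem binomial {n : ℕ} (hn : Odd n) {ℓ : ℕ} [hℓ : Fact ℓ.Prime] {u v : ℤ}
    (hu : ¬ (ℓ : ℤ) ∣ u) (hv : ¬ (ℓ : ℤ) ∣ v) {a : ℚ} (ha : a * v = ℓ * u) {c : ℚ} (hc : c ≠ 0)
    {f : ℚ[X]} (hf : f = C c * (X ^ n - C a)) :
    Irreducible f ∧ f.Separable ∧ f.natDegree = n := by
  have h1 : Irreducible (X ^ n - C a : ℚ[X]) :=
    X_pow_sub_C_irreducible_of_odd hn fun p hp _ b => not_pow hu hv ha hp b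
  have h3 : Irreducible f := by
    rw [hf, irreducible_isUnit_mul (isUnit_C.2 (isUnit_iff_ne_zero.2 hc))]
    exact h1
  refine ⟨h3, h3.separable, ?_⟩
  rw [hf, natDegree_C_mul hc, natDegree_X_pow_sub_C]

end Pool.Agent.X243.Tate
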