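import Pool.Agent.Y160.T3.IrrCount

/-!
The number of polynomials over a finite field which are irreducible, or have an irreducible factor of
codegree one.
-/

set_option autoImplicit false
set_option linter.all false

open Polynomial
open scoped Classical

namespace Pool.Agent.X243.Tate

open Pool.Agent.Y160.T3

section count

variable (F : Type) [Field F] [Fintype F]

/-- The irreducible polynomials of degree `N`. -/
def T1 (N : ℕ) : Set (Fin (N + 1) → F) := {y | Irreducible (bF y) ∧ (bF y).natDegree = N}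

/-- The polynomials of degree `N` with an irreducible factor of degree `N - 1`. -/
def T2 (N : ℕ) : Set (Fin (N + 1) → F) :=
  {y | (bF y).natDegree = N ∧ ∃ π : F[X], Irreducible π ∧ π.natDegree + 1 = N ∧ π ∣ bF y}

variable {F}

theorem bF_coeffs {N : ℕ} {f : F[X]} (hf : f.natDegree ≤ N) :
    bF (fun j : Fin (N + 1) => f.coeff j) = f := by
  apply bF_of
  rw [degree_lt_iff_coeff_zero]
  intro m hm
  exact coeff_eq_zero_of_natDegree_lt (by omega)

/-- A lower bound from an injective map. -/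
theorem ncard_ge {α β : Type} [Fintype α] [Finite β] (Φ : α → β) (hΦ : Function.Injective Φ)
    (S : Set β) (h : ∀ x, Φ x ∈ S) : Fintype.card α ≤ S.ncard := by
  have h1 : (Set.range Φ).ncard = Fintype.card α := by
    rw [← Set.image_univ, Set.ncard_image_of_injective _ hΦ, Set.ncard_univ,
      Nat.card_eq_fintype_card]
  rw [← h1]
  apply Set.ncard_le_ncard _ (Set.toFinite S)
  rintro _ ⟨x, rfl⟩
  exact h x

theorem good_one {g : F[X]} (hg : Irreducible g) : GoodP 1 g :=
  ⟨hg, fun N hN h => absurd (Nat.dvd_one.1 h) hN.one_lt.ne'⟩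

theorem irr_card {N : ℕ} (hN : 0 < N) (hq : 2 * N + 2 ≤ Fintype.card F) :
    Fintype.card F ^ N ≤ 2 * N * Fintype.card {a : Fin N → F // GoodP 1 (mF a)} := by
  have := irr_count (m := N) (R := 1) hN odd_one F (one_dvd _) (by omega)
  rw [one_mul] at this
  rwa [Fintype.card_subtype]

theorem two_le_units (hq : 2 ≤ Fintype.card F) : Fintype.card F ≤ 2 * Fintype.card Fˣ := by
  rw [Fintype.card_units]
  omega

theorem smul_inj {u u' : Fˣ} {f f' : F[X]} (hf : f.Monic) (hf' : f'.Monic)
    (h : C (u : F) * f = C (u' : F) * f') : u = u' ∧ f = f' := by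
  have h1 := congrArg leadingCoeff h
  rw [leadingCoeff_mul, leadingCoeff_mul, hf.leadingCoeff, hf'.leadingCoeff, leadingCoeff_C,
    leadingCoeff_C, mul_one, mul_one] at h1
  have h2 : u = u' := Units.ext h1
  refine ⟨h2, ?_⟩
  rw [h2] at h
  exact mul_left_cancel₀ (C_ne_zero.2 u'.ne_zero) h

theorem T1_card {N : ℕ} (hN : 0 < N) (hq : 2 * N + 2 ≤ Fintype.card F) :
    Fintype.card F ^ (N + 1) ≤ 4 * N * (T1 F N).ncard := by
  let Φ : Fˣ × {a : Fin N → F // GoodP 1 (mF a)} → (Fin (N + 1) → F) :=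
    fun x j => (C (x.1 : F) * mF x.2.1).coeff j
  have hb : ∀ x, bF (Φ x) = C (x.1 : F) * mF x.2.1 := by
    intro x
    apply bF_coeffs
    refine (natDegree_C_mul_le _ _).trans ?_
    rw [mF_natDegree]
  have hinj : Function.Injective Φ := by
    rintro ⟨u, a⟩ ⟨u', a'⟩ h
    have h1 := hb (u, a)
    rw [h, hb (u', a')] at h1
    obtain ⟨h2, h3⟩ := smul_inj (mF_monic _) (mF_monic _) h1
    exact Prod.ext h2.symm (Subtype.ext (mF_inj h3).symm)
  have hmem : ∀ x, Φ x ∈ T1 F N := by
    rintro ⟨u, a⟩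
    show Irreducible (bF (Φ (u, a))) ∧ (bF (Φ (u, a))).natDegree = N
    rw [hb]
    refine ⟨(irreducible_isUnit_mul (isUnit_C.2 u.isUnit)).2 a.2.1, ?_⟩
    rw [natDegree_C_mul u.ne_zero, mF_natDegree]
  have h1 := ncard_ge Φ hinj _ hmem
  rw [Fintype.card_prod] at h1
  have h2 := irr_card hN hq
  have h3 := two_le_units (F := F) (by omega)
  calc Fintype.card F ^ (N + 1) = Fintype.card F ^ N * Fintype.card F := pow_succ _ _
    _ ≤ (2 * N * Fintype.card {a : Fin N → F // GoodP 1 (mF a)}) * (2 * Fintype.card Fˣ) :=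
        Nat.mul_le_mul h2 h3
    _ = 4 * N * (Fintype.card Fˣ * Fintype.card {a : Fin N → F // GoodP 1 (mF a)}) := by ring
    _ ≤ 4 * N * (T1 F N).ncard := Nat.mul_le_mul_left _ h1

theorem T2_card {M : ℕ} (hM : 2 ≤ M) (hq : 2 * M + 2 ≤ Fintype.card F) :
    Fintype.card F ^ (M + 2) ≤ 4 * (M + 1) * (T2 F (M + 1)).ncard := by
  let Φ : Fˣ × F × {a : Fin M → F // GoodP 1 (mF a)} → (Fin (M + 1 + 1) → F) :=
    fun x j => (C (x.1 : F) * ((X - C x.2.1) * mF x.2.2.1)).coeff j
  have hdeg : ∀ x : Fˣ × F × {a : Fin M → F // GoodP 1 (mF a)},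
      (C (x.1 : F) * ((X - C x.2.1) * mF x.2.2.1)).natDegree = M + 1 := by
    intro x
    rw [natDegree_C_mul x.1.ne_zero, natDegree_mul (X_sub_C_ne_zero _) (mF_monic _).ne_zero,
      natDegree_X_sub_C, mF_natDegree]
    ring
  have hb : ∀ x, bF (Φ x) = C (x.1 : F) * ((X - C x.2.1) * mF x.2.2.1) := by
    intro x
    apply bF_coeffs
    rw [hdeg]
  have hinj : Function.Injective Φ := by
    rintro ⟨u, θ, a⟩ ⟨u', θ', a'⟩ h
    have h1 := hb (u, θ, a)
    rw [h, hb (u', θ', a')] at h1
    obtain ⟨h2, h3⟩ := smul_inj ((monic_X_sub_C _).mul (mF_monic _))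
      ((monic_X_sub_C _).mul (mF_monic _)) h1
    simp only at h2 h3
    have h4 : θ' = θ := by
      have h5 : (X - C θ') ∣ (X - C θ) * mF a.1 := by
        rw [← h3]; exact dvd_mul_right _ _
      rcases (irreducible_X_sub_C θ').prime.dvd_or_dvd h5 with h6 | h6
      · rw [dvd_iff_isRoot, IsRoot.def, eval_sub, eval_X, eval_C, sub_eq_zero] at h6
        exact h6
      · exfalso
        have h7 := a.2.1.dvd_iff.1 h6
        rcases h7 with h8 | h8
        · have := natDegree_eq_zero_of_isUnit h8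
          rw [natDegree_X_sub_C] at this
          omega
        · have := natDegree_eq_of_degree_eq (degree_eq_degree_of_associated h8)
          rw [natDegree_X_sub_C, mF_natDegree] at this
          omega
    subst h4
    have h5 := mul_left_cancel₀ (X_sub_C_ne_zero θ') h3
    exact Prod.ext h2.symm (Prod.ext rfl (Subtype.ext (mF_inj h5).symm))
  have hmem : ∀ x, Φ x ∈ T2 F (M + 1) := by
    intro x
    show (bF (Φ x)).natDegree = M + 1 ∧ ∃ π : F[X], Irreducible π ∧ π.natDegree + 1 = M + 1 ∧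
      π ∣ bF (Φ x)
    rw [hb]
    refine ⟨hdeg x, mF x.2.2.1, x.2.2.2.1, by rw [mF_natDegree], ?_⟩
    exact (dvd_mul_left _ _).mul_left _
  have h1 := ncard_ge Φ hinj _ hmem
  rw [Fintype.card_prod, Fintype.card_prod] at h1
  have h2 := irr_card (F := F) (N := M) (by omega) hq
  have h3 := two_le_units (F := F) (by omega)
  calc Fintype.card F ^ (M + 2) = Fintype.card F ^ M * Fintype.card F * Fintype.card F := by ring
    _ ≤ (2 * M * Fintype.card {a : Fin M → F // GoodP 1 (mF a)}) * Fintype.card F *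
          (2 * Fintype.card Fˣ) := Nat.mul_le_mul (Nat.mul_le_mul h2 le_rfl) h3
    _ = 4 * M * (Fintype.card Fˣ * (Fintype.card F *
          Fintype.card {a : Fin M → F // GoodP 1 (mF a)})) := by ring
    _ ≤ 4 * (M + 1) * (T2 F (M + 1)).ncard := Nat.mul_le_mul (by omega) h1

end count

end Pool.Agent.X243.Tate
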