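import Pool.Agent.X243.Tate.Sieve

/-!
Properties which hold for a positive proportion of the residue classes modulo infinitely many primes.
-/

set_option autoImplicit false
set_option linter.all false

open IsDedekindDomain NumberField
open scoped Classical

namespace Pool.Agent.X243.Tate

theorem ncard_compl_le {α : Type} [Finite α] {σ : Type} [Fintype σ] (S : σ → Set α) :
    ({x | ∀ s, x ∈ S s}ᶜ : Set α).ncard ≤ ∑ s, ((S s)ᶜ).ncard := by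
  haveI := Fintype.ofFinite α
  have h1 : ({x | ∀ s, x ∈ S s}ᶜ : Set α) = ((Finset.univ.biUnion fun s =>
      ((S s)ᶜ).toFinset : Finset α) : Set α) := by
    ext x
    simp
  rw [h1, Set.ncard_coe_finset]
  refine Finset.card_biUnion_le.trans (le_of_eq ?_)
  refine Finset.sum_congr rfl fun s _ => ?_
  rw [Set.ncard_eq_toFinset_card']

theorem density {A : Type} [Field A] [NumberField A] {ι : Type} [Fintype ι] {σ : Type} [Fintype σ]
    (Z : Set (HeightOneSpectrum (𝓞 A))) (hZ : Z.Infinite)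
    (G : σ → ∀ p : HeightOneSpectrum (𝓞 A), Set (ι → 𝓞 A ⧸ p.asIdeal)) {c : ℝ} (hc : 0 < c)
    (hG : ∀ s, ∀ p ∈ Z, c * (Nat.card (𝓞 A ⧸ p.asIdeal) : ℝ) ^ (Fintype.card ι) ≤
      ((G s p).ncard : ℝ)) (η : ℝ) (hη : 0 < η) :
    ∃ M : Ideal (𝓞 A), M ≠ ⊥ ∧ (1 - η) * (Nat.card (𝓞 A ⧸ M) : ℝ) ^ (Fintype.card ι) ≤
      (({x : ι → 𝓞 A ⧸ M | ∀ s, ∃ p ∈ Z, ∀ y : ι → 𝓞 A, (∀ j, Ideal.Quotient.mk M (y j) = x j) →
        (fun j => Ideal.Quotient.mk p.asIdeal (y j)) ∈ G s p}).ncard : ℝ) := by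
  obtain ⟨c', hc'⟩ : ∃ c' : ℝ, c' = min c 1 := ⟨_, rfl⟩
  have hc0 : 0 < c' := hc' ▸ lt_min hc one_pos
  have hc1 : c' ≤ 1 := hc' ▸ min_le_right _ _
  have hcc : c' ≤ c := hc' ▸ min_le_left _ _
  have hσ : (0 : ℝ) < Fintype.card σ + 1 := by positivity
  obtain ⟨r, hr⟩ := exists_pow_lt_of_lt_one (div_pos hη hσ) (show 1 - c' < 1 by linarith)
  have hpow0 : 0 ≤ (1 - c') ^ r := pow_nonneg (by linarith) r
  have hr' : (Fintype.card σ : ℝ) * (1 - c') ^ r ≤ η := by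
    rw [lt_div_iff₀ hσ] at hr
    nlinarith
  obtain ⟨P, hPinj, hP⟩ : ∃ P : Fin r → HeightOneSpectrum (𝓞 A), Function.Injective P ∧
      ∀ i, P i ∈ Z := by
    refine ⟨fun i => (hZ.natEmbedding _ i.1).1, ?_, fun i => (hZ.natEmbedding _ i.1).2⟩
    intro i j hij
    exact Fin.ext ((hZ.natEmbedding _).injective (Subtype.ext hij))
  have hImax : ∀ i, ((P i).asIdeal).IsMaximal := fun i => (P i).isMaximal
  have hIne : ∀ i j, i ≠ j → (P i).asIdeal ≠ (P j).asIdeal := by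
    intro i j hij h
    exact hij (hPinj (HeightOneSpectrum.ext h))
  have hIfin : ∀ i, Finite (𝓞 A ⧸ (P i).asIdeal) := fun i =>
    Ideal.finiteQuotientOfFreeOfNeBot _ (P i).ne_bot
  have hM0 : (⨅ i, (P i).asIdeal) ≠ ⊥ := by
    have h1 : ∏ i, (P i).asIdeal ≤ ⨅ i, (P i).asIdeal := by
      rw [← Finset.inf_univ_eq_iInf]
      exact Ideal.prod_le_inf
    have h2 : ∏ i, (P i).asIdeal ≠ ⊥ := by
      rw [← Ideal.zero_eq_bot]
      exact Finset.prod_ne_zero_iff.2 fun i _ => (P i).ne_bot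
    intro h
    rw [h] at h1
    exact h2 (le_bot_iff.1 h1)
  refine ⟨⨅ i, (P i).asIdeal, hM0, ?_⟩
  have key := fun s => sieve (fun i => (P i).asIdeal) hImax hIne hIfin (fun i => G s (P i)) hc1
    (fun i => (mul_le_mul_of_nonneg_right hcc (by positivity)).trans (hG s (P i) (hP i)))
  haveI : Finite (𝓞 A ⧸ ⨅ i, (P i).asIdeal) := Ideal.finiteQuotientOfFreeOfNeBot _ hM0
  set T : ℝ := (Nat.card (𝓞 A ⧸ ⨅ i, (P i).asIdeal) : ℝ) ^ (Fintype.card ι) with hT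
  have hT0 : 0 ≤ T := by positivity
  let S : σ → Set (ι → 𝓞 A ⧸ ⨅ i, (P i).asIdeal) := fun s =>
    {x | ∃ i, ∀ y : ι → 𝓞 A, (∀ j, Ideal.Quotient.mk _ (y j) = x j) →
      (fun j => Ideal.Quotient.mk (P i).asIdeal (y j)) ∈ G s (P i)}
  have hS : ∀ s, (1 - (1 - c') ^ r) * T ≤ ((S s).ncard : ℝ) := fun s => (key s).2
  have hcard : ∀ U : Set (ι → 𝓞 A ⧸ ⨅ i, (P i).asIdeal), (U.ncard : ℝ) + (Uᶜ.ncard : ℝ) = T := by
    intro U
    have h1 := Set.ncard_add_ncard_compl U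
    rw [Nat.card_fun, Nat.card_eq_fintype_card (α := ι)] at h1
    rw [hT]
    exact_mod_cast h1
  have hSc : ∀ s, (((S s)ᶜ).ncard : ℝ) ≤ (1 - c') ^ r * T := by
    intro s
    have h1 := hcard (S s)
    have h2 := hS s
    linarith
  have hsub : {x | ∀ s, x ∈ S s} ⊆ {x : ι → 𝓞 A ⧸ ⨅ i, (P i).asIdeal | ∀ s, ∃ p ∈ Z,
      ∀ y : ι → 𝓞 A, (∀ j, Ideal.Quotient.mk (⨅ i, (P i).asIdeal) (y j) = x j) →
        (fun j => Ideal.Quotient.mk p.asIdeal (y j)) ∈ G s p} := by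
    intro x hx s
    obtain ⟨i, hi⟩ := hx s
    exact ⟨P i, hP i, hi⟩
  have h1 : ((({x | ∀ s, x ∈ S s}ᶜ : Set (ι → 𝓞 A ⧸ ⨅ i, (P i).asIdeal))).ncard : ℝ) ≤ η * T := by
    have h2 := ncard_compl_le S
    have h3 : ((({x | ∀ s, x ∈ S s}ᶜ : Set (ι → 𝓞 A ⧸ ⨅ i, (P i).asIdeal))).ncard : ℝ) ≤
        ∑ s, (((S s)ᶜ).ncard : ℝ) := by exact_mod_cast h2
    refine h3.trans ((Finset.sum_le_sum fun s _ => hSc s).trans ?_)
    rw [Finset.sum_const, Finset.card_univ, nsmul_eq_mul, ← mul_assoc]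
    exact mul_le_mul_of_nonneg_right hr' hT0
  have h2 := hcard {x | ∀ s, x ∈ S s}
  have h3 : ((({x | ∀ s, x ∈ S s} : Set (ι → 𝓞 A ⧸ ⨅ i, (P i).asIdeal))).ncard : ℝ) ≤
      (({x : ι → 𝓞 A ⧸ ⨅ i, (P i).asIdeal | ∀ s, ∃ p ∈ Z,
      ∀ y : ι → 𝓞 A, (∀ j, Ideal.Quotient.mk (⨅ i, (P i).asIdeal) (y j) = x j) →
        (fun j => Ideal.Quotient.mk p.asIdeal (y j)) ∈ G s p}).ncard : ℝ) := by
    exact_mod_cast Set.ncard_le_ncard hsub (Set.toFinite _)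
  linarith

end Pool.Agent.X243.Tate
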