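import Pool.Agent.X243.Tate.Gauss
import Pool.Agent.TH115.ID.Defs

/-!
Irreducible polynomials over the fraction field of a Dedekind domain and their reductions.
-/

set_option autoImplicit false
set_option linter.all false

open Polynomial IsLocalRing IsDedekindDomain
open scoped Classical

namespace Pool.Agent.X243.Tate

section oddirr

theorem odd_irr {K1 K2 : Type} [Field K1] [Field K2] [Algebra K1 K2] [FiniteDimensional K1 K2]
    (h2 : Module.finrank K1 K2 ≤ 2) {π : K1[X]} (hπ : Irreducible π) (hodd : Odd π.natDegree) :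
    Irreducible (π.map (algebraMap K1 K2)) := by
  have hpos : 0 < π.natDegree := hodd.pos
  have hne : π.map (algebraMap K1 K2) ≠ 0 := by
    rw [Ne, Polynomial.map_eq_zero]; exact hπ.ne_zero
  have hnu : ¬ IsUnit (π.map (algebraMap K1 K2)) := by
    intro h
    have h1 := natDegree_eq_zero_of_isUnit h
    rw [natDegree_map] at h1
    omega
  obtain ⟨σ, hσ, hd⟩ := WfDvdMonoid.exists_irreducible_factor hnu hne
  haveI : Fact (Irreducible σ) := ⟨hσ⟩
  haveI : Module.Finite K2 (AdjoinRoot σ) := (AdjoinRoot.powerBasis hσ.ne_zero).finite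
  have hfr : Module.finrank K2 (AdjoinRoot σ) = σ.natDegree := by
    rw [(AdjoinRoot.powerBasis hσ.ne_zero).finrank, AdjoinRoot.powerBasis_dim hσ.ne_zero]
  haveI : Module.Finite K1 (AdjoinRoot σ) := Module.Finite.trans K2 _
  have htower : Module.finrank K1 K2 * Module.finrank K2 (AdjoinRoot σ) =
      Module.finrank K1 (AdjoinRoot σ) := Module.finrank_mul_finrank K1 K2 (AdjoinRoot σ)
  have hroot : aeval (AdjoinRoot.root σ) π = 0 := by
    have h1 : aeval (AdjoinRoot.root σ) (π.map (algebraMap K1 K2)) = 0 := by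
      obtain ⟨τ, hτ⟩ := hd
      rw [hτ, map_mul, AdjoinRoot.aeval_eq, AdjoinRoot.mk_self, zero_mul]
    rwa [aeval_map_algebraMap] at h1
  have hmin : (minpoly K1 (AdjoinRoot.root σ)).natDegree = π.natDegree := by
    have h1 : minpoly K1 (AdjoinRoot.root σ) ∣ π := minpoly.dvd _ _ hroot
    have h3 : Irreducible (minpoly K1 (AdjoinRoot.root σ)) :=
      minpoly.irreducible (Algebra.IsIntegral.isIntegral _)
    exact natDegree_eq_of_degree_eq (degree_eq_degree_of_associated (h3.associated_of_dvd hπ h1))
  have hdvd : π.natDegree ∣ Module.finrank K1 K2 * σ.natDegree := by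
    rw [← hmin, ← hfr, htower]
    exact minpoly.degree_dvd (Algebra.IsIntegral.isIntegral _)
  have hpos2 : 0 < Module.finrank K1 K2 := Module.finrank_pos
  have hdvd' : π.natDegree ∣ σ.natDegree := by
    have h3 : Module.finrank K1 K2 = 1 ∨ Module.finrank K1 K2 = 2 := by omega
    rcases h3 with h3 | h3
    · rwa [h3, one_mul] at hdvd
    · rw [h3] at hdvd
      exact (Nat.Coprime.dvd_mul_left hodd.coprime_two_right).1 hdvd
  have hσpos : 0 < σ.natDegree := hσ.natDegree_pos
  have hle := Nat.le_of_dvd hσpos hdvd'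
  have hass : Associated σ (π.map (algebraMap K1 K2)) := by
    obtain ⟨τ, hτ⟩ := hd
    have hτ0 : τ ≠ 0 := by
      rintro rfl
      rw [mul_zero] at hτ
      exact hne hτ
    have e := congrArg natDegree hτ
    rw [natDegree_map, natDegree_mul hσ.ne_zero hτ0] at e
    have hτd : τ.natDegree = 0 := by omega
    have hτu : IsUnit τ := by
      rw [eq_C_of_natDegree_eq_zero hτd] at hτ0 ⊢
      exact isUnit_C.2 (isUnit_iff_ne_zero.2 (C_ne_zero.1 hτ0))
    obtain ⟨u, hu⟩ := hτu
    exact ⟨u, by rw [hu, hτ]⟩
  exact hass.irreducible hσ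

end oddirr

section res

variable {O k L : Type} [CommRing O] [IsDedekindDomain O] [Field k] [Algebra O k]
  [IsFractionRing O k] [Field L] [Algebra k L] (v : HeightOneSpectrum O)
  (B : ValuationSubring L)

/-- `B` dominates the localization of `O` at `v`. -/
structure Dom (v : HeightOneSpectrum O) (k : Type) [Field k] [Algebra O k] [Algebra k L]
    (B : ValuationSubring L) : Prop where
  mem : ∀ x : O, algebraMap k L (algebraMap O k x) ∈ B
  non : ∀ x ∈ v.asIdeal, algebraMap k L (algebraMap O k x) ∈ B.nonunits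

theorem exists_Dom : ∃ B : ValuationSubring L, Dom v k B := by
  have hinj : Function.Injective ((algebraMap k L).comp (algebraMap O k)) := by
    rw [RingHom.coe_comp]
    exact (algebraMap k L).injective.comp (IsFractionRing.injective O k)
  obtain ⟨B, h1, h2⟩ := exists_dom ((algebraMap k L).comp (algebraMap O k)) hinj v.asIdeal
    v.isPrime.ne_top
  exact ⟨B, ⟨h1, h2⟩⟩

variable {v B} (hB : Dom v k B)

/-- The reduction of the elements of `O`. -/
noncomputable def rO (hB : Dom v k B) : O →+* B :=
  ((algebraMap k L).comp (algebraMap O k)).codRestrict B.toSubring hB.mem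

noncomputable def rB (hB : Dom v k B) : O →+* ResidueField B := (residue B).comp (rO hB)

theorem rB_zero {x : O} (hx : x ∈ v.asIdeal) : rB hB x = 0 := by
  show residue B (rO hB x) = 0
  rw [residue_eq_zero_iff, ← ValuationSubring.coe_mem_nonunits_iff]
  exact hB.non x hx

noncomputable def jB (hB : Dom v k B) : O ⧸ v.asIdeal →+* ResidueField B :=
  Ideal.Quotient.lift v.asIdeal (rB hB) fun x hx => rB_zero hB hx

theorem jB_mk (x : O) : jB hB (Ideal.Quotient.mk _ x) = rB hB x := rfl

theorem rB_ne {x : O} (hx : x ∉ v.asIdeal) : rB hB x ≠ 0 := by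
  haveI := v.isMaximal
  letI := Ideal.Quotient.field v.asIdeal
  intro h
  rw [← jB_mk hB, map_eq_zero] at h
  exact hx (Ideal.Quotient.eq_zero_iff_mem.1 h)

/-- The elements of `k` in `B` are congruent to elements of `O`. -/
theorem res_surj {c : k} (hc : algebraMap k L c ∈ B) :
    ∃ x : O, residue B ⟨algebraMap k L c, hc⟩ = rB hB x := by
  haveI := v.isMaximal
  have inv : ∀ d : O, d ∉ v.asIdeal → ∃ e : O, rB hB d * rB hB e = 1 := by
    intro d hd
    obtain ⟨e, he⟩ := Ideal.Quotient.exists_inv (I := v.asIdeal)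
      (a := Ideal.Quotient.mk _ d) (by rwa [Ne, Ideal.Quotient.eq_zero_iff_mem])
    obtain ⟨e, rfl⟩ := Ideal.Quotient.mk_surjective e
    refine ⟨e, ?_⟩
    rw [← jB_mk hB, ← jB_mk hB, ← map_mul, he, map_one]
  obtain ⟨n, ⟨d, hd⟩, h | h⟩ := HeightOneSpectrum.exists_primeCompl_mul_eq_or_mul_eq v c
  · obtain ⟨e, he⟩ := inv d hd
    refine ⟨n * e, ?_⟩
    have h1 : (⟨algebraMap k L c, hc⟩ : B) * rO hB d = rO hB n := by
      apply Subtype.ext
      show algebraMap k L c * algebraMap k L (algebraMap O k d) = algebraMap k L (algebraMap O k n)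
      rw [← map_mul, h]
    have h2 := congrArg (residue B) h1
    rw [map_mul] at h2
    have h3 : residue B ⟨algebraMap k L c, hc⟩ * rB hB d = rB hB n := h2
    rw [map_mul, ← h3, mul_assoc, he, mul_one]
  · have h1 : (⟨algebraMap k L c, hc⟩ : B) * rO hB n = rO hB d := by
      apply Subtype.ext
      show algebraMap k L c * algebraMap k L (algebraMap O k n) = algebraMap k L (algebraMap O k d)
      rw [← map_mul, h]
    have h2 := congrArg (residue B) h1
    rw [map_mul] at h2
    have h3 : residue B ⟨algebraMap k L c, hc⟩ * rB hB n = rB hB d := h2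
    have hn : n ∉ v.asIdeal := by
      intro hn
      rw [rB_zero hB hn, mul_zero] at h3
      exact rB_ne hB hd h3.symm
    obtain ⟨e, he⟩ := inv n hn
    refine ⟨d * e, ?_⟩
    rw [map_mul, ← h3, mul_assoc, he, mul_one]

/-- The residue field extension has degree at most the degree of the field extension. -/
theorem res_rank [FiniteDimensional k L] {n : ℕ} (hn : Module.finrank k L ≤ n) :
    letI := (jB hB).toAlgebra
    letI : Field (O ⧸ v.asIdeal) := by
      haveI := v.isMaximal
      exact Ideal.Quotient.field v.asIdeal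
    Module.rank (O ⧸ v.asIdeal) (ResidueField B) ≤ n := by
  letI alg := (jB hB).toAlgebra
  haveI := v.isMaximal
  letI : Field (O ⧸ v.asIdeal) := Ideal.Quotient.field v.asIdeal
  show Module.rank (O ⧸ v.asIdeal) (ResidueField B) ≤ n
  refine rank_le fun s hs => ?_
  have hlift : ∀ x : s, ∃ y : B, residue B y = x := fun x => residue_surjective (x : ResidueField B)
  choose y hy using hlift
  have hLI : LinearIndependent k (fun x : s => ((y x : B) : L)) := by
    rw [Fintype.linearIndependent_iff]
    intro g hg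
    by_contra hcon
    push Not at hcon
    obtain ⟨i1, hi1⟩ := hcon
    obtain ⟨i0, -, hmax⟩ := Finset.exists_max_image Finset.univ
      (fun i => B.valuation (algebraMap k L (g i))) ⟨i1, Finset.mem_univ _⟩
    have hg0 : g i0 ≠ 0 := by
      intro h0
      have h1 := hmax i1 (Finset.mem_univ _)
      rw [h0, map_zero, map_zero, le_zero_iff, map_eq_zero, map_eq_zero] at h1
      exact hi1 h1
    have hv0 : B.valuation (algebraMap k L (g i0)) ≠ 0 := by
      rw [Ne, map_eq_zero, map_eq_zero]; exact hg0
    have hmem : ∀ i, algebraMap k L (g i / g i0) ∈ B := by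
      intro i
      rw [← B.valuation_le_one_iff, map_div₀, map_div₀]
      exact (div_le_one₀ (zero_lt_iff.2 hv0)).2 (hmax i (Finset.mem_univ _))
    choose x hx using fun i => res_surj hB (hmem i)
    have hsum : ∑ i, (⟨algebraMap k L (g i / g i0), hmem i⟩ : B) * y i = 0 := by
      apply Subtype.ext
      rw [AddSubmonoidClass.coe_finset_sum]
      show ∑ i, algebraMap k L (g i / g i0) * ((y i : B) : L) = 0
      have h1 : ∀ i, algebraMap k L (g i / g i0) * ((y i : B) : L) =
          (algebraMap k L (g i0))⁻¹ * (g i • ((y i : B) : L)) := by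
        intro i
        rw [map_div₀, Algebra.smul_def]
        ring
      simp_rw [h1]
      rw [← Finset.mul_sum, hg, mul_zero]
    have h3 := congrArg (residue B) hsum
    rw [map_sum, map_zero] at h3
    have h4 : ∑ i : s, (Ideal.Quotient.mk v.asIdeal (x i)) • ((i : s) : ResidueField B) = 0 := by
      rw [← h3]
      refine Finset.sum_congr rfl fun i _ => ?_
      rw [map_mul, hx, hy, Algebra.smul_def]
      rfl
    have h5 := Fintype.linearIndependent_iff.1 hs _ h4 i0
    have h6 : rB hB (x i0) = 0 := by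
      rw [← jB_mk hB, h5, map_zero]
    rw [← hx] at h6
    have h7 : (⟨algebraMap k L (g i0 / g i0), hmem i0⟩ : B) = 1 := by
      apply Subtype.ext
      show algebraMap k L (g i0 / g i0) = 1
      rw [div_self hg0, map_one]
    rw [h7, map_one] at h6
    exact one_ne_zero h6
  have := hLI.fintype_card_le_finrank
  rw [Fintype.card_coe] at this
  exact this.trans hn

/-- The reduction of a polynomial. -/
theorem map_rB (f : O[X]) : (f.map (rO hB)).map (residue B) =
    (f.map (Ideal.Quotient.mk v.asIdeal)).map (jB hB) := by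
  rw [Polynomial.map_map, Polynomial.map_map]
  rfl

theorem map_rO (f : O[X]) : (f.map (rO hB)).map (algebraMap B L) =
    (f.map (algebraMap O k)).map (algebraMap k L) := by
  rw [Polynomial.map_map, Polynomial.map_map]
  rfl

end res

theorem natDegree_eq_of_coeff {R : Type} [CommRing R] {p q : R[X]}
    (h : ∀ j, p.coeff j = 0 ↔ q.coeff j = 0) : p.natDegree = q.natDegree := by
  apply le_antisymm
  · rw [natDegree_le_iff_coeff_eq_zero]
    intro j hj
    exact (h j).2 (coeff_eq_zero_of_natDegree_lt hj)
  · rw [natDegree_le_iff_coeff_eq_zero]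
    intro j hj
    exact (h j).1 (coeff_eq_zero_of_natDegree_lt hj)

section crit

variable {O k : Type} [CommRing O] [IsDedekindDomain O] [Field k] [Algebra O k]
  [IsFractionRing O k] (v : HeightOneSpectrum O)

/-- A polynomial with irreducible reduction of the same degree is irreducible. -/
theorem irr_of_red {f : O[X]} {N : ℕ} (hf : f.natDegree ≤ N)
    (hd : (f.map (Ideal.Quotient.mk v.asIdeal)).natDegree = N)
    (hirr : Irreducible (f.map (Ideal.Quotient.mk v.asIdeal))) :
    Irreducible (f.map (algebraMap O k)) ∧ (f.map (algebraMap O k)).natDegree = N := by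
  haveI := v.isMaximal
  letI : Field (O ⧸ v.asIdeal) := Ideal.Quotient.field v.asIdeal
  obtain ⟨B, hB⟩ := exists_Dom (L := k) v (k := k)
  have hN : 0 < N := hd ▸ hirr.natDegree_pos
  have hfN : f.natDegree = N := le_antisymm hf (hd ▸ natDegree_map_le)
  have hfk : (f.map (algebraMap O k)).natDegree = N := by
    rw [natDegree_map_eq_of_injective (IsFractionRing.injective O k), hfN]
  have hbij : Function.Bijective (jB hB) := by
    refine ⟨(jB hB).injective, fun y => ?_⟩
    obtain ⟨z, rfl⟩ := residue_surjective y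
    obtain ⟨x, hx⟩ := res_surj hB (c := (z : k)) z.2
    exact ⟨Ideal.Quotient.mk _ x, by rw [jB_mk, ← hx]; rfl⟩
  let e : O ⧸ v.asIdeal ≃+* ResidueField B := RingEquiv.ofBijective (jB hB) hbij
  have hirr' : Irreducible ((f.map (Ideal.Quotient.mk v.asIdeal)).map (jB hB)) := by
    have := (MulEquiv.irreducible_iff (Polynomial.mapEquiv e)).2 hirr
    exact this
  have hdeg' : ((f.map (Ideal.Quotient.mk v.asIdeal)).map (jB hB)).natDegree = N := by
    rw [natDegree_map, hd]
  refine ⟨⟨fun hu => ?_, fun g h e1 => ?_⟩, hfk⟩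
  · have := natDegree_eq_zero_of_isUnit hu
    omega
  · have hne : (f.map (rO hB)).map (residue B) ≠ 0 := by
      rw [map_rB]; exact hirr'.ne_zero
    have e2 : (f.map (rO hB)).map (algebraMap B k) = g * h := by
      rw [map_rO, Algebra.algebraMap_self, Polynomial.map_id, e1]
    obtain ⟨g1, h1, e3, dg, dh⟩ := gauss_red B hne e2
    rw [map_rB] at e3
    have hgh : g * h ≠ 0 := by
      rw [← e1]
      intro h0
      rw [h0, natDegree_zero] at hfk
      omega
    have hg := left_ne_zero_of_mul hgh
    have hh := right_ne_zero_of_mul hgh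
    have dsum : g.natDegree + h.natDegree = N := by
      rw [← natDegree_mul hg hh, ← e1, hfk]
    have hgh1 : g1 * h1 ≠ 0 := by rw [← e3]; exact hirr'.ne_zero
    have dsum1 : g1.natDegree + h1.natDegree = N := by
      rw [← natDegree_mul (left_ne_zero_of_mul hgh1) (right_ne_zero_of_mul hgh1), ← e3, hdeg']
    rw [e3] at hirr'
    rcases hirr'.isUnit_or_isUnit rfl with hu | hu
    · left
      have := natDegree_eq_zero_of_isUnit hu
      have h0 : g.natDegree = 0 := by omega
      rw [eq_C_of_natDegree_eq_zero h0] at hg ⊢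
      exact isUnit_C.2 (isUnit_iff_ne_zero.2 (C_ne_zero.1 hg))
    · right
      have := natDegree_eq_zero_of_isUnit hu
      have h0 : h.natDegree = 0 := by omega
      rw [eq_C_of_natDegree_eq_zero h0] at hh ⊢
      exact isUnit_C.2 (isUnit_iff_ne_zero.2 (C_ne_zero.1 hh))

/-- A polynomial whose reduction has a large irreducible factor of odd degree is not a constant times
a norm. -/
theorem notNorm_of_red {f : O[X]} {N : ℕ} (hN : 3 ≤ N) (hf : f.natDegree ≤ N)
    (hd : (f.map (Ideal.Quotient.mk v.asIdeal)).natDegree = N) {π : (O ⧸ v.asIdeal)[X]}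
    (hπ : Irreducible π) (hπd : π.natDegree + 1 = N) (hodd : Odd π.natDegree)
    (hdvd : π ∣ f.map (Ideal.Quotient.mk v.asIdeal))
    (hirr : Irreducible (f.map (algebraMap O k))) :
    Pool.Agent.TH115.GD.NotNorm (f.map (algebraMap O k)) := by
  haveI := v.isMaximal
  letI : Field (O ⧸ v.asIdeal) := Ideal.Quotient.field v.asIdeal
  have hfN : f.natDegree = N := le_antisymm hf (hd ▸ natDegree_map_le)
  have hfk : (f.map (algebraMap O k)).natDegree = N := by
    rw [natDegree_map_eq_of_injective (IsFractionRing.injective O k), hfN]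
  intro u D U V e
  have hu : u ≠ 0 := by
    rintro rfl
    rw [C_0, zero_mul] at e
    exact hirr.ne_zero e
  have hV : V ≠ 0 := by
    rintro rfl
    rw [zero_pow two_ne_zero, mul_zero, sub_zero] at e
    rw [e, irreducible_isUnit_mul (isUnit_C.2 (isUnit_iff_ne_zero.2 hu)), pow_two] at hirr
    rcases hirr.isUnit_or_isUnit rfl with h | h <;>
    · have h1 := natDegree_eq_zero_of_isUnit h
      rw [e, natDegree_C_mul hu, natDegree_pow, h1] at hfk
      omega
  refine ⟨hV, ?_⟩
  by_contra hns
  have hirrD : Irreducible (X ^ 2 - C D : k[X]) := by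
    refine X_pow_sub_C_irreducible_of_prime Nat.prime_two fun b hb => hns ⟨b, ?_⟩
    rw [← hb, pow_two]
  haveI : Fact (Irreducible (X ^ 2 - C D : k[X])) := ⟨hirrD⟩
  let L := AdjoinRoot (X ^ 2 - C D : k[X])
  haveI : Module.Finite k L := (AdjoinRoot.powerBasis hirrD.ne_zero).finite
  have hfr : Module.finrank k L = 2 := by
    rw [(AdjoinRoot.powerBasis hirrD.ne_zero).finrank, AdjoinRoot.powerBasis_dim hirrD.ne_zero,
      natDegree_X_pow_sub_C]
  let δ : L := AdjoinRoot.root (X ^ 2 - C D)
  have hδ : δ ^ 2 = algebraMap k L D := by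
    have h1 : aeval δ (X ^ 2 - C D : k[X]) = 0 := by
      rw [AdjoinRoot.aeval_eq, AdjoinRoot.mk_self]
    rw [map_sub, map_pow, aeval_X, aeval_C, sub_eq_zero] at h1
    exact h1
  have hδk : ∀ c : k, algebraMap k L c ≠ δ := by
    intro c hc
    apply hns
    refine ⟨c, ?_⟩
    have h1 : algebraMap k L D = algebraMap k L (c * c) := by
      rw [← hδ, ← hc, map_mul, pow_two]
    exact (algebraMap k L).injective h1
  set U' := U.map (algebraMap k L) with hU'
  set V' := V.map (algebraMap k L) with hV'
  have e1 : (f.map (algebraMap O k)).map (algebraMap k L) =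
      (C (algebraMap k L u) * (U' - C δ * V')) * (U' + C δ * V') := by
    rw [e, Polynomial.map_mul, map_C, Polynomial.map_sub, Polynomial.map_pow, Polynomial.map_mul,
      map_C, Polynomial.map_pow, ← hδ, C_pow]
    ring
  have huL : algebraMap k L u ≠ 0 := (_root_.map_ne_zero _).2 hu
  -- the two factors have the same degree
  have hcoef : ∀ (j : ℕ) (s : k), s = 1 ∨ s = -1 →
      ((U' + C (algebraMap k L s * δ) * V').coeff j = 0 ↔ U.coeff j = 0 ∧ V.coeff j = 0) := by
    intro j s hs
    have hs0 : s ≠ 0 := by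
      rcases hs with rfl | rfl
      · exact one_ne_zero
      · exact neg_ne_zero.2 one_ne_zero
    rw [coeff_add, coeff_C_mul, hU', hV', coeff_map, coeff_map]
    constructor
    · intro h
      by_cases hv : V.coeff j = 0
      · rw [hv, map_zero, mul_zero, add_zero, map_eq_zero] at h
        exact ⟨h, hv⟩
      · exfalso
        apply hδk (-(U.coeff j) / (s * V.coeff j))
        have h3 : algebraMap k L s ≠ 0 := (_root_.map_ne_zero _).2 hs0
        have h5 : algebraMap k L (V.coeff j) ≠ 0 := (_root_.map_ne_zero _).2 hv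
        rw [map_div₀, map_neg, map_mul, div_eq_iff (mul_ne_zero h3 h5)]
        linear_combination -h
    · rintro ⟨h1, h3⟩
      rw [h1, h3, map_zero, mul_zero, add_zero]
  have hminus : U' - C δ * V' = U' + C (algebraMap k L (-1) * δ) * V' := by
    rw [map_neg, map_one, neg_one_mul, C_neg]
    ring
  have hplus : U' + C δ * V' = U' + C (algebraMap k L 1 * δ) * V' := by
    rw [map_one, one_mul]
  have hdeq : (U' - C δ * V').natDegree = (U' + C δ * V').natDegree := by
    apply natDegree_eq_of_coeff
    intro j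
    rw [hminus, hplus, hcoef j (-1) (Or.inr rfl), hcoef j 1 (Or.inl rfl)]
  have hgh : (C (algebraMap k L u) * (U' - C δ * V')) * (U' + C δ * V') ≠ 0 := by
    rw [← e1, Ne, Polynomial.map_eq_zero]
    exact hirr.ne_zero
  have hsum : (C (algebraMap k L u) * (U' - C δ * V')).natDegree + (U' + C δ * V').natDegree = N := by
    rw [← natDegree_mul (left_ne_zero_of_mul hgh) (right_ne_zero_of_mul hgh), ← e1, natDegree_map,
      hfk]
  rw [natDegree_C_mul huL, hdeq] at hsum
  -- the reduction
  obtain ⟨B, hB⟩ := exists_Dom (L := L) v (k := k)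
  letI alg : Algebra (O ⧸ v.asIdeal) (ResidueField B) := (jB hB).toAlgebra
  have hrank := res_rank hB (n := 2) hfr.le
  have hrank' : Module.rank (O ⧸ v.asIdeal) (ResidueField B) ≤ (2 : ℕ) := hrank
  haveI : Module.Finite (O ⧸ v.asIdeal) (ResidueField B) :=
    Module.rank_lt_aleph0_iff.1 (lt_of_le_of_lt hrank' (Cardinal.natCast_lt_aleph0))
  have hfr2 : Module.finrank (O ⧸ v.asIdeal) (ResidueField B) ≤ 2 :=
    Module.finrank_le_of_rank_le hrank'
  have hπ' : Irreducible (π.map (jB hB)) := odd_irr hfr2 hπ hodd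
  have hf0 : f.map (Ideal.Quotient.mk v.asIdeal) ≠ 0 := by
    intro h0
    rw [h0, natDegree_zero] at hd
    omega
  have hne : (f.map (rO hB)).map (residue B) ≠ 0 := by
    rw [map_rB, Ne, Polynomial.map_eq_zero]; exact hf0
  have e2 : (f.map (rO hB)).map (algebraMap B L) =
      (C (algebraMap k L u) * (U' - C δ * V')) * (U' + C δ * V') := by
    rw [map_rO, e1]
  obtain ⟨g1, h1, e3, dg, dh⟩ := gauss_red B hne e2
  have hgh1 : g1 * h1 ≠ 0 := by rw [← e3]; exact hne
  rw [natDegree_C_mul huL, hdeq] at dg
  have hd2 : π.map (jB hB) ∣ g1 * h1 := by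
    rw [← e3, map_rB]
    exact Polynomial.map_dvd _ hdvd
  have hpd : (π.map (jB hB)).natDegree = π.natDegree := natDegree_map _
  rcases hπ'.prime.dvd_or_dvd hd2 with h | h
  · have := natDegree_le_of_dvd h (left_ne_zero_of_mul hgh1)
    omega
  · have := natDegree_le_of_dvd h (right_ne_zero_of_mul hgh1)
    omega

end crit

end Pool.Agent.X243.Tate
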