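import Pool.Agent.X243.Tate.Cnt
import Pool.Agent.X243.Tate.Dens
import Pool.Agent.X243.Tate.Gauss2
import Pool.Agent.Y164.NZ.Spl

/-!
Pairs of polynomials over finite fields, and primes of number fields.
-/

set_option autoImplicit false
set_option linter.all false

open Polynomial IsDedekindDomain NumberField
open scoped Classical

namespace Pool.Agent.X243.Tate

open Pool.Agent.Y160.T3

section pairs

variable {F : Type} [Field F] [Finite F] {m N : ℕ}

/-- The pairs as a product. -/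
def prE (F : Type) (m N : ℕ) : (Fin (m + 1) ⊕ Fin (N + 1) → F) ≃
    (Fin (m + 1) → F) × (Fin (N + 1) → F) := Equiv.sumArrowEquivProdArrow _ _ _

theorem prE_1 (z : Fin (m + 1) ⊕ Fin (N + 1) → F) : (prE F m N z).1 = z ∘ Sum.inl := rfl
theorem prE_2 (z : Fin (m + 1) ⊕ Fin (N + 1) → F) : (prE F m N z).2 = z ∘ Sum.inr := rfl

/-- `(a, b) ↦ (a, w(a) + c b)`. -/
noncomputable def shE (w : (Fin (m + 1) → F) → (Fin (N + 1) → F)) (c : F) (hc : c ≠ 0) :
    (Fin (m + 1) → F) × (Fin (N + 1) → F) ≃ (Fin (m + 1) → F) × (Fin (N + 1) → F) where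
  toFun x := (x.1, fun j => w x.1 j + c * x.2 j)
  invFun x := (x.1, fun j => c⁻¹ * (x.2 j - w x.1 j))
  left_inv x := by
    refine Prod.ext rfl (funext fun j => ?_)
    show c⁻¹ * (w x.1 j + c * x.2 j - w x.1 j) = x.2 j
    rw [add_sub_cancel_left, inv_mul_cancel_left₀ hc]
  right_inv x := by
    refine Prod.ext rfl (funext fun j => ?_)
    show w x.1 j + c * (c⁻¹ * (x.2 j - w x.1 j)) = x.2 j
    rw [mul_inv_cancel_left₀ hc]
    ring

theorem ncard_ev (w : (Fin (m + 1) → F) → (Fin (N + 1) → F)) {c : F} (hc : c ≠ 0)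
    (T : Set (Fin (N + 1) → F)) :
    ({z : Fin (m + 1) ⊕ Fin (N + 1) → F | (fun j => w (z ∘ Sum.inl) j + c * z (Sum.inr j)) ∈ T}).ncard =
      Nat.card F ^ (m + 1) * T.ncard := by
  have h1 : {z : Fin (m + 1) ⊕ Fin (N + 1) → F |
      (fun j => w (z ∘ Sum.inl) j + c * z (Sum.inr j)) ∈ T} =
      ((prE F m N).trans (shE w c hc)) ⁻¹' (Set.univ ×ˢ T) := by
    ext z
    simp [prE, shE, Equiv.sumArrowEquivProdArrow]
  rw [h1, Set.ncard_preimage_of_injective_subset_range (Equiv.injective _) (by simp),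
    Set.ncard_prod, Set.ncard_univ, Nat.card_fun, Nat.card_eq_fintype_card (α := Fin (m + 1)),
    Fintype.card_fin]

/-- The proportion. -/
theorem prop_ev {T : Set (Fin (N + 1) → F)} {D : ℕ} (hD : 0 < D)
    (hT : Nat.card F ^ (N + 1) ≤ D * T.ncard) {S : Set (Fin (m + 1) ⊕ Fin (N + 1) → F)}
    (hS : S.ncard = Nat.card F ^ (m + 1) * T.ncard) :
    (1 / (D : ℝ)) * (Nat.card F : ℝ) ^ (Fintype.card (Fin (m + 1) ⊕ Fin (N + 1))) ≤
      (S.ncard : ℝ) := by
  have hD' : (0 : ℝ) < D := by exact_mod_cast hD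
  rw [Fintype.card_sum, Fintype.card_fin, Fintype.card_fin, hS, one_div, inv_mul_le_iff₀ hD']
  push_cast
  have h1 : (Nat.card F : ℝ) ^ (N + 1) ≤ D * (T.ncard : ℝ) := by exact_mod_cast hT
  calc (Nat.card F : ℝ) ^ (m + 1 + (N + 1)) = (Nat.card F : ℝ) ^ (m + 1) * (Nat.card F : ℝ) ^ (N + 1) :=
        pow_add _ _ _
    _ ≤ (Nat.card F : ℝ) ^ (m + 1) * (D * (T.ncard : ℝ)) :=
        mul_le_mul_of_nonneg_left h1 (by positivity)
    _ = D * ((Nat.card F : ℝ) ^ (m + 1) * (T.ncard : ℝ)) := by ring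

end pairs

section primes

variable (A k : Type) [Field A] [NumberField A] [Field k] [NumberField k] [Algebra A k]

/-- The primes of degree one, not above two, with a residue field with at least `B` elements. -/
def Zset (B : ℕ) : Set (HeightOneSpectrum (𝓞 A)) :=
  {p | (∃ P : HeightOneSpectrum (𝓞 k),
    (∀ x : 𝓞 A, x ∈ p.asIdeal ↔ algebraMap (𝓞 A) (𝓞 k) x ∈ P.asIdeal) ∧
      ∀ y : 𝓞 k, ∃ x : 𝓞 A, y - algebraMap (𝓞 A) (𝓞 k) x ∈ P.asIdeal) ∧
    (2 : 𝓞 A) ∉ p.asIdeal ∧ B ≤ Nat.card (𝓞 A ⧸ p.asIdeal)}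

theorem Zset_inf (B : ℕ) : (Zset A k B).Infinite := by
  have h1 := Pool.Agent.Y164.NZ.split_inf A k
  have h2 : {p : HeightOneSpectrum (𝓞 A) | (2 : 𝓞 A) ∈ p.asIdeal}.Finite := by
    have h3 : (Ideal.span {(2 : 𝓞 A)}) ≠ 0 := by
      rw [Ne, Ideal.zero_eq_bot, Ideal.span_singleton_eq_bot]
      exact two_ne_zero
    refine (Ideal.finite_factors h3).subset ?_
    intro p hp
    show p.asIdeal ∣ _
    rw [Ideal.dvd_span_singleton]
    exact hp
  have h3 : {p : HeightOneSpectrum (𝓞 A) | Nat.card (𝓞 A ⧸ p.asIdeal) < B}.Finite := by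
    have h4 : {I : Ideal (𝓞 A) | Ideal.absNorm I ≤ B}.Finite :=
      Ideal.finite_setOf_absNorm_le B
    refine Set.Finite.of_finite_image (f := fun p : HeightOneSpectrum (𝓞 A) => p.asIdeal)
      (h4.subset ?_) ?_
    · rintro _ ⟨p, hp, rfl⟩
      show Ideal.absNorm p.asIdeal ≤ B
      rw [Ideal.absNorm_apply, Submodule.cardQuot_apply]
      exact le_of_lt hp
    · intro p _ q _ h
      exact HeightOneSpectrum.ext h
  have h4 := (h1.diff h2).diff h3
  refine h4.mono ?_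
  rintro p ⟨⟨hp1, hp2⟩, hp3⟩
  exact ⟨hp1, hp2, not_lt.1 hp3⟩

end primes

end Pool.Agent.X243.Tate
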