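import Pool.Agent.X243.Tate.Ev
import Pool.Agent.TH115.ID.Gener

/-!
The elliptic surfaces with a section of order two: the conditions at a prime.
-/

set_option autoImplicit false
set_option linter.all false

open Polynomial IsDedekindDomain NumberField
open scoped Classical

namespace Pool.Agent.X243.Tate

open Pool.Agent.Y160.T3 Pool.Agent.TH115.GD

section ev

/-- Irreducible of degree `N`. -/
def E1 (R : Type) [CommRing R] (N : ℕ) : Set (Fin (N + 1) → R) :=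
  {y | Irreducible (bF y) ∧ (bF y).natDegree = N}

/-- Of degree `N`, with an irreducible factor of degree `N - 1`. -/
def E2 (R : Type) [CommRing R] (N : ℕ) : Set (Fin (N + 1) → R) :=
  {y | (bF y).natDegree = N ∧ ∃ π : R[X], Irreducible π ∧ π.natDegree + 1 = N ∧ π ∣ bF y}

/-- The coefficients of `b`, or of `a ^ 2 - 4 b`. -/
noncomputable def cf (s : Bool) {R : Type} [CommRing R] {m N : ℕ} (z : Fin (m + 1) ⊕ Fin (N + 1) → R) :
    Fin (N + 1) → R :=
  fun j => (if s then 0 else ((bF (z ∘ Sum.inl)) ^ 2).coeff j) +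
    (if s then 1 else -4) * z (Sum.inr j)

/-- The events. -/
def Gev (m N : ℕ) (s : Bool × Bool) (R : Type) [CommRing R] : Set (Fin (m + 1) ⊕ Fin (N + 1) → R) :=
  {z | cf s.1 z ∈ if s.2 then E1 R N else E2 R N}

theorem Gev_card {F : Type} [Field F] [Finite F] {m N : ℕ} (hN : 3 ≤ N)
    (hq : 2 * N + 2 ≤ Nat.card F) (h2 : (2 : F) ≠ 0) (s : Bool × Bool) :
    (1 / ((4 * N : ℕ) : ℝ)) * (Nat.card F : ℝ) ^ (Fintype.card (Fin (m + 1) ⊕ Fin (N + 1))) ≤
      ((Gev m N s F).ncard : ℝ) := by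
  haveI := Fintype.ofFinite F
  have h4 : (-4 : F) ≠ 0 := by
    rw [neg_ne_zero, show (4 : F) = 2 * 2 by norm_num]
    exact mul_ne_zero h2 h2
  have hc : (if s.1 then (1 : F) else -4) ≠ 0 := by
    split_ifs
    · exact one_ne_zero
    · exact h4
  have h1 : Nat.card F ^ (N + 1) ≤ 4 * N * (E1 F N).ncard := by
    rw [Nat.card_eq_fintype_card] at hq ⊢
    exact T1_card (by omega) hq
  have h3 : Nat.card F ^ (N + 1) ≤ 4 * N * (E2 F N).ncard := by
    rw [Nat.card_eq_fintype_card] at hq ⊢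
    obtain ⟨M, rfl⟩ : ∃ M, N = M + 1 := ⟨N - 1, by omega⟩
    exact T2_card (M := M) (by omega) (by omega)
  have h5 : Nat.card F ^ (N + 1) ≤ 4 * N * (if s.2 then E1 F N else E2 F N : Set _).ncard := by
    split_ifs
    · exact h1
    · exact h3
  refine prop_ev (m := m) (by omega) h5 ?_
  exact ncard_ev (F := F) (m := m) (N := N)
    (fun x j => if s.1 then 0 else ((bF x) ^ 2).coeff j) hc _

end ev

section theta

variable {A k : Type} [Field A] [NumberField A] [Field k] [NumberField k] [Algebra A k]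

/-- The residue fields. -/
theorem exists_theta (p : HeightOneSpectrum (𝓞 A)) (P : HeightOneSpectrum (𝓞 k))
    (h1 : ∀ x : 𝓞 A, x ∈ p.asIdeal ↔ algebraMap (𝓞 A) (𝓞 k) x ∈ P.asIdeal)
    (h2 : ∀ y : 𝓞 k, ∃ x : 𝓞 A, y - algebraMap (𝓞 A) (𝓞 k) x ∈ P.asIdeal) :
    ∃ θ : 𝓞 A ⧸ p.asIdeal ≃+* 𝓞 k ⧸ P.asIdeal, ∀ x : 𝓞 A,
      θ (Ideal.Quotient.mk p.asIdeal x) =
        Ideal.Quotient.mk P.asIdeal (algebraMap (𝓞 A) (𝓞 k) x) := by
  have hle : p.asIdeal ≤ Ideal.comap (algebraMap (𝓞 A) (𝓞 k)) P.asIdeal :=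
    fun x hx => Ideal.mem_comap.2 ((h1 x).1 hx)
  have hle' : Ideal.comap (algebraMap (𝓞 A) (𝓞 k)) P.asIdeal ≤ p.asIdeal :=
    fun x hx => (h1 x).2 (Ideal.mem_comap.1 hx)
  refine ⟨RingEquiv.ofBijective (Ideal.quotientMap P.asIdeal (algebraMap (𝓞 A) (𝓞 k)) hle)
    ⟨Ideal.quotientMap_injective' hle', ?_⟩, fun x => ?_⟩
  swap
  · exact Ideal.quotientMap_mk (J := p.asIdeal) (I := P.asIdeal) (H := hle)
  intro y
  obtain ⟨y, rfl⟩ := Ideal.Quotient.mk_surjective y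
  obtain ⟨x, hx⟩ := h2 y
  refine ⟨Ideal.Quotient.mk _ x, ?_⟩
  rw [Ideal.quotientMap_mk, eq_comm, Ideal.Quotient.eq]
  exact hx

theorem red_map {p : HeightOneSpectrum (𝓞 A)} {P : HeightOneSpectrum (𝓞 k)}
    {θ : 𝓞 A ⧸ p.asIdeal ≃+* 𝓞 k ⧸ P.asIdeal}
    (hθ : ∀ x : 𝓞 A, θ (Ideal.Quotient.mk p.asIdeal x) =
        Ideal.Quotient.mk P.asIdeal (algebraMap (𝓞 A) (𝓞 k) x)) (f : (𝓞 A)[X]) :
    (f.map (algebraMap (𝓞 A) (𝓞 k))).map (Ideal.Quotient.mk P.asIdeal) =
      (f.map (Ideal.Quotient.mk p.asIdeal)).map (θ : 𝓞 A ⧸ p.asIdeal →+* 𝓞 k ⧸ P.asIdeal) := by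
  rw [map_map, map_map]
  congr 1
  ext x
  exact (hθ x).symm

theorem map_twice (f : (𝓞 A)[X]) :
    (f.map (algebraMap (𝓞 A) (𝓞 k))).map (algebraMap (𝓞 k) k) = f.map (algebraMap (𝓞 A) k) := by
  rw [map_map, ← IsScalarTower.algebraMap_eq]

theorem mapEq_irr {R S : Type} [CommRing R] [CommRing S] (θ : R ≃+* S) {f : R[X]}
    (hf : Irreducible f) : Irreducible (f.map (θ : R →+* S)) := by
  have h1 := (MulEquiv.irreducible_iff (mapEquiv θ)).2 hf
  rwa [mapEquiv_apply] at h1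

theorem lift_irr {N B : ℕ} {p : HeightOneSpectrum (𝓞 A)} (hp : p ∈ Zset A k B) {f : (𝓞 A)[X]}
    (hf : f.natDegree ≤ N) (hd : (f.map (Ideal.Quotient.mk p.asIdeal)).natDegree = N)
    (hirr : Irreducible (f.map (Ideal.Quotient.mk p.asIdeal))) :
    Irreducible (f.map (algebraMap (𝓞 A) k)) ∧ (f.map (algebraMap (𝓞 A) k)).natDegree = N := by
  obtain ⟨⟨P, h1, h2⟩, -⟩ := hp
  obtain ⟨θ, hθ⟩ := exists_theta p P h1 h2
  have h3 := irr_of_red (k := k) P (f := f.map (algebraMap (𝓞 A) (𝓞 k))) (N := N)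
    (natDegree_map_le.trans hf) (by
      rw [red_map hθ, natDegree_map_eq_of_injective θ.injective, hd]) (by
      rw [red_map hθ]
      exact mapEq_irr θ hirr)
  rwa [map_twice] at h3

theorem lift_norm {N B : ℕ} (hN : 3 ≤ N) {p : HeightOneSpectrum (𝓞 A)} (hp : p ∈ Zset A k B)
    {f : (𝓞 A)[X]} (hf : f.natDegree ≤ N)
    (hd : (f.map (Ideal.Quotient.mk p.asIdeal)).natDegree = N) {π : (𝓞 A ⧸ p.asIdeal)[X]}
    (hπ : Irreducible π) (hπd : π.natDegree + 1 = N)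
    (hdvd : π ∣ f.map (Ideal.Quotient.mk p.asIdeal))
    (hirr : Irreducible (f.map (algebraMap (𝓞 A) k)))
    (hdeg : (f.map (algebraMap (𝓞 A) k)).natDegree = N) :
    NotNorm (f.map (algebraMap (𝓞 A) k)) := by
  rcases Nat.even_or_odd N with hev | hodd
  · obtain ⟨⟨P, h1, h2⟩, -⟩ := hp
    obtain ⟨θ, hθ⟩ := exists_theta p P h1 h2
    have ho : Odd π.natDegree := by
      obtain ⟨j, hj⟩ := hev
      exact ⟨j - 1, by omega⟩
    have h3 := notNorm_of_red (k := k) P (f := f.map (algebraMap (𝓞 A) (𝓞 k))) (N := N) hN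
      (natDegree_map_le.trans hf) (by
        rw [red_map hθ, natDegree_map_eq_of_injective θ.injective, hd])
      (π := π.map (θ : 𝓞 A ⧸ p.asIdeal →+* 𝓞 k ⧸ P.asIdeal)) (mapEq_irr θ hπ)
      (by rw [natDegree_map_eq_of_injective θ.injective, hπd])
      (by rw [natDegree_map_eq_of_injective θ.injective]; exact ho)
      (by
        rw [red_map hθ]
        exact (mapRingHom (θ : 𝓞 A ⧸ p.asIdeal →+* 𝓞 k ⧸ P.asIdeal)).map_dvd hdvd)
      (by rwa [map_twice])
    rwa [map_twice] at h3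
  · exact notNorm_of_odd (by rwa [hdeg])

end theta

section coef

variable {R S : Type} [CommRing R] [CommRing S]

theorem bF_map (g : R →+* S) {r : ℕ} (y : Fin r → R) : (bF y).map g = bF (fun j => g (y j)) := by
  rw [bF, bF, Polynomial.map_sum]
  exact Finset.sum_congr rfl fun j _ => by rw [Polynomial.map_mul, Polynomial.map_pow, map_C, map_X]

theorem bF_nd {N : ℕ} (y : Fin (N + 1) → R) : (bF y).natDegree ≤ N := by
  refine natDegree_le_of_degree_le ?_
  rcases eq_or_ne (bF y) 0 with h | h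
  · rw [h, degree_zero]; exact bot_le
  · rw [degree_eq_natDegree h]
    have h1 := bF_deg y
    rw [degree_eq_natDegree h] at h1
    have h2 : (bF y).natDegree < N + 1 := by exact_mod_cast h1
    exact_mod_cast (by omega : (bF y).natDegree ≤ N)

/-- `b` or `a ^ 2 - 4 b`. -/
noncomputable def pol (s : Bool) {m N : ℕ} (z : Fin (m + 1) ⊕ Fin (N + 1) → R) : R[X] :=
  if s then bF (z ∘ Sum.inr) else (bF (z ∘ Sum.inl)) ^ 2 - 4 * bF (z ∘ Sum.inr)

theorem pol_nd (s : Bool) {m N : ℕ} (hmN : 2 * m ≤ N) (z : Fin (m + 1) ⊕ Fin (N + 1) → R) :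
    (pol s z).natDegree ≤ N := by
  rw [pol]
  split_ifs
  · exact bF_nd _
  · refine (natDegree_sub_le _ _).trans (max_le ?_ ?_)
    · refine natDegree_pow_le.trans ((Nat.mul_le_mul_left 2 (bF_nd _)).trans hmN)
    · have e4 : (4 : R[X]) = C 4 := rfl
      rw [e4]
      exact (natDegree_C_mul_le _ _).trans (bF_nd _)

theorem bF_cf (s : Bool) {m N : ℕ} (hmN : 2 * m ≤ N) (z : Fin (m + 1) ⊕ Fin (N + 1) → R) :
    bF (cf s z) = pol s z := by
  have h1 : cf s z = fun j : Fin (N + 1) => (pol s z).coeff j := by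
    funext j
    rw [cf, pol]
    have hb : (bF (z ∘ Sum.inr)).coeff (j : ℕ) = z (Sum.inr j) := bF_coeff (z ∘ Sum.inr) j
    split_ifs
    · rw [zero_add, one_mul, hb]
    · have e4 : (4 : R[X]) = C 4 := rfl
      rw [coeff_sub, e4, coeff_C_mul, hb]
      ring
  rw [h1]
  apply bF_of
  rw [degree_lt_iff_coeff_zero]
  intro j hj
  exact coeff_eq_zero_of_natDegree_lt (by have := pol_nd s hmN z; omega)

theorem pol_map (g : R →+* S) (s : Bool) {m N : ℕ} (z : Fin (m + 1) ⊕ Fin (N + 1) → R) :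
    (pol s z).map g = pol s (fun j => g (z j)) := by
  rw [pol, pol]
  split_ifs
  · rw [bF_map]; rfl
  · rw [Polynomial.map_sub, Polynomial.map_pow, Polynomial.map_mul, bF_map, bF_map,
      Polynomial.map_ofNat]
    rfl

end coef

end Pool.Agent.X243.Tate
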