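import Mathlib

/-!
Reduction of factorizations with respect to a valuation ring.
-/

set_option autoImplicit false
set_option linter.all false

open Polynomial IsLocalRing
open scoped Classical

namespace Pool.Agent.X243.Tate

section dom

variable {O L : Type} [CommRing O] [Field L]

theorem exists_dom (ι : O →+* L) (hι : Function.Injective ι) (P : Ideal O) (hP : P ≠ ⊤) :
    ∃ B : ValuationSubring L, (∀ x, ι x ∈ B) ∧ ∀ x ∈ P, ι x ∈ B.nonunits := by
  have hbij : Function.Bijective ι.rangeRestrict :=
    ⟨fun x y h => hι (congrArg Subtype.val h), ι.rangeRestrict_surjective⟩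
  have hI : P.map ι.rangeRestrict ≠ ⊤ := by
    intro h
    apply hP
    rw [← Ideal.comap_map_of_bijective ι.rangeRestrict hbij (I := P), h, Ideal.comap_top]
  obtain ⟨B, h1, h2⟩ := Ideal.image_subset_nonunits_valuationSubring (P.map ι.rangeRestrict) hI
  refine ⟨B, fun x => h1 ⟨x, rfl⟩, fun x hx => ?_⟩
  exact h2 ⟨ι.rangeRestrict x, Ideal.mem_map_of_mem _ hx, rfl⟩

variable (B : ValuationSubring L)

theorem prim_lift {g : L[X]} (hg : g ≠ 0) : ∃ (g' : B[X]) (l : L), l ≠ 0 ∧
    g'.map (algebraMap B L) = C l * g ∧ g'.map (residue B) ≠ 0 := by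
  obtain ⟨i, hi, hmax⟩ := Finset.exists_max_image g.support
    (fun i => B.valuation (g.coeff i)) (by rwa [Finset.nonempty_iff_ne_empty, Ne, support_eq_empty])
  have hi0 : g.coeff i ≠ 0 := mem_support_iff.1 hi
  have hl : (g.coeff i)⁻¹ ≠ 0 := inv_ne_zero hi0
  have hmem : ∀ j, (g.coeff i)⁻¹ * g.coeff j ∈ B := by
    intro j
    rw [← B.valuation_le_one_iff, map_mul, map_inv₀]
    by_cases hj : j ∈ g.support
    · have h1 := hmax j hj
      have h0 : B.valuation (g.coeff i) ≠ 0 := (Valuation.ne_zero_iff _).2 hi0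
      rw [inv_mul_le_iff₀ (zero_lt_iff.2 h0), mul_one]
      exact h1
    · rw [notMem_support_iff.1 hj, map_zero, mul_zero]
      exact zero_le'
  have hlift : C (g.coeff i)⁻¹ * g ∈ lifts (algebraMap B L) := by
    rw [lifts_iff_coeff_lifts]
    intro j
    rw [coeff_C_mul]
    exact ⟨⟨_, hmem j⟩, rfl⟩
  obtain ⟨g', hg'⟩ := (mem_lifts _).1 hlift
  refine ⟨g', _, hl, hg', ?_⟩
  intro h0
  have h1 : algebraMap B L (g'.coeff i) = 1 := by
    rw [← coeff_map, hg', coeff_C_mul, inv_mul_cancel₀ hi0]
  have h2 : g'.coeff i = 1 := Subtype.ext h1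
  have h3 := congrArg (fun p => coeff p i) h0
  simp only [coeff_map, h2, map_one, coeff_zero] at h3
  exact one_ne_zero h3

/-- A factorization over the field gives a factorization of the reduction. -/
theorem gauss_red {f : B[X]} (hf : f.map (residue B) ≠ 0) {g h : L[X]}
    (e : f.map (algebraMap B L) = g * h) : ∃ g1 h1 : (ResidueField B)[X],
      f.map (residue B) = g1 * h1 ∧ g1.natDegree ≤ g.natDegree ∧ h1.natDegree ≤ h.natDegree := by
  have hinj : Function.Injective (algebraMap B L) := Subtype.val_injective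
  have hf0 : f ≠ 0 := fun h0 => hf (by rw [h0, Polynomial.map_zero])
  have hgh : g * h ≠ 0 := by
    rw [← e, Ne, Polynomial.map_eq_zero_iff hinj]
    exact hf0
  have hg := left_ne_zero_of_mul hgh
  have hh := right_ne_zero_of_mul hgh
  obtain ⟨g', l, hl, eg, rg⟩ := prim_lift B hg
  obtain ⟨h', m, hm, eh, rh⟩ := prim_lift B hh
  have dg : g'.natDegree = g.natDegree := by
    rw [← natDegree_map_eq_of_injective hinj, eg, natDegree_C_mul hl]
  have dh : h'.natDegree = h.natDegree := by
    rw [← natDegree_map_eq_of_injective hinj, eh, natDegree_C_mul hm]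
  have prod : (g' * h').map (algebraMap B L) = C (l * m) * f.map (algebraMap B L) := by
    rw [Polynomial.map_mul, eg, eh, e, C_mul]
    ring
  have lm : l * m ≠ 0 := mul_ne_zero hl hm
  have key : ∃ c : ResidueField B, f.map (residue B) = C c * (g'.map (residue B) * h'.map (residue B)) := by
    rcases B.mem_or_inv_mem (l * m) with hB | hB
    · have h1 : g' * h' = C (⟨l * m, hB⟩ : B) * f := by
        apply Polynomial.map_injective _ hinj
        rw [prod, Polynomial.map_mul, map_C]
        rfl
      have h2 := congrArg (Polynomial.map (residue B)) h1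
      rw [Polynomial.map_mul, Polynomial.map_mul, map_C] at h2
      have h3 : residue B (⟨l * m, hB⟩ : B) ≠ 0 := by
        intro h0
        rw [h0, C_0, zero_mul] at h2
        exact mul_ne_zero rg rh h2
      refine ⟨(residue B (⟨l * m, hB⟩ : B))⁻¹, ?_⟩
      rw [h2, ← mul_assoc, ← C_mul, inv_mul_cancel₀ h3, C_1, one_mul]
    · have h1 : f = C (⟨(l * m)⁻¹, hB⟩ : B) * (g' * h') := by
        apply Polynomial.map_injective _ hinj
        rw [Polynomial.map_mul, map_C, prod]
        show _ = C ((l * m)⁻¹) * _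
        rw [← mul_assoc, ← C_mul, inv_mul_cancel₀ lm, C_1, one_mul]
      refine ⟨residue B ⟨(l * m)⁻¹, hB⟩, ?_⟩
      conv_lhs => rw [h1]
      rw [Polynomial.map_mul, map_C, Polynomial.map_mul]
  obtain ⟨c, hc⟩ := key
  refine ⟨C c * g'.map (residue B), h'.map (residue B), by rw [hc, mul_assoc], ?_, ?_⟩
  · refine (natDegree_C_mul_le _ _).trans ?_
    rw [← dg]
    exact natDegree_map_le
  · rw [← dh]
    exact natDegree_map_le

end dom

end Pool.Agent.X243.Tate
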