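import Pool.Agent.X243.Tate.Ev2

/-!
The Tate conjecture at two for 100% of the elliptic surfaces with a section of order two.
-/

set_option autoImplicit false
set_option linter.all false

open Polynomial IsDedekindDomain NumberField
open scoped Classical

namespace Pool.Agent.X243.Tate

open Pool.Agent.Y160.T3 Pool.Agent.TH115.GD

section main

variable {A k k' K F : Type} [Field A] [NumberField A] [Field k] [NumberField k] [Algebra A k]
    [Field k'] [Algebra k k'] [Field K] [Algebra k[X] K]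
    [Field F] [Algebra k'[X] F] [IsFractionRing k'[X] F] [Algebra K F]

theorem ev_good {m N B : ℕ} (hmN : 2 * m ≤ N) {y : Fin (m + 1) ⊕ Fin (N + 1) → 𝓞 A} {s : Bool}
    (h1 : ∃ p ∈ Zset A k B, (fun j => Ideal.Quotient.mk p.asIdeal (y j)) ∈
      Gev m N (s, true) (𝓞 A ⧸ p.asIdeal)) :
    Irreducible ((pol s y).map (algebraMap (𝓞 A) k)) ∧
      ((pol s y).map (algebraMap (𝓞 A) k)).natDegree = N := by
  obtain ⟨p, hp, h1⟩ := h1
  have h2 : cf s (fun j => Ideal.Quotient.mk p.asIdeal (y j)) ∈ E1 (𝓞 A ⧸ p.asIdeal) N := h1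
  obtain ⟨h3, h4⟩ := h2
  rw [bF_cf s hmN, ← pol_map] at h3 h4
  exact lift_irr hp (pol_nd s hmN y) h4 h3

theorem ev_norm {m N B : ℕ} (hmN : 2 * m ≤ N) (hN : 3 ≤ N) {y : Fin (m + 1) ⊕ Fin (N + 1) → 𝓞 A}
    {s : Bool} (h0 : Irreducible ((pol s y).map (algebraMap (𝓞 A) k)) ∧
      ((pol s y).map (algebraMap (𝓞 A) k)).natDegree = N)
    (h1 : ∃ p ∈ Zset A k B, (fun j => Ideal.Quotient.mk p.asIdeal (y j)) ∈
      Gev m N (s, false) (𝓞 A ⧸ p.asIdeal)) :
    NotNorm ((pol s y).map (algebraMap (𝓞 A) k)) := by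
  obtain ⟨p, hp, h1⟩ := h1
  have h2 : cf s (fun j => Ideal.Quotient.mk p.asIdeal (y j)) ∈ E2 (𝓞 A ⧸ p.asIdeal) N := h1
  obtain ⟨h4, π, h5, h6, h7⟩ := h2
  rw [bF_cf s hmN, ← pol_map] at h4 h7
  exact lift_norm hN hp (pol_nd s hmN y) h4 h5 h6 h7 h0.1 h0.2

theorem tate_good (hT : IsTower k k' K F) {m N B : ℕ} (hmN : 2 * m ≤ N) (hN : 3 ≤ N)
    {y : Fin (m + 1) ⊕ Fin (N + 1) → 𝓞 A}
    (h : ∀ s : Bool × Bool, ∃ p ∈ Zset A k B, (fun j => Ideal.Quotient.mk p.asIdeal (y j)) ∈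
      Gev m N s (𝓞 A ⧸ p.asIdeal)) (a b : k[X])
    (ha : a = (bF (y ∘ Sum.inl)).map (algebraMap (𝓞 A) k))
    (hb : b = (bF (y ∘ Sum.inr)).map (algebraMap (𝓞 A) k)) :
    (Irreducible b ∧ b.natDegree = N) ∧ (Irreducible (a ^ 2 - 4 * b) ∧
      (a ^ 2 - 4 * b).natDegree = N) ∧
      TateAtTwo (F := F) k' (crvT (algebraMap k[X] K a) (algebraMap k[X] K b)) := by
  have h1 := ev_good (k := k) hmN (h (true, true))
  have h2 := ev_good (k := k) hmN (h (false, true))
  have h3 := ev_norm (k := k) hmN hN h1 (h (true, false))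
  have h4 := ev_norm (k := k) hmN hN h2 (h (false, false))
  have e1 : (pol true y).map (algebraMap (𝓞 A) k) = b := by rw [hb]; rfl
  have e2 : (pol false y).map (algebraMap (𝓞 A) k) = a ^ 2 - 4 * b := by
    rw [ha, hb, pol]
    simp only [Bool.false_eq_true, if_false, Polynomial.map_sub, Polynomial.map_pow,
      Polynomial.map_mul, Polynomial.map_ofNat]
  rw [e1] at h1 h3
  rw [e2] at h2 h4
  refine ⟨h1, h2, ?_⟩
  exact genericT hT (two_ne_zero) (u := 1) (v := 1) (m := 0) (n := 0) (π := b)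
    (ρ := a ^ 2 - 4 * b) one_ne_zero one_ne_zero h1.1 h2.1 h1.1.separable h2.1.separable
    (by rw [C_1, one_mul, mul_zero, zero_add, pow_one])
    (by rw [C_1, one_mul, mul_zero, zero_add, pow_one]) h3 h4

variable (A k) in
theorem two_quot {p : HeightOneSpectrum (𝓞 A)} {B : ℕ} (hp : p ∈ Zset A k B) :
    (2 : 𝓞 A ⧸ p.asIdeal) ≠ 0 := by
  intro h
  have h1 : Ideal.Quotient.mk p.asIdeal (2 : 𝓞 A) = 0 := by rw [map_ofNat]; exact h
  exact hp.2.1 (Ideal.Quotient.eq_zero_iff_mem.1 h1)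

theorem Gev_Z {m N : ℕ} (hN : 3 ≤ N) (s : Bool × Bool) {p : HeightOneSpectrum (𝓞 A)}
    (hp : p ∈ Zset A k (2 * N + 2)) :
    (1 / ((4 * N : ℕ) : ℝ)) * (Nat.card (𝓞 A ⧸ p.asIdeal) : ℝ) ^
      (Fintype.card (Fin (m + 1) ⊕ Fin (N + 1))) ≤
      ((Gev m N s (𝓞 A ⧸ p.asIdeal)).ncard : ℝ) := by
  haveI := p.isMaximal
  letI : Field (𝓞 A ⧸ p.asIdeal) := Ideal.Quotient.field p.asIdeal
  haveI : Finite (𝓞 A ⧸ p.asIdeal) := Ideal.finiteQuotientOfFreeOfNeBot _ p.ne_bot
  exact Gev_card hN hp.2.2 (two_quot A k hp) s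

variable (A k) in
theorem dens_two {m N : ℕ} (hN : 3 ≤ N) (η : ℝ) (hη : 0 < η) :
    ∃ M : Ideal (𝓞 A), M ≠ ⊥ ∧
      (1 - η) * (Nat.card (𝓞 A ⧸ M) : ℝ) ^ (Fintype.card (Fin (m + 1) ⊕ Fin (N + 1))) ≤
      (({x : Fin (m + 1) ⊕ Fin (N + 1) → 𝓞 A ⧸ M | ∀ s : Bool × Bool,
        ∃ p ∈ Zset A k (2 * N + 2), ∀ y : Fin (m + 1) ⊕ Fin (N + 1) → 𝓞 A,
          (∀ j, Ideal.Quotient.mk M (y j) = x j) →
          (fun j => Ideal.Quotient.mk p.asIdeal (y j)) ∈ Gev m N s (𝓞 A ⧸ p.asIdeal)}).ncard : ℝ) := by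
  refine density (Zset A k (2 * N + 2)) (Zset_inf A k _)
    (fun s p => Gev m N s (𝓞 A ⧸ p.asIdeal)) (c := 1 / ((4 * N : ℕ) : ℝ)) ?_ ?_ η hη
  · have : (0 : ℝ) < ((4 * N : ℕ) : ℝ) := by exact_mod_cast (by omega : 0 < 4 * N)
    positivity
  · intro s p hp
    exact Gev_Z hN s hp

end main

section boxes

variable {ι : Type} [Fintype ι]

/-- The box. -/
def box (ι : Type) (B : ℕ) : Set (ι → ℤ) := {y | ∀ j, |y j| ≤ B}

theorem box_eq (B : ℕ) : box ι B = Set.pi Set.univ (fun _ => Set.Icc (-(B : ℤ)) B) := by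
  ext y
  rw [Set.mem_univ_pi]
  exact forall_congr' fun j => abs_le

theorem box_fin (B : ℕ) : (box ι B).Finite := by
  rw [box_eq]
  exact Set.Finite.pi' (fun _ => Set.finite_Icc _ _) |>.subset (fun y hy j => hy j (Set.mem_univ j))

theorem box_ncard (B : ℕ) : (box ι B).ncard = (2 * B + 1) ^ (Fintype.card ι) := by
  rw [box_eq, ← Nat.card_coe_set_eq, Nat.card_congr (Equiv.Set.univPi _), Nat.card_pi]
  have : ∀ i : ι, Nat.card (Set.Icc (-(B : ℤ)) B) = 2 * B + 1 := by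
    intro i
    rw [Nat.card_coe_set_eq, ← Finset.coe_Icc, Set.ncard_coe_finset, Int.card_Icc]
    omega
  rw [Finset.prod_congr rfl fun i _ => this i, Finset.prod_const, Finset.card_univ]

/-- The elements of the box in bad classes. -/
theorem box_bad {R : Type} [CommRing R] [Finite R] (hs : Function.Surjective (Int.castRingHom R))
    (T : Set (ι → R)) (B : ℕ) :
    ({y ∈ box ι B | (fun j => (y j : R)) ∈ T}).ncard ≤
      T.ncard * (2 * B / Nat.card R + 1) ^ (Fintype.card ι) := by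
  haveI : Nonempty R := ⟨0⟩
  obtain ⟨n, hn⟩ : ∃ n : ℕ, n = Nat.card R := ⟨_, rfl⟩
  have hn0 : 0 < n := hn ▸ Nat.card_pos
  have hker : ∀ x y : ℤ, (x : R) = y → (n : ℤ) ∣ x - y := by
    intro x y h
    obtain ⟨g, hg⟩ := (IsPrincipalIdealRing.principal (RingHom.ker (Int.castRingHom R))).principal
    have h1 : Nat.card R = g.natAbs := by
      rw [← Nat.card_congr (RingHom.quotientKerEquivOfSurjective hs).toEquiv,
        Nat.card_congr (Ideal.quotEquivOfEq (show RingHom.ker (Int.castRingHom R) =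
          Ideal.span {g} from hg)).toEquiv, Nat.card_congr (Int.quotientSpanEquivZMod g).toEquiv,
        Nat.card_zmod]
    have h2 : x - y ∈ RingHom.ker (Int.castRingHom R) := by
      rw [RingHom.mem_ker, map_sub, sub_eq_zero]
      exact h
    rw [hg] at h2
    have h3 : g ∣ x - y := Ideal.mem_span_singleton.1 h2
    rw [hn, h1, Int.natCast_natAbs]
    exact (abs_dvd g _).2 h3
  let Φ : (ι → ℤ) → (ι → R) × (ι → ℕ) := fun y =>
    (fun j => (y j : R), fun j => ((y j + B) / n).toNat)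
  have h1 : ({y ∈ box ι B | (fun j => (y j : R)) ∈ T}).ncard ≤
      (T ×ˢ (Set.pi Set.univ fun _ : ι => Set.Iic (2 * B / n))).ncard := by
    refine Set.ncard_le_ncard_of_injOn Φ ?_ ?_ ?_
    · rintro y ⟨hy, hyT⟩
      refine ⟨hyT, ?_⟩
      intro j _
      have h2 := abs_le.1 (hy j)
      show ((y j + B) / n).toNat ≤ 2 * B / n
      rw [Int.toNat_le]
      push_cast
      exact Int.ediv_le_ediv (by exact_mod_cast hn0) (by omega)
    · rintro y ⟨hy, -⟩ y' ⟨hy', -⟩ h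
      have h2 : (fun j => (y j : R)) = fun j => (y' j : R) := (Prod.ext_iff.1 h).1
      have h3 : (fun j => ((y j + B) / n).toNat) = fun j => ((y' j + B) / n).toNat :=
        (Prod.ext_iff.1 h).2
      funext j
      have h4 := hker _ _ (congrFun h2 j)
      have h5 : ((y j + B) / n).toNat = ((y' j + B) / n).toNat := congrFun h3 j
      have h6 := abs_le.1 (hy j)
      have h7 := abs_le.1 (hy' j)
      have hn' : (0 : ℤ) < n := by exact_mod_cast hn0
      have h8 : 0 ≤ (y j + B) / n := Int.ediv_nonneg (by omega) hn'.le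
      have h9 : 0 ≤ (y' j + B) / n := Int.ediv_nonneg (by omega) hn'.le
      have h10 : (y j + B) / n = (y' j + B) / n := by omega
      obtain ⟨t, ht⟩ := h4
      have h11 : y j + B = (y' j + B) + n * t := by linarith
      rw [h11, Int.add_mul_ediv_left _ _ hn'.ne'] at h10
      have h12 : t = 0 := by omega
      rw [h12] at ht
      linarith
    · exact (Set.toFinite T).prod (Set.Finite.pi' (fun _ => Set.finite_Iic _) |>.subset
        (fun y hy j => hy j (Set.mem_univ j)))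
  refine h1.trans (le_of_eq ?_)
  rw [Set.ncard_prod]
  congr 1
  rw [← Nat.card_coe_set_eq, Nat.card_congr (Equiv.Set.univPi _), Nat.card_pi]
  have : ∀ i : ι, Nat.card (Set.Iic (2 * B / n)) = 2 * B / n + 1 := by
    intro i
    rw [Nat.card_coe_set_eq, ← Finset.coe_Iic, Set.ncard_coe_finset, Nat.card_Iic]
  rw [Finset.prod_congr rfl fun i _ => this i, Finset.prod_const, Finset.card_univ, hn]

/-- Density one from residue classes. -/
theorem box_dens (S : Set (ι → ℤ))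
    (h : ∀ η : ℝ, 0 < η → ∃ (R : Type) (_ : CommRing R), Finite R ∧
      Function.Surjective (Int.castRingHom R) ∧ ∃ T : Set (ι → R),
        (T.ncard : ℝ) ≤ η * (Nat.card R : ℝ) ^ (Fintype.card ι) ∧
        ∀ y, y ∉ S → (fun j => (y j : R)) ∈ T) :
    Filter.Tendsto (fun B : ℕ => (((box ι B ∩ S).ncard : ℕ) : ℝ) /
      (((box ι B).ncard : ℕ) : ℝ)) Filter.atTop (nhds 1) := by
  obtain ⟨r, hr⟩ : ∃ r, r = Fintype.card ι := ⟨_, rfl⟩
  have hbox : ∀ B : ℕ, (((box ι B).ncard : ℕ) : ℝ) = (2 * B + 1 : ℝ) ^ r := by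
    intro B
    rw [box_ncard, hr]
    push_cast
    rfl
  have hpos : ∀ B : ℕ, (0 : ℝ) < (2 * B + 1 : ℝ) ^ r := fun B => by positivity
  have hle : ∀ B : ℕ, (((box ι B ∩ S).ncard : ℕ) : ℝ) / (((box ι B).ncard : ℕ) : ℝ) ≤ 1 := by
    intro B
    rw [hbox, div_le_one (hpos B), ← hbox]
    exact_mod_cast Set.ncard_le_ncard Set.inter_subset_left (box_fin B)
  have hsplit : ∀ B : ℕ, (((box ι B ∩ S).ncard : ℕ) : ℝ) + (((box ι B \ S).ncard : ℕ) : ℝ) =
      (2 * B + 1 : ℝ) ^ r := by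
    intro B
    rw [← hbox]
    exact_mod_cast Set.ncard_inter_add_ncard_diff_eq_ncard (box ι B) S (box_fin B)
  rw [Metric.tendsto_atTop]
  intro ε hε
  have h2r : (0 : ℝ) < 2 ^ r := by positivity
  obtain ⟨R, _, hfin, hsurj, T, hT, hbad⟩ := h (ε / 2 / 2 ^ r) (by positivity)
  haveI := hfin
  haveI : Nonempty R := ⟨0⟩
  have hn0 : 0 < Nat.card R := Nat.card_pos
  refine ⟨Nat.card R, fun B hB => ?_⟩
  have h1 : (((box ι B \ S).ncard : ℕ) : ℝ) ≤ (ε / 2) * (2 * B + 1 : ℝ) ^ r := by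
    have h3 : (box ι B \ S).ncard ≤ T.ncard * (2 * B / Nat.card R + 1) ^ r := by
      rw [hr]
      refine le_trans (Set.ncard_le_ncard ?_ ?_) (box_bad hsurj T B)
      · rintro y ⟨hy, hyS⟩
        exact ⟨hy, hbad y hyS⟩
      · exact (box_fin B).subset fun y hy => hy.1
    have h4 : ((2 * B / Nat.card R + 1 : ℕ) : ℝ) ≤ 2 * ((2 * B + 1 : ℝ) / Nat.card R) := by
      have h5 : ((2 * B / Nat.card R : ℕ) : ℝ) ≤ (2 * B : ℝ) / Nat.card R := by
        have := Nat.cast_div_le (α := ℝ) (m := 2 * B) (n := Nat.card R)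
        push_cast at this
        exact this
      have hn1 : (0 : ℝ) < Nat.card R := by exact_mod_cast hn0
      have h6 : (1 : ℝ) ≤ (2 * B + 1 : ℝ) / Nat.card R := by
        rw [le_div_iff₀ hn1, one_mul]
        have : (Nat.card R : ℝ) ≤ B := by exact_mod_cast hB
        linarith
      have h7 : (2 * B : ℝ) / Nat.card R ≤ (2 * B + 1 : ℝ) / Nat.card R :=
        div_le_div_of_nonneg_right (by linarith) hn1.le
      push_cast
      linarith
    have hn1 : (0 : ℝ) < (Nat.card R : ℝ) ^ r := by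
      have : (0 : ℝ) < Nat.card R := by exact_mod_cast hn0
      positivity
    calc (((box ι B \ S).ncard : ℕ) : ℝ) ≤ ((T.ncard * (2 * B / Nat.card R + 1) ^ r : ℕ) : ℝ) := by
          exact_mod_cast h3
      _ = (T.ncard : ℝ) * ((2 * B / Nat.card R + 1 : ℕ) : ℝ) ^ r := by push_cast; rfl
      _ ≤ (ε / 2 / 2 ^ r * (Nat.card R : ℝ) ^ r) * (2 * ((2 * B + 1 : ℝ) / Nat.card R)) ^ r := by
          refine mul_le_mul ?_ (pow_le_pow_left₀ (by positivity) h4 r) (by positivity)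
            (by positivity)
          rw [hr]
          rw [hr] at hT
          exact hT
      _ = (ε / 2) * (2 * B + 1 : ℝ) ^ r := by
          rw [mul_pow, div_pow]
          field_simp
  have h2 := hsplit B
  rw [Real.dist_eq, abs_sub_comm, abs_of_nonneg (by linarith [hle B]), hbox]
  have h3 : 1 - (((box ι B ∩ S).ncard : ℕ) : ℝ) / (2 * B + 1 : ℝ) ^ r =
      (((box ι B \ S).ncard : ℕ) : ℝ) / (2 * B + 1 : ℝ) ^ r := by
    rw [eq_div_iff (hpos B).ne', sub_mul, one_mul, div_mul_cancel₀ _ (hpos B).ne']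
    linarith
  rw [h3, div_lt_iff₀ (hpos B)]
  refine lt_of_le_of_lt h1 ?_
  exact mul_lt_mul_of_pos_right (by linarith) (hpos B)

end boxes

end Pool.Agent.X243.Tate
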