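import Mathlib

/-!
The Chinese remainder theorem and proportions.
-/

set_option autoImplicit false
set_option linter.all false

open scoped Classical

namespace Pool.Agent.X243.Tate

theorem sieve {R : Type} [CommRing R] {ι : Type} [Fintype ι] {r : ℕ} (I : Fin r → Ideal R)
    (hI : ∀ i, (I i).IsMaximal) (hne : ∀ i j, i ≠ j → I i ≠ I j) (hfin : ∀ i, Finite (R ⧸ I i))
    (G : ∀ i, Set (ι → R ⧸ I i)) {c : ℝ} (hc1 : c ≤ 1)
    (hG : ∀ i, c * (Nat.card (R ⧸ I i) : ℝ) ^ (Fintype.card ι) ≤ ((G i).ncard : ℝ)) :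
    Finite (R ⧸ ⨅ i, I i) ∧
    (1 - (1 - c) ^ r) * (Nat.card (R ⧸ ⨅ i, I i) : ℝ) ^ (Fintype.card ι) ≤
      (({x : ι → R ⧸ ⨅ i, I i | ∃ i, ∀ y : ι → R, (∀ j, Ideal.Quotient.mk _ (y j) = x j) →
        (fun j => Ideal.Quotient.mk (I i) (y j)) ∈ G i}).ncard : ℝ) := by
  have hcop : Pairwise fun i j => IsCoprime (I i) (I j) := by
    intro i j hij
    rw [Ideal.isCoprime_iff_sup_eq]
    exact (hI i).coprime_of_ne (hI j) (hne i j hij)
  let e : (R ⧸ ⨅ i, I i) ≃+* ∀ i, R ⧸ I i := Ideal.quotientInfRingEquivPiQuotient I hcop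
  have he : ∀ (y : R) i, e (Ideal.Quotient.mk _ y) i = Ideal.Quotient.mk (I i) y := fun y i => rfl
  haveI hf : Finite (R ⧸ ⨅ i, I i) := Finite.of_equiv _ e.symm.toEquiv
  refine ⟨hf, ?_⟩
  let E : (ι → R ⧸ ⨅ i, I i) ≃ (∀ i, ι → R ⧸ I i) :=
    (Equiv.piCongrRight fun _ => e.toEquiv).trans (Equiv.piComm _)
  have hE : ∀ x i j, E x i j = e (x j) i := fun x i j => rfl
  set S : Set (ι → R ⧸ ⨅ i, I i) := {x | ∃ i, E x i ∈ G i} with hS
  have hsub : S ⊆ {x : ι → R ⧸ ⨅ i, I i | ∃ i, ∀ y : ι → R,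
      (∀ j, Ideal.Quotient.mk _ (y j) = x j) → (fun j => Ideal.Quotient.mk (I i) (y j)) ∈ G i} := by
    rintro x ⟨i, hi⟩
    refine ⟨i, fun y hy => ?_⟩
    have : (fun j => Ideal.Quotient.mk (I i) (y j)) = E x i := by
      funext j
      rw [hE, ← hy, he]
    rw [this]
    exact hi
  have hScard : (S.ncard : ℝ) + (Sᶜ.ncard : ℝ) = (Nat.card (R ⧸ ⨅ i, I i) : ℝ) ^ (Fintype.card ι) := by
    have h1 := Set.ncard_add_ncard_compl S
    rw [Nat.card_fun, Nat.card_eq_fintype_card (α := ι)] at h1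
    exact_mod_cast h1
  have htot : (Nat.card (R ⧸ ⨅ i, I i) : ℝ) ^ (Fintype.card ι) =
      ∏ i, (Nat.card (R ⧸ I i) : ℝ) ^ (Fintype.card ι) := by
    have h1 : Nat.card (ι → R ⧸ ⨅ i, I i) = ∏ i, Nat.card (ι → R ⧸ I i) := by
      rw [Nat.card_congr E, Nat.card_pi]
    simp only [Nat.card_fun, Nat.card_eq_fintype_card (α := ι)] at h1
    exact_mod_cast h1
  have hcompl : Sᶜ.ncard = ∏ i, ((G i)ᶜ).ncard := by
    have h1 : Sᶜ = E ⁻¹' (Set.pi Set.univ fun i => (G i)ᶜ) := by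
      ext x
      simp [hS]
    rw [h1, Set.ncard_preimage_of_injective_subset_range E.injective (by simp)]
    rw [← Nat.card_coe_set_eq, Nat.card_congr (Equiv.Set.univPi _), Nat.card_pi]
    simp only [Nat.card_coe_set_eq]
  have hle : (Sᶜ.ncard : ℝ) ≤ ∏ i, ((1 - c) * (Nat.card (R ⧸ I i) : ℝ) ^ (Fintype.card ι)) := by
    rw [hcompl]
    push_cast
    refine Finset.prod_le_prod (fun i _ => Nat.cast_nonneg _) fun i _ => ?_
    have h1 := Set.ncard_add_ncard_compl (G i)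
    rw [Nat.card_fun, Nat.card_eq_fintype_card (α := ι)] at h1
    have h2 : ((G i).ncard : ℝ) + ((G i)ᶜ.ncard : ℝ) =
        (Nat.card (R ⧸ I i) : ℝ) ^ (Fintype.card ι) := by exact_mod_cast h1
    have h3 := hG i
    linarith
  rw [Finset.prod_mul_distrib, Finset.prod_const, Finset.card_univ, Fintype.card_fin, ← htot] at hle
  have hmono : (S.ncard : ℝ) ≤ (({x : ι → R ⧸ ⨅ i, I i | ∃ i, ∀ y : ι → R,
      (∀ j, Ideal.Quotient.mk _ (y j) = x j) →
        (fun j => Ideal.Quotient.mk (I i) (y j)) ∈ G i}).ncard : ℝ) := by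
    exact_mod_cast Set.ncard_le_ncard hsub (Set.toFinite _)
  linarith

end Pool.Agent.X243.Tate
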